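import Pool.Agent.P8H64.GH.Prod
import Pool.Agent.Q282.UK.Bil

/-!
# Systems of bilinear equations as pairs of sparse matrices with a sparse product
-/

set_option autoImplicit false
set_option linter.unusedVariables false
set_option linter.unusedSectionVars false

open Matrix Pool.Agent.Y116.UV Pool.Agent.Z125.UN Pool.Agent.Q282.UK

namespace Pool.Agent.P8H64.GH

variable {R : Type} [CommRing R]

section design

variable {a b c : ℕ}

/-- the terms of the equations -/
abbrev II (a b c : ℕ) : Type := Fin c × Fin a × Fin b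

/-- the rows: the row of ones, the row of the variables `x`, the rows `f j`, the rows `e k` -/
abbrev Rw (a b c : ℕ) : Type := (Unit ⊕ Unit) ⊕ (Fin b ⊕ II a b c)

/-- the inner indices: `k0`, `m j`, `x i`, `p k` -/
abbrev Kx (a b c : ℕ) : Type := (Unit ⊕ Fin b) ⊕ (Fin a ⊕ II a b c)

/-- the columns: `c l`, `d k`, `g k` -/
abbrev Cl (a b c : ℕ) : Type := Fin c ⊕ (II a b c ⊕ II a b c)

/-- the row of ones -/
abbrev rε : Rw a b c := Sum.inl (Sum.inl ())
/-- the row of the variables `x` -/
abbrev rr : Rw a b c := Sum.inl (Sum.inr ())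
/-- row -/
abbrev rf (j : Fin b) : Rw a b c := Sum.inr (Sum.inl j)
/-- row -/
abbrev re (k : II a b c) : Rw a b c := Sum.inr (Sum.inr k)
/-- inner index -/
abbrev k0 : Kx a b c := Sum.inl (Sum.inl ())
/-- inner index -/
abbrev km (j : Fin b) : Kx a b c := Sum.inl (Sum.inr j)
/-- inner index -/
abbrev kx (i : Fin a) : Kx a b c := Sum.inr (Sum.inl i)
/-- inner index -/
abbrev kp (k : II a b c) : Kx a b c := Sum.inr (Sum.inr k)
/-- column -/
abbrev cc (l : Fin c) : Cl a b c := Sum.inl l
/-- column -/
abbrev cd (k : II a b c) : Cl a b c := Sum.inr (Sum.inl k)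
/-- column -/
abbrev cg (k : II a b c) : Cl a b c := Sum.inr (Sum.inr k)

/-- the ones of the first matrix -/
def dEV : Rw a b c → Kx a b c → Prop :=
  Sum.elim (Sum.elim (fun _ _ => True) fun _ _ => False)
    (Sum.elim (fun j => Sum.elim (Sum.elim (fun _ => False) fun j' => j' = j) fun _ => False)
      fun k => Sum.elim (fun _ => False) (Sum.elim (fun _ => False) fun k' => k' = k))

/-- the zeros of the first matrix -/
def dZV : Rw a b c → Kx a b c → Prop :=
  Sum.elim (Sum.elim (fun _ _ => False) fun _ => Sum.elim (fun _ => True) fun _ => False)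
    (Sum.elim (fun j => Sum.elim (Sum.elim (fun _ => False) fun j' => j' ≠ j) fun _ => True)
      fun k => Sum.elim (Sum.elim (fun _ => True) fun j => j ≠ k.2.2) (Sum.elim (fun _ => True) fun k' => k' ≠ k))

/-- the ones of the second matrix -/
def dEW : Kx a b c → Cl a b c → Prop :=
  Sum.elim (Sum.elim (fun _ => Sum.elim (fun _ => True) fun _ => False) fun _ _ => False)
    (Sum.elim (fun _ _ => False) fun k' => Sum.elim (fun _ => False) (Sum.elim (fun k => k' = k) fun k => k' = k))

/-- the zeros of the second matrix -/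
def dZW (E : II a b c → Prop) : Kx a b c → Cl a b c → Prop :=
  Sum.elim (Sum.elim (fun _ => Sum.elim (fun _ => False) fun _ => True)
      fun j => Sum.elim (fun _ => False) (Sum.elim (fun _ => True) fun k => j ≠ k.2.2))
    (Sum.elim (fun i => Sum.elim (fun _ => True) (Sum.elim (fun k => i ≠ k.2.1) fun _ => True))
      fun k' => Sum.elim (fun l => ¬ (k'.1 = l ∧ E k')) (Sum.elim (fun k => k' ≠ k) fun k => k' ≠ k))

/-- the zeros of the product -/
def dZD (E : II a b c → Prop) : Rw a b c → Cl a b c → Prop :=
  Sum.elim (Sum.elim (fun _ => Sum.elim (fun _ => False) fun _ => True)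
      fun _ => Sum.elim (fun _ => True) (Sum.elim (fun _ => True) fun _ => False))
    (Sum.elim (fun _ => Sum.elim (fun _ => True) fun _ => False)
      fun k => Sum.elim (fun l => k.1 = l ∧ E k) (Sum.elim (fun _ => False) fun k' => k' = k))

/-- the places -/
def dQ (E : II a b c → Prop) : VW (Rw a b c) (Kx a b c) (Cl a b c) := ⟨dZV, dEV, dZW E, dEW, dZD E⟩

lemma dQ_ok (E : II a b c → Prop) : (dQ E).Ok rε where
  vz := by
    rintro ((i | i) | (i | i)) ((k | k) | (k | k)) h h'
    · exact h'
    · exact h'
    · exact h'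
    · exact h'
    · exact h
    · exact h
    · exact h
    · exact h
    · exact h
    · exact h' h
    · exact h
    · exact h
    · exact h
    · exact h
    · exact h
    · exact h' h
  wz := by
    rintro ((k | k) | (k | k)) (j | (j | j)) h h'
    · exact h'
    · exact h
    · exact h
    · exact h
    · exact h
    · exact h
    · exact h
    · exact h
    · exact h
    · exact h
    · exact h' h
    · exact h' h
  star k := trivial
  row := by
    rintro ((i | i) | (i | i)) k k' h h' h''
    · exact absurd rfl h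
    · exact h'.elim
    · rcases k with (k | k) | k
      · exact h'.elim
      · rcases k' with (k' | k') | k'
        · exact h''.elim
        · rw [show k = i from h', show k' = i from h'']
        · exact h''.elim
      · exact h'.elim
    · rcases k with k | (k | k)
      · exact h'.elim
      · exact h'.elim
      · rcases k' with k' | (k' | k')
        · exact h''.elim
        · exact h''.elim
        · rw [show k = i from h', show k' = i from h'']
  col := by
    rintro (j | (j | j)) ((k | k) | (k | k)) ((k' | k') | (k' | k')) h' h''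
    all_goals first
      | exact h'.elim
      | exact h''.elim
      | rfl
      | (rw [show k = j from h', show k' = j from h''])

open Classical in
/-- the first matrix of a pair of vectors -/
noncomputable def gV {T : Type} [CommRing T] (x : Fin a → T) (y : Fin b → T) : Rw a b c → Kx a b c → T :=
  Sum.elim (Sum.elim (fun _ _ => 1) fun _ => Sum.elim (fun _ => 0) (Sum.elim x fun k => x k.2.1))
    (Sum.elim (fun j => Sum.elim (Sum.elim (fun _ => y j) fun j' => if j' = j then 1 else 0) fun _ => 0)
      fun k => Sum.elim (Sum.elim (fun _ => 0) fun j => if j = k.2.2 then 1 else 0)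
        (Sum.elim (fun _ => 0) fun k' => if k' = k then 1 else 0))

open Classical in
/-- the second matrix of a pair of vectors -/
noncomputable def gW {T : Type} [CommRing T] (E : II a b c → Prop) (y : Fin b → T) : Kx a b c → Cl a b c → T :=
  Sum.elim (Sum.elim (fun _ => Sum.elim (fun _ => 1) fun _ => 0)
      fun j => Sum.elim (fun _ => -(y j)) (Sum.elim (fun _ => 0) fun k => if j = k.2.2 then -1 else 0))
    (Sum.elim (fun i => Sum.elim (fun _ => 0) (Sum.elim (fun k => if i = k.2.1 then -1 else 0) fun _ => 0))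
      fun k' => Sum.elim (fun l => if k'.1 = l ∧ E k' then y k'.2.2 else 0)
        (Sum.elim (fun k => if k' = k then 1 else 0) fun k => if k' = k then 1 else 0))

lemma gV_zero {T : Type} [CommRing T] (x : Fin a → T) (y : Fin b → T) (i : Rw a b c) (k : Kx a b c) (h : dZV i k) :
    gV x y i k = 0 := by
  rcases i with (i | i) | (i | i) <;> rcases k with (k | k) | (k | k)
  all_goals first
    | exact h.elim
    | rfl
    | exact if_neg h

lemma gV_one {T : Type} [CommRing T] (x : Fin a → T) (y : Fin b → T) (i : Rw a b c) (k : Kx a b c) (h : dEV i k) :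
    gV x y i k = 1 := by
  rcases i with (i | i) | (i | i) <;> rcases k with (k | k) | (k | k)
  all_goals first
    | exact h.elim
    | rfl
    | exact if_pos h

lemma gW_zero {T : Type} [CommRing T] (E : II a b c → Prop) (y : Fin b → T) (k : Kx a b c) (j : Cl a b c)
    (h : dZW E k j) : gW E y k j = 0 := by
  rcases k with (k | k) | (k | k) <;> rcases j with j | (j | j)
  all_goals first
    | exact h.elim
    | rfl
    | exact if_neg h

lemma gW_one {T : Type} [CommRing T] (E : II a b c → Prop) (y : Fin b → T) (k : Kx a b c) (j : Cl a b c)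
    (h : dEW k j) : gW E y k j = 1 := by
  rcases k with (k | k) | (k | k) <;> rcases j with j | (j | j)
  all_goals first
    | exact h.elim
    | rfl
    | exact if_pos h

open Classical in
lemma prod_iff {T : Type} [CommRing T] (E : II a b c → Prop) (x : Fin a → T) (y : Fin b → T) :
    (∀ i j, dZD E i j → ∑ k, gV x y i k * gW E y k j = 0) ↔
      ∀ l, ∑ i, ∑ j, (if E (l, i, j) then x i * y j else 0) = 0 := by
  have key : ∀ l : Fin c, ∑ k, gV x y rr k * gW E y k (cc l) =
      ∑ i, ∑ j, (if E (l, i, j) then x i * y j else 0) := by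
    intro l
    rw [Fintype.sum_sum_type, Fintype.sum_sum_type, Fintype.sum_sum_type]
    have e1 : ∑ k : Unit, gV x y (rr : Rw a b c) (Sum.inl (Sum.inl k)) * gW E y (Sum.inl (Sum.inl k)) (cc l) = 0 := by
      simp [gV]
    have e2 : ∑ k : Fin b, gV x y (rr : Rw a b c) (Sum.inl (Sum.inr k)) * gW E y (Sum.inl (Sum.inr k)) (cc l) = 0 := by
      simp [gV]
    have e3 : ∑ k : Fin a, gV x y (rr : Rw a b c) (Sum.inr (Sum.inl k)) * gW E y (Sum.inr (Sum.inl k)) (cc l) = 0 := by
      simp [gW]
    rw [e1, e2, e3, zero_add, zero_add, zero_add, Fintype.sum_prod_type, Finset.sum_eq_single l]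
    · rw [Fintype.sum_prod_type]
      refine Finset.sum_congr rfl fun i _ => Finset.sum_congr rfl fun j _ => ?_
      change x i * (if l = l ∧ E (l, i, j) then y j else 0) = _
      by_cases h : E (l, i, j)
      · simp [h]
      · simp [h]
    · intro l' _ hl'
      refine Finset.sum_eq_zero fun ij _ => ?_
      change x ij.1 * (if l' = l ∧ E (l', ij) then y ij.2 else 0) = 0
      rw [if_neg fun h => hl' h.1, mul_zero]
    · intro h
      exact absurd (Finset.mem_univ l) h
  constructor
  · intro h l
    rw [← key]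
    exact h rr (cc l) trivial
  · intro h i j hij
    rcases i with (i | i) | (i | i) <;> rcases j with j | (j | j)
    · exact hij.elim
    · simp [Fintype.sum_sum_type, gV, gW]
    · simp [Fintype.sum_sum_type, gV, gW]
    · rw [← h j, ← key]
    · simp [Fintype.sum_sum_type, gV, gW]
    · exact hij.elim
    · simp [Fintype.sum_sum_type, gV, gW]
    · exact hij.elim
    · exact hij.elim
    · have h1 : i.1 = j ∧ E i := hij
      have h2 : ∑ k : II a b c, (if k.1 = j ∧ E k then if k = i then y k.2.2 else 0 else 0) = y i.2.2 := by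
        rw [Finset.sum_eq_single i]
        · rw [if_pos h1, if_pos rfl]
        · intro k _ hk
          rw [if_neg hk, ite_self]
        · intro h3
          exact absurd (Finset.mem_univ i) h3
      simp [Fintype.sum_sum_type, gV, gW, h2]
    · exact hij.elim
    · have h1 : j = i := hij
      subst h1
      simp [Fintype.sum_sum_type, gV, gW]

open Classical in
/-- the only solutions -/
lemma solve {T : Type} [CommRing T] (E : II a b c → Prop) (V : Rw a b c → Kx a b c → T) (W : Kx a b c → Cl a b c → T)
    (hzv : ∀ i k, dZV i k → V i k = 0) (hev : ∀ i k, dEV i k → V i k = 1)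
    (hzw : ∀ k j, dZW E k j → W k j = 0) (hew : ∀ k j, dEW k j → W k j = 1)
    (hd : ∀ i j, dZD E i j → ∑ k, V i k * W k j = 0) :
    (∀ i k, V i k = gV (fun i => V rr (kx i)) (fun j => V (rf j) k0) i k) ∧
      ∀ k j, W k j = gW E (fun j => V (rf j) k0) k j := by
  have two : ∀ (f : Kx a b c → T) (α β : Kx a b c), α ≠ β → (∀ k, k ≠ α → k ≠ β → f k = 0) →
      ∑ k, f k = f α + f β := fun f α β h h0 => Fintype.sum_eq_add α β h fun k hk => h0 k hk.1 hk.2
  have s1 : ∀ k : II a b c, W (kx k.2.1) (cd k) = -1 := by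
    intro k
    have h1 := hd rε (cd k) trivial
    rw [two _ (kx k.2.1) (kp k) (by simp [kx, kp]) ?_, hev rε _ trivial, hev rε _ trivial,
      hew (kp k) (cd k) rfl, one_mul, one_mul] at h1
    · exact eq_neg_of_add_eq_zero_left h1
    · rintro ((k' | k') | (k' | k')) h2 h3
      · rw [hzw (Sum.inl (Sum.inl k')) (cd k) trivial, mul_zero]
      · rw [hzw (Sum.inl (Sum.inr k')) (cd k) trivial, mul_zero]
      · rw [hzw (Sum.inr (Sum.inl k')) (cd k) (fun h4 : k' = _ => h2 (by rw [h4])), mul_zero]
      · rw [hzw (Sum.inr (Sum.inr k')) (cd k) (fun h4 : k' = _ => h3 (by rw [h4])), mul_zero]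
  have s2 : ∀ k : II a b c, V rr (kp k) = V rr (kx k.2.1) := by
    intro k
    have h1 := hd rr (cd k) trivial
    rw [two _ (kx k.2.1) (kp k) (by simp [kx, kp]) ?_, s1, hew (kp k) (cd k) rfl, mul_one] at h1
    · rw [mul_neg, mul_one] at h1
      exact (neg_add_eq_zero.mp h1).symm
    · rintro ((k' | k') | (k' | k')) h2 h3
      · rw [hzw (Sum.inl (Sum.inl k')) (cd k) trivial, mul_zero]
      · rw [hzw (Sum.inl (Sum.inr k')) (cd k) trivial, mul_zero]
      · rw [hzw (Sum.inr (Sum.inl k')) (cd k) (fun h4 : k' = _ => h2 (by rw [h4])), mul_zero]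
      · rw [hzw (Sum.inr (Sum.inr k')) (cd k) (fun h4 : k' = _ => h3 (by rw [h4])), mul_zero]
  have s3 : ∀ k : II a b c, W (km k.2.2) (cg k) = -1 := by
    intro k
    have h1 := hd rε (cg k) trivial
    rw [two _ (km k.2.2) (kp k) (by simp [km, kp]) ?_, hev rε _ trivial, hev rε _ trivial,
      hew (kp k) (cg k) rfl, one_mul, one_mul] at h1
    · exact eq_neg_of_add_eq_zero_left h1
    · rintro ((k' | k') | (k' | k')) h2 h3
      · rw [hzw (Sum.inl (Sum.inl k')) (cg k) trivial, mul_zero]
      · rw [hzw (Sum.inl (Sum.inr k')) (cg k) (fun h4 : k' = _ => h2 (by rw [h4])), mul_zero]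
      · rw [hzw (Sum.inr (Sum.inl k')) (cg k) trivial, mul_zero]
      · rw [hzw (Sum.inr (Sum.inr k')) (cg k) (fun h4 : k' = _ => h3 (by rw [h4])), mul_zero]
  have s4 : ∀ k : II a b c, V (re k) (km k.2.2) = 1 := by
    intro k
    have h1 := hd (re k) (cg k) rfl
    rw [two _ (km k.2.2) (kp k) (by simp [km, kp]) ?_, s3, hew (kp k) (cg k) rfl, mul_one,
      hev (re k) (kp k) rfl] at h1
    · rw [mul_neg, mul_one] at h1
      exact neg_add_eq_zero.mp h1
    · rintro ((k' | k') | (k' | k')) h2 h3
      · rw [hzw (Sum.inl (Sum.inl k')) (cg k) trivial, mul_zero]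
      · rw [hzw (Sum.inl (Sum.inr k')) (cg k) (fun h4 : k' = _ => h2 (by rw [h4])), mul_zero]
      · rw [hzw (Sum.inr (Sum.inl k')) (cg k) trivial, mul_zero]
      · rw [hzw (Sum.inr (Sum.inr k')) (cg k) (fun h4 : k' = _ => h3 (by rw [h4])), mul_zero]
  have s5 : ∀ (j : Fin b) (l : Fin c), W (km j) (cc l) = -(V (rf j) k0) := by
    intro j l
    have h1 := hd (rf j) (cc l) trivial
    rw [two _ (km j) k0 (by simp [km, k0]) ?_, hev (rf j) (km j) rfl, hew k0 (cc l) trivial, one_mul, mul_one] at h1
    · exact eq_neg_of_add_eq_zero_left h1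
    · rintro ((k' | k') | (k' | k')) h2 h3
      · exact absurd rfl h3
      · rw [hzv (rf j) (Sum.inl (Sum.inr k')) (fun h4 : k' = _ => h2 (by rw [h4])), zero_mul]
      · rw [hzv (rf j) (Sum.inr (Sum.inl k')) trivial, zero_mul]
      · rw [hzv (rf j) (Sum.inr (Sum.inr k')) trivial, zero_mul]
  have s6 : ∀ (k : II a b c) (l : Fin c), k.1 = l → E k → W (kp k) (cc l) = V (rf k.2.2) k0 := by
    intro k l hl hE
    have h1 := hd (re k) (cc l) ⟨hl, hE⟩
    rw [two _ (km k.2.2) (kp k) (by simp [km, kp]) ?_, s4, s5, hev (re k) (kp k) rfl, one_mul, one_mul] at h1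
    · exact (neg_add_eq_zero.mp h1).symm
    · rintro ((k' | k') | (k' | k')) h2 h3
      · rw [hzv (re k) (Sum.inl (Sum.inl k')) trivial, zero_mul]
      · rw [hzv (re k) (Sum.inl (Sum.inr k')) (fun h4 : k' = _ => h2 (by rw [h4])), zero_mul]
      · rw [hzv (re k) (Sum.inr (Sum.inl k')) trivial, zero_mul]
      · rw [hzv (re k) (Sum.inr (Sum.inr k')) (fun h4 : k' = _ => h3 (by rw [h4])), zero_mul]
  constructor
  · rintro ((i | i) | (i | i)) ((k | k) | (k | k))
    · exact hev rε _ trivial
    · exact hev rε _ trivial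
    · exact hev rε _ trivial
    · exact hev rε _ trivial
    · exact hzv rr _ trivial
    · exact hzv rr _ trivial
    · rfl
    · exact s2 k
    · rfl
    · change _ = if k = i then 1 else 0
      split_ifs with h
      · exact hev (rf i) (km k) h
      · exact hzv (rf i) (km k) h
    · exact hzv (rf i) _ trivial
    · exact hzv (rf i) _ trivial
    · exact hzv (re i) _ trivial
    · change _ = if k = i.2.2 then 1 else 0
      split_ifs with h
      · rw [h]
        exact s4 i
      · exact hzv (re i) (km k) h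
    · exact hzv (re i) _ trivial
    · change _ = if k = i then 1 else 0
      split_ifs with h
      · exact hev (re i) (kp k) h
      · exact hzv (re i) (kp k) h
  · rintro ((k | k) | (k | k)) (j | (j | j))
    · exact hew k0 (cc j) trivial
    · exact hzw k0 (cd j) trivial
    · exact hzw k0 (cg j) trivial
    · exact s5 k j
    · exact hzw (km k) (cd j) trivial
    · change _ = if k = j.2.2 then -1 else 0
      split_ifs with h
      · rw [h]
        exact s3 j
      · exact hzw (km k) (cg j) h
    · exact hzw (kx k) (cc j) trivial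
    · change _ = if k = j.2.1 then -1 else 0
      split_ifs with h
      · rw [h]
        exact s1 j
      · exact hzw (kx k) (cd j) h
    · exact hzw (kx k) (cg j) trivial
    · change _ = if k.1 = j ∧ E k then _ else 0
      split_ifs with h
      · exact s6 k j h.1 h.2
      · exact hzw (kp k) (cc j) h
    · change _ = if k = j then 1 else 0
      split_ifs with h
      · exact hew (kp k) (cd j) h
      · exact hzw (kp k) (cd j) h
    · change _ = if k = j then 1 else 0
      split_ifs with h
      · exact hew (kp k) (cg j) h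
      · exact hzw (kp k) (cg j) h

/-- the pairs of vectors with `∑ T i j l x_i y_j = 0` -/
def bilSp (T : Fin a → Fin b → Fin c → R) : Sp R (Fin a ⊕ Fin b) where
  C T' _ _ v := ∀ l, ∑ i, ∑ j, algebraMap R T' (T i j l) * v (Sum.inl i) * v (Sum.inr j) = 0
  nat φ v hv l := by
    have h := congrArg φ (hv l)
    rw [map_zero, map_sum] at h
    rw [← h]
    refine Finset.sum_congr rfl fun i _ => ?_
    rw [map_sum]
    refine Finset.sum_congr rfl fun j _ => ?_
    rw [map_mul, map_mul, AlgHom.commutes]

open MvPolynomial in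
lemma reps_bil (T : Fin a → Fin b → Fin c → R) :
    Reps (bilSp T) (MvPolynomial (Fin a ⊕ Fin b) R ⧸ Ideal.span (Set.range (bform T)))
      (fun s => Ideal.Quotient.mkₐ R _ (X s)) := by
  have hv : ∀ (T' : Type) [CommRing T'] [Algebra R T'] (v : Fin a ⊕ Fin b → T') (l : Fin c),
      aeval v (bform T l) = ∑ i, ∑ j, algebraMap R T' (T i j l) * v (Sum.inl i) * v (Sum.inr j) := by
    intro T' _ _ v l
    simp only [bform, map_sum, map_mul, aeval_C, aeval_X]
  refine ⟨fun l => ?_, ?_, ?_⟩
  · refine (hv _ (fun s => Ideal.Quotient.mkₐ R (Ideal.span (Set.range (bform T))) (X s)) l).symm.trans ?_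
    have h1 : aeval (fun s => Ideal.Quotient.mkₐ R (Ideal.span (Set.range (bform T))) (X s)) (bform T l) =
        Ideal.Quotient.mkₐ R (Ideal.span (Set.range (bform T))) (bform T l) := by
      rw [← MvPolynomial.comp_aeval_apply, aeval_X_left_apply]
    rw [h1]
    exact Ideal.Quotient.eq_zero_iff_mem.mpr (Ideal.subset_span ⟨l, rfl⟩)
  · intro T' _ _ v h
    refine ⟨Ideal.Quotient.liftₐ _ (aeval v) (fun x hx => ?_), fun s => aeval_X v s⟩
    have h1 : Ideal.span (Set.range (bform T)) ≤ RingHom.ker (aeval v : MvPolynomial (Fin a ⊕ Fin b) R →ₐ[R] T') := by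
      rw [Ideal.span_le]
      rintro _ ⟨l, rfl⟩
      change aeval v (bform T l) = 0
      rw [hv]
      exact h l
    exact h1 hx
  · intro T' _ _ φ ψ h
    apply Ideal.Quotient.algHom_ext
    apply MvPolynomial.algHom_ext
    exact h

/-- the coordinates of the pair of sparse matrices of a pair of vectors -/
noncomputable def gg {T : Type} [CommRing T] (E : II a b c → Prop) (z : Fin a ⊕ Fin b → T) :
    VWc (Rw a b c) (Kx a b c) (Cl a b c) → T :=
  Sum.elim (fun p => gV (fun i => z (Sum.inl i)) (fun j => z (Sum.inr j)) p.1 p.2)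
    (Sum.elim (fun p => gW E (fun j => z (Sum.inr j)) p.1 p.2) fun p =>
      ∑ k, gV (fun i => z (Sum.inl i)) (fun j => z (Sum.inr j)) p.1 k * gW E (fun j => z (Sum.inr j)) k p.2)

lemma gV_nat {T T' : Type} [CommRing T] [CommRing T'] (φ : T →+* T') (x : Fin a → T) (y : Fin b → T) (i : Rw a b c)
    (k : Kx a b c) : gV (fun i => φ (x i)) (fun j => φ (y j)) i k = φ (gV x y i k) := by
  rcases i with (i | i) | (i | i) <;> rcases k with (k | k) | (k | k) <;> simp [gV, apply_ite φ]

lemma gW_nat {T T' : Type} [CommRing T] [CommRing T'] (φ : T →+* T') (E : II a b c → Prop) (y : Fin b → T)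
    (k : Kx a b c) (j : Cl a b c) : gW E (fun j => φ (y j)) k j = φ (gW E y k j) := by
  rcases k with (k | k) | (k | k) <;> rcases j with j | (j | j) <;> simp [gW, apply_ite φ]

variable {sep : Prop} {P : Sch R → Prop} (hP : Bnd sep P)

include hP

/-- **Systems of bilinear equations with coefficients zero and one are good.** -/
theorem good_bil (hG : GLGood P) (T : Fin a → Fin b → Fin c → R) (hT : ∀ i j l, T i j l = 0 ∨ T i j l = 1) :
    P (bilS T) := by
  classical
  obtain ⟨E, hE⟩ : ∃ E : II a b c → Prop, ∀ i j l, (E (l, i, j) → T i j l = 1) ∧ (¬ E (l, i, j) → T i j l = 0) :=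
    ⟨fun k => T k.2.1 k.2.2 k.1 ≠ 0, fun i j l => ⟨fun h => (hT i j l).resolve_left h, fun h => not_not.mp h⟩⟩
  have h1 := good_vw (R := R) hP hG (dQ_ok E)
  have hC : ∀ (T' : Type) [CommRing T'] [Algebra R T'] (z : Fin a ⊕ Fin b → T'),
      (bilSp T).C T' z ↔ ∀ l, ∑ i, ∑ j, (if E (l, i, j) then z (Sum.inl i) * z (Sum.inr j) else 0) = 0 := by
    intro T' _ _ z
    refine forall_congr' fun l => ?_
    rw [iff_eq_eq]
    congr 1
    refine Finset.sum_congr rfl fun i _ => Finset.sum_congr rfl fun j _ => ?_
    by_cases h : E (l, i, j)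
    · rw [if_pos h, (hE i j l).1 h, map_one, one_mul]
    · rw [if_neg h, (hE i j l).2 h, map_zero, zero_mul, zero_mul]
  have h2 : Good P (bilSp T) := by
    refine h1.bij (Bij.ofFun' (fun T' _ _ z => gg E z) ?_ ?_ ?_ ?_)
    · intro T' T'' _ _ _ _ φ z
      funext x
      rcases x with x | x | x
      · exact gV_nat (φ : T' →+* T'') _ _ _ _
      · exact gW_nat (φ : T' →+* T'') _ _ _ _
      · change ∑ k, gV _ _ x.1 k * gW E _ k x.2 = φ (∑ k, gV _ _ x.1 k * gW E _ k x.2)
        rw [map_sum]
        refine Finset.sum_congr rfl fun k _ => ?_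
        rw [map_mul]
        exact congrArg₂ _ (gV_nat (φ : T' →+* T'') _ _ _ _) (gW_nat (φ : T' →+* T'') _ _ _ _)
    · intro T' _ _ z z' _ _ h
      funext x
      rcases x with i | j
      · exact congrFun h (Sum.inl (rr, kx i))
      · exact congrFun h (Sum.inl (rf j, k0))
    · intro T' _ _ z hz
      rw [hC, ← prod_iff] at hz
      refine ⟨⟨⟨fun i k h => gV_zero _ _ i k h, fun i k h => gV_one _ _ i k h⟩,
        ⟨fun i k h => gW_zero _ _ i k h, fun i k h => gW_one _ _ i k h⟩, fun i j h => hz i j h⟩,
        fun i _ j => sub_self _⟩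
    · rintro T' _ _ w ⟨⟨⟨v1, v2⟩, ⟨w1, w2⟩, d1⟩, hN⟩
      have hN' : ∀ i j, w (Sum.inr (Sum.inr (i, j))) = ∑ k, w (Sum.inl (i, k)) * w (Sum.inr (Sum.inl (k, j))) :=
        fun i j => sub_eq_zero.mp (hN i (Finset.mem_univ i) j)
      obtain ⟨s1, s2⟩ := solve E (fun i k => w (Sum.inl (i, k))) (fun k j => w (Sum.inr (Sum.inl (k, j))))
        v1 v2 w1 w2 fun i j h => (hN' i j).symm.trans (d1 i j h)
      let z : Fin a ⊕ Fin b → T' := Sum.elim (fun i => w (Sum.inl (rr, kx i))) fun j => w (Sum.inl (rf j, k0))
      have e : w = gg E z := by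
        funext x
        rcases x with ⟨i, k⟩ | ⟨k, j⟩ | ⟨i, j⟩
        · exact s1 i k
        · exact s2 k j
        · rw [hN']
          exact Finset.sum_congr rfl fun k _ => congrArg₂ _ (s1 i k) (s2 k j)
      refine ⟨z, ?_, e⟩
      rw [hC, ← prod_iff]
      intro i j h
      have h3 := d1 i j h
      rw [e] at h3
      exact h3
  exact (reps_bil T).good hP h2

end design

end Pool.Agent.P8H64.GH
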