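import Pool.Agent.P8H64.GH.Mul

/-!
# Bordered matrices; a row can be imposed to vanish
-/

set_option autoImplicit false
set_option linter.unusedVariables false
set_option linter.unusedSectionVars false

open Matrix Pool.Agent.Y116.UV Pool.Agent.Z125.UN

namespace Pool.Agent.P8H64.GH

section mat

variable {T : Type} [CommRing T] {γ : Type} [Fintype γ] [DecidableEq γ]

/-- the matrix `A` with a new column `κ`, a new row `r` and the corner `δ` -/
def bd (A : Matrix γ γ T) (κ r : γ → T) (δ : T) : Matrix (γ ⊕ Unit) (γ ⊕ Unit) T :=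
  fromBlocks A (Matrix.of fun i _ => κ i) (Matrix.of fun _ j => r j) (Matrix.of fun _ _ => δ)

lemma det_bd_row (A : Matrix γ γ T) (κ r : γ → T) (δ : T) :
    (bd A κ r δ).det = δ * A.det + (bd A κ r 0).det := by
  have h1 : bd A κ r δ = (bd A κ r 0).updateRow (Sum.inr ())
      (Sum.elim r (fun _ => (0 : T)) + Sum.elim (0 : γ → T) fun _ => δ) := by
    ext i j
    rcases i with i | i
    · rw [updateRow_ne (by simp)]
      rcases j with j | j <;> rfl
    · rw [updateRow_self]
      rcases j with j | j <;> simp [bd]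
  have h2 : (bd A κ r 0).updateRow (Sum.inr ()) (Sum.elim r fun _ => 0) = bd A κ r 0 := by
    ext i j
    rcases i with i | i
    · rw [updateRow_ne (by simp)]
    · rw [updateRow_self]
      rcases j with j | j <;> rfl
  have h3 : (bd A κ r 0).updateRow (Sum.inr ()) (Sum.elim (0 : γ → T) fun _ => δ) =
      fromBlocks A (Matrix.of fun i _ => κ i) 0 (Matrix.of fun _ _ => δ) := by
    ext i j
    rcases i with i | i
    · rw [updateRow_ne (by simp)]
      rcases j with j | j <;> rfl
    · rw [updateRow_self]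
      rcases j with j | j <;> rfl
  rw [h1, det_updateRow_add, h2, h3, det_fromBlocks_zero₂₁, add_comm]
  congr 1
  rw [det_unique (Matrix.of fun _ _ => δ : Matrix Unit Unit T), mul_comm]
  rfl

/-- the coefficient of `κ i` -/
def bc (A : Matrix γ γ T) (r : γ → T) (i : γ) : T := (bd A (Pi.single i 1) r 0).det

lemma bd_col (A : Matrix γ γ T) (κ r : γ → T) (δ : T) :
    (bd A 0 r 0).updateCol (Sum.inr ()) (Sum.elim κ fun _ => δ) = bd A κ r δ := by
  ext i j
  rcases j with j | j
  · rw [updateCol_ne (by simp)]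
    rcases i with i | i <;> rfl
  · rw [updateCol_self]
    rcases i with i | i <;> rfl

lemma det_bd_cramer (A : Matrix γ γ T) (κ r : γ → T) (δ : T) :
    (bd A κ r δ).det = cramer (bd A 0 r 0) (Sum.elim κ fun _ => δ) (Sum.inr ()) := by
  rw [cramer_apply, bd_col]

lemma det_bd_sum (A : Matrix γ γ T) (κ r : γ → T) : (bd A κ r 0).det = ∑ i, bc A r i * κ i := by
  rw [det_bd_cramer]
  have h1 : (Sum.elim κ fun _ => (0 : T) : γ ⊕ Unit → T) =
      ∑ i, κ i • Sum.elim (Pi.single i 1 : γ → T) fun _ => (0 : T) := by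
    funext x
    rcases x with x | x
    · simp [Finset.sum_apply, Pi.single_apply]
    · simp
  rw [h1, map_sum, Finset.sum_apply]
  refine Finset.sum_congr rfl fun i _ => ?_
  rw [map_smul, Pi.smul_apply, ← det_bd_cramer, smul_eq_mul, mul_comm]
  rfl

lemma bc_zero (A : Matrix γ γ T) (i : γ) : bc A 0 i = 0 := by
  unfold bc
  apply det_eq_zero_of_row_eq_zero (Sum.inr ())
  rintro (j | j) <;> rfl

lemma bc_mul (A : Matrix γ γ T) (r : γ → T) (j : γ) : ∑ i, bc A r i * A i j = -(r j * A.det) := by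
  have h1 := det_bd_sum A (fun i => A i j) r
  rw [← h1, det_bd_cramer]
  have h2 : (Sum.elim (fun i => A i j) fun _ => (0 : T) : γ ⊕ Unit → T) =
      Sum.elim (fun i => A i j) (fun _ => r j) + Sum.elim (0 : γ → T) fun _ => -(r j) := by
    funext x
    rcases x with x | x <;> simp
  rw [h2, map_add, Pi.add_apply, ← det_bd_cramer, ← det_bd_cramer]
  have h3 : (bd A (fun i => A i j) r (r j)).det = 0 := by
    apply det_zero_of_column_eq (i := Sum.inl j) (j := Sum.inr ()) (by simp)
    rintro (i | i) <;> rfl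
  have h4 : (bd A 0 r (-(r j))).det = -(r j) * A.det := by
    have h5 : bd A 0 r (-(r j)) = fromBlocks A 0 (Matrix.of fun _ j => r j) (Matrix.of fun _ _ => -(r j)) := rfl
    rw [h5, det_fromBlocks_zero₁₂, det_unique (Matrix.of fun _ _ => -(r j) : Matrix Unit Unit T), mul_comm]
    rfl
  rw [h3, h4, zero_add, neg_mul]

lemma bc_iff (A : Matrix γ γ T) (r : γ → T) (hA : IsUnit A.det) : (∀ i, bc A r i = 0) ↔ ∀ j, r j = 0 := by
  constructor
  · intro h j
    have h1 := bc_mul A r j
    rw [Finset.sum_eq_zero fun i _ => by rw [h i, zero_mul]] at h1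
    have h2 : A.det * r j = A.det * 0 := by
      rw [mul_zero, mul_comm]
      exact neg_eq_zero.mp h1.symm
    exact hA.mul_left_cancel h2
  · intro h i
    have : r = 0 := funext h
    rw [this, bc_zero]

lemma map_bd {T' : Type} [CommRing T'] (φ : T →+* T') (A : Matrix γ γ T) (κ r : γ → T) (δ : T) :
    φ (bd A κ r δ).det = (bd (A.map φ) (fun i => φ (κ i)) (fun j => φ (r j)) (φ δ)).det := by
  rw [RingHom.map_det]
  congr 1
  ext i j
  rcases i with i | i <;> rcases j with j | j <;> rfl

end mat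

variable {R : Type} [CommRing R] {σ γ : Type} [Fintype γ] [DecidableEq γ]

/-- the matrix of the values -/
def mv (M : γ → γ → Fn R σ) (T : Type) [CommRing T] [Algebra R T] (v : σ → T) : Matrix γ γ T :=
  fun i j => (M i j).val T v

lemma mv_nat (M : γ → γ → Fn R σ) {T T' : Type} [CommRing T] [Algebra R T] [CommRing T'] [Algebra R T']
    (φ : T →ₐ[R] T') (v : σ → T) : mv M T' (fun s => φ (v s)) = (mv M T v).map (φ : T →+* T') := by
  ext i j
  exact (M i j).nat φ v

/-- the determinant -/
def Fn.det (M : γ → γ → Fn R σ) : Fn R σ where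
  val T _ _ v := (mv M T v).det
  nat {T T'} _ _ _ _ φ v := by
    rw [mv_nat]
    exact ((φ : T →+* T').map_det _).symm

/-- the determinant of the bordered matrix with the corner `0`, the new column are new coordinates -/
def fB (M : γ → γ → Fn R σ) (r : γ → Fn R σ) : Fn R (σ ⊕ γ) where
  val T _ _ v := (bd (mv M T fun s => v (Sum.inl s)) (fun i => v (Sum.inr i))
    (fun j => (r j).val T fun s => v (Sum.inl s)) 0).det
  nat {T T'} _ _ _ _ φ v := by
    have h := map_bd (φ : T →+* T') (mv M T fun s => v (Sum.inl s)) (fun i => v (Sum.inr i))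
      (fun j => (r j).val _ fun s => v (Sum.inl s)) 0
    refine Eq.trans ?_ h.symm
    rw [← mv_nat M φ (fun s => v (Sum.inl s))]
    congr 2
    · funext j
      exact (r j).nat φ _
    · exact (map_zero φ).symm

/-- the determinant of the bordered matrix, the new column and the corner are new coordinates -/
def fC (M : γ → γ → Fn R σ) (r : γ → Fn R σ) : Fn R ((σ ⊕ γ) ⊕ Unit) where
  val T _ _ v := (bd (mv M T fun s => v (Sum.inl (Sum.inl s))) (fun i => v (Sum.inl (Sum.inr i)))
    (fun j => (r j).val T fun s => v (Sum.inl (Sum.inl s))) (v (Sum.inr ()))).det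
  nat {T T'} _ _ _ _ φ v := by
    have h := map_bd (φ : T →+* T') (mv M T fun s => v (Sum.inl (Sum.inl s))) (fun i => v (Sum.inl (Sum.inr i)))
      (fun j => (r j).val _ fun s => v (Sum.inl (Sum.inl s))) (v (Sum.inr ()))
    refine Eq.trans ?_ h.symm
    rw [← mv_nat M φ (fun s => v (Sum.inl (Sum.inl s)))]
    congr 2
    funext j
    exact (r j).nat φ _

/-- pull back -/
def Fn.inl {τ : Type} (h : Fn R σ) : Fn R (σ ⊕ τ) where
  val T _ _ v := h.val T fun s => v (Sum.inl s)
  nat φ v := h.nat φ _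

/-- the coefficients -/
def cf (M : γ → γ → Fn R σ) (r : γ → Fn R σ) (i : γ) : Fn R σ where
  val T _ _ v := bc (mv M T v) (fun j => (r j).val T v) i
  nat {T T'} _ _ _ _ φ v := by
    have h := map_bd (φ : T →+* T') (mv M T v) (Pi.single i 1) (fun j => (r j).val _ v) 0
    refine Eq.trans ?_ h.symm
    rw [← mv_nat M φ v]
    unfold bc
    congr 2
    · funext j
      rcases eq_or_ne j i with rfl | hj
      · simp
      · simp [hj]
    · funext j
      exact (r j).nat φ _
    · exact (map_zero φ).symm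

section lemL

variable {sep : Prop} {P : Sch R → Prop} (hP : Bnd sep P) {F : Sp R σ} (M : γ → γ → Fn R σ) (r : γ → Fn R σ)

include hP

/-- **A row can be imposed to vanish.** -/
theorem impose (ha : Good P (F.unit (Fn.det M))) (hb : Good P ((F.aff γ).unit (fB M r)))
    (hc : Good P (((F.aff γ).aff Unit).unit (fC M r))) : Good P ((F.unit (Fn.det M)).zeros r) := by
  have key : ∀ (T : Type) [CommRing T] [Algebra R T] (v : (σ ⊕ γ) ⊕ Unit → T),
      (fC M r).val T v = v (Sum.inr ()) * (Fn.det M).val T (fun s => v (Sum.inl (Sum.inl s))) +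
        (fB M r).val T (fun s => v (Sum.inl s)) := fun T _ _ v => det_bd_row _ _ _ _
  have h1 : Good P ((((F.aff γ).aff Unit).unit (fC M r)).unit (Fn.det M).inl.inl) := by
    refine (good_gm hP (good_aff hP γ ha)).bij
      { rel := fun T _ _ w v => (∀ s, w (Sum.inl s) = v (Sum.inl s)) ∧ w (Sum.inr ()) = (fC M r).val T v
        nat := fun φ w v _ _ h => ⟨fun s => congrArg φ (h.1 s), ?_⟩
        right := ?_
        left := ?_
        injr := ?_
        injl := ?_ }
    · rw [(fC M r).nat]
      exact congrArg φ h.2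
    · rintro T _ _ w ⟨⟨hw1, hw2⟩, hw3⟩
      obtain ⟨d, hd⟩ := hw2
      have e1 : (d : T) * ↑d⁻¹ = 1 := d.mul_inv
      let x : T := (w (Sum.inr ()) - (fB M r).val T fun s => w (Sum.inl s)) * ↑d⁻¹
      have e2 : (fC M r).val T (Sum.elim (fun s => w (Sum.inl s)) fun _ => x) = w (Sum.inr ()) := by
        rw [key]
        change x * (Fn.det M).val T (fun s => w (Sum.inl (Sum.inl s))) + (fB M r).val T (fun s => w (Sum.inl s)) = _
        rw [← hd, mul_assoc, mul_comm (↑d⁻¹ : T), e1, mul_one, sub_add_cancel]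
      refine ⟨Sum.elim (fun s => w (Sum.inl s)) fun _ => x, ⟨⟨hw1, ?_⟩, ⟨d, hd⟩⟩, fun _ => rfl, e2.symm⟩
      rw [e2]
      exact hw3
    · rintro T _ _ v ⟨⟨hv1, hv2⟩, hv3⟩
      exact ⟨Sum.elim (fun s => v (Sum.inl s)) fun _ => (fC M r).val T v, ⟨⟨hv1, hv3⟩, hv2⟩, fun _ => rfl, rfl⟩
    · rintro T _ _ w v v' hw hv hv' h h'
      have e1 : ∀ s, v (Sum.inl s) = v' (Sum.inl s) := fun s => (h.1 s).symm.trans (h'.1 s)
      have e2 := h.2.symm.trans h'.2
      rw [key, key, show (fun s => v (Sum.inl s)) = fun s => v' (Sum.inl s) from funext e1] at e2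
      have e3 : (fun s => v (Sum.inl (Sum.inl s))) = fun s => v' (Sum.inl (Sum.inl s)) := funext fun s => e1 _
      rw [e3] at e2
      have e4 := add_right_cancel e2
      have e5 : IsUnit ((Fn.det M).val T fun s => v' (Sum.inl (Sum.inl s))) := hv'.2
      funext s
      rcases s with s | s
      · exact e1 s
      · exact e5.mul_right_cancel e4
    · rintro T _ _ w w' v hw hw' hv h h'
      funext s
      rcases s with s | s
      · rw [h.1, h'.1]
      · exact h.2.trans h'.2.symm
  have h2 := good_zero hP _ hc h1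
  have h3 : Good P (((F.aff γ).zero (Fn.det M).inl).unit (fB M r)) := by
    apply good_of_aff hP Unit
    refine h2.congr fun T _ _ v => ?_
    constructor
    · rintro ⟨⟨hv1, hv2⟩, hv3⟩
      refine ⟨⟨hv1, hv3⟩, ?_⟩
      rw [key] at hv2
      have e : (Fn.det M).val T (fun s => v (Sum.inl (Sum.inl s))) = 0 := hv3
      rw [e, mul_zero, zero_add] at hv2
      exact hv2
    · rintro ⟨⟨hv1, hv3⟩, hv2⟩
      refine ⟨⟨hv1, ?_⟩, hv3⟩
      rw [key]
      have e : (Fn.det M).val T (fun s => v (Sum.inl (Sum.inl s))) = 0 := hv3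
      rw [e, mul_zero, zero_add]
      exact hv2
  have h4 : Good P (((F.aff γ).unit (fB M r)).unit (Fn.det M).inl) :=
    good_unit hP _ hb (h3.congr fun T _ _ v =>
      ⟨fun h => ⟨⟨h.1.1, h.2⟩, h.1.2⟩, fun h => ⟨⟨h.1.1, h.2⟩, h.1.2⟩⟩)
  have h5 : Good P ((F.unit (Fn.det M)).lin (cf M r)) := by
    refine h4.congr fun T _ _ v => ?_
    have e : (fB M r).val T v = ∑ t, (cf M r t).val T (fun s => v (Sum.inl s)) * v (Sum.inr t) :=
      det_bd_sum _ _ _
    constructor
    · rintro ⟨⟨hv1, hv2⟩, hv3⟩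
      exact ⟨⟨hv1, hv3⟩, e ▸ hv2⟩
    · rintro ⟨⟨hv1, hv3⟩, hv2⟩
      exact ⟨⟨hv1, e.symm ▸ hv2⟩, hv3⟩
  refine (good_lin hP (cf M r) ha h5).congr fun T _ _ v => ?_
  constructor
  · rintro ⟨h, h'⟩
    exact ⟨h, (bc_iff _ _ h.2).mp h'⟩
  · rintro ⟨h, h'⟩
    exact ⟨h, (bc_iff _ _ h.2).mpr h'⟩

end lemL

end Pool.Agent.P8H64.GH
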