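import Pool.Agent.P8H64.GH.Mk

/-!
# Graph hypersurfaces decide every property closed under closed-open decompositions: the list
-/

set_option autoImplicit false

open CategoryTheory AlgebraicGeometry MvPolynomial Pool.Agent.Y116.UV Pool.Agent.Z125.UN

namespace Pool.Agent.P8H64.GH

variable {R : Type} [CommRing R]

lemma smooth_aff' {A : Type} [CommRing A] [Algebra R A] (h : Algebra.Smooth R A) : Smooth (aff R A).hom := by
  change Smooth (Spec.map (CommRingCat.ofHom (algebraMap R A)))
  rw [HasRingHomProperty.Spec_iff (P := @Smooth)]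
  exact (RingHom.smooth_algebraMap (R := R) (S := A)).mpr h

lemma smooth_mv (σ : Type) [Finite σ] (f : MvPolynomial σ R) : Algebra.Smooth R (Localization.Away f) :=
  have h1 : Algebra.Smooth R (MvPolynomial σ R) := ⟨inferInstance, inferInstance⟩
  have h2 : Algebra.Smooth (MvPolynomial σ R) (Localization.Away f) := Algebra.Smooth.of_isLocalization_Away f
  Algebra.Smooth.comp R (MvPolynomial σ R) (Localization.Away f)

variable (R)

/-- `P` is true for all (separated) schemes of finite type over `R` -/
def ForAll (sep : Prop) (P : Sch R → Prop) : Prop := ∀ X : Sch R, FT sep X → P X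

/-- `P` is true for all smooth (separated) schemes over `R` -/
def ForSmooth (sep : Prop) (P : Sch R → Prop) : Prop := ∀ X : Sch R, FT sep X → Smooth X.hom → P X

/-- `P` is true for the schemes of the invertible matrices over `R` with zeros outside of `S`, for all finite
sets `S` of places -/
def ForSparse (P : Sch R → Prop) : Prop := ∀ (n : ℕ) (S : Finset (Fin n × Fin n)), P (aff R (GLRing R S))

/-- `P` is true for the complements of the graph hypersurfaces of all graphs -/
def ForCompl (P : Sch R → Prop) : Prop := ∀ (n : ℕ) (G : SimpleGraph (Fin (n + 1))), P (aff R (CRing R G))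

/-- The same for the cones over split graphs. -/
def ForConeCompl (P : Sch R → Prop) : Prop :=
  ∀ (n : ℕ) (G : SimpleGraph (Fin (n + 1))), ConeSplit G → P (aff R (CRing R G))

/-- `P` is true for the graph hypersurfaces of all graphs -/
def ForHyp (P : Sch R → Prop) : Prop := ∀ (n : ℕ) (G : SimpleGraph (Fin (n + 1))), P (aff R (HRing R G))

/-- The same for the cones over split graphs. -/
def ForConeHyp (P : Sch R → Prop) : Prop :=
  ∀ (n : ℕ) (G : SimpleGraph (Fin (n + 1))), ConeSplit G → P (aff R (HRing R G))

variable {R} {sep : Prop} {P : Sch R → Prop}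

theorem tfae_for (hB : Bnd sep P) (hS : Presents ({0, 1} : Set R)) :
    List.TFAE [ForAll R sep P, ForSmooth R sep P, ForSparse R P, ForCompl R P, ForConeCompl R P, ForHyp R P,
      ForConeHyp R P] := by
  tfae_have 1 → 2 := fun h X hX _ => h X hX
  tfae_have 2 → 3 := fun h n S => h _ (ft_aff sep) (smooth_aff' (smooth_mv _ _))
  tfae_have 2 → 4 := fun h n G => h _ (ft_aff sep) (smooth_aff' (smooth_mv _ _))
  tfae_have 4 → 5 := fun h n G _ => h n G
  tfae_have 6 → 7 := fun h n G _ => h n G
  tfae_have 1 → 6 := fun h n G => h _ (ft_aff sep)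
  tfae_have 3 → 1 := fun h => univ_gl hB hS h
  tfae_have 5 → 1 := fun h => univ_cone hB hS h
  tfae_have 7 → 1 := fun h => univ_cone_hyp hB hS h
  tfae_finish

theorem presents_zmod (p : ℕ) [Fact p.Prime] : Presents ({0, 1} : Set (ZMod p)) :=
  presents_zero_one ZMod.intCast_surjective

end Pool.Agent.P8H64.GH
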