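import Pool.Agent.Z125.UN.Sym
import Pool.Agent.Z125.UN.Grad
import Pool.Agent.Z125.UN.Dim2
import Pool.Agent.Q282.UK.Bil
import Pool.Agent.P8H64.GH.Tfae

/-!
# Trilinear forms and schemes of bounded dimension
-/

set_option autoImplicit false

open CategoryTheory AlgebraicGeometry MvPolynomial Pool.Agent.Y116.UV Pool.Agent.Z125.UN Pool.Agent.Q282.UK

namespace Pool.Agent.P8H64.GH

section

variable {R : Type} [CommRing R] {sep : Prop} {P : Sch R → Prop} (hP : Bnd sep P)

include hP

/-- systems of bilinear equations with a short block in any place -/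
theorem bil_block {m : ℕ} (h : ∀ (a b c : ℕ) (T : Fin a → Fin b → Fin c → R), (a ≤ m ∨ b ≤ m ∨ c ≤ m) →
    P (hypS T)) {a b c : ℕ} (T : Fin a → Fin b → Fin c → R) (hm : a ≤ m ∨ b ≤ m ∨ c ≤ m) : P (bilS T) := by
  have h1 : P (aff R (Hyp fun (l : Fin c) (i : Fin a) (j : Fin b) => T i j l)) :=
    h c a b (fun l i j => T i j l) (by tauto)
  rw [hyp_iff hP] at h1
  have e : (MvPolynomial (Fin a ⊕ Fin b) R ⧸ Ideal.span (Set.range (bform T))) ≃ₐ[R]
      Pc (bl fun (l : Fin c) (i : Fin a) (j : Fin b) => T i j l) 1 := by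
    have h2 : bform T = bl fun (l : Fin c) (i : Fin a) (j : Fin b) => T i j l := by
      funext l
      change _ = bil (Fin a) (Fin b) (fun i j => T i j l)
      rw [bil_apply]
      rfl
    rw [h2]
    exact oneE _
  exact iso_alg hP.toUni e.symm h1

end

section

variable {k : Type} [Field k] {sep : Prop} {P : Sch k → Prop}

variable (k)

/-- `P` is true for all (separated) schemes of finite type over `k` of dimension at most `d` -/
def DimAll (sep : Prop) (P : Sch k → Prop) (d : ℕ) : Prop :=
  ∀ X : Sch k, FT sep X → topologicalKrullDim X.left ≤ d → P X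

/-- `P` is true for all smooth (separated) schemes over `k` of dimension at most `d` -/
def DimSmooth (sep : Prop) (P : Sch k → Prop) (d : ℕ) : Prop :=
  ∀ X : Sch k, FT sep X → Smooth X.hom → topologicalKrullDim X.left ≤ d → P X

/-- `P` is true for the hypersurfaces `T(x, y, z) = 1` over `k` for all trilinear forms `T` with `m` variables `z` -/
def ForTri (P : Sch k → Prop) (m : ℕ) : Prop := ∀ (a b : ℕ) (T : Fin a → Fin b → Fin m → k), P (hypS T)

/-- `P` is true for the hypersurfaces `T(x, y, z) = 1` over `k` for all trilinear forms `T` such that one of the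
three blocks of variables has at most `m` variables -/
def ForBlock (P : Sch k → Prop) (m : ℕ) : Prop :=
  ∀ (a b c : ℕ) (T : Fin a → Fin b → Fin c → k), (a ≤ m ∨ b ≤ m ∨ c ≤ m) → P (hypS T)

/-- `P` is true for all systems `∑ T_{ijl} x_i y_j = 0`, `l = 1, ..., c`, of bilinear equations over `k` such
that there are at most `m` variables `x_i`, or at most `m` variables `y_j`, or at most `m` equations -/
def ForBil (P : Sch k → Prop) (m : ℕ) : Prop :=
  ∀ (a b c : ℕ) (T : Fin a → Fin b → Fin c → k), (a ≤ m ∨ b ≤ m ∨ c ≤ m) → P (bilS T)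

variable {k}

theorem tfae_dim [PerfectField k] (hB : Bnd sep P) (d : ℕ) :
    List.TFAE [DimAll k sep P d, DimSmooth k sep P d, ForTri k P (d + 2), ForBlock k P (d + 2)] ∧
      (DimAll k sep P d → ForBil k P (d + 2)) := by
  have h14 : DimAll k sep P d → ForBlock k P (d + 2) := by
    intro h a b c T hm
    have h2 : ∀ I : Ideal (MvPolynomial (Fin (d + 1)) k),
        P (aff k (MvPolynomial (Fin (d + 1)) k ⧸ I)) :=
      dim_to_closed hB fun A _ _ _ hA => h _ (ft_aff sep) (by rw [topDim_aff]; exact hA)
    exact of_block hB (fun a b c' hc' T => to_tri hB h2 a b c' hc' T) T hm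
  constructor
  · tfae_have 1 → 2 := fun h X hX _ hn => h X hX hn
    tfae_have 2 → 1 := fun h X hX hn => dim_smooth hB d h X hX hn
    tfae_have 1 ↔ 3 := dim_tri hB d
    tfae_have 1 → 4 := h14
    tfae_have 4 → 3 := fun h a b T => h a b _ T (Or.inr (Or.inr le_rfl))
    tfae_finish
  · intro h a b c T hm
    exact bil_block hB (m := d + 2) (h14 h) T hm

end

end Pool.Agent.P8H64.GH
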