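import Pool.Agent.P8H64.GH.Bord

/-!
# Matrices all whose extensions are good can be imposed to vanish
-/

set_option autoImplicit false
set_option linter.unusedVariables false
set_option linter.unusedSectionVars false

open Matrix Pool.Agent.Y116.UV Pool.Agent.Z125.UN

namespace Pool.Agent.P8H64.GH

variable {R : Type} [CommRing R]

/-- a bijection given by a natural map of the coordinates -/
def Bij.ofFun {σ τ : Type} {F : Sp R σ} {G : Sp R τ}
    (g : ∀ (T : Type) [CommRing T] [Algebra R T], (τ → T) → (σ → T))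
    (gnat : ∀ {T T' : Type} [CommRing T] [Algebra R T] [CommRing T'] [Algebra R T'] (φ : T →ₐ[R] T')
      (z : τ → T), g T' (fun s => φ (z s)) = fun s => φ (g T z s))
    (ginj : ∀ (T : Type) [CommRing T] [Algebra R T] (z z' : τ → T), g T z = g T z' → z = z')
    (hC : ∀ (T : Type) [CommRing T] [Algebra R T] (z : τ → T), F.C T (g T z) ↔ G.C T z)
    (hs : ∀ (T : Type) [CommRing T] [Algebra R T] (w : σ → T), F.C T w → ∃ z, w = g T z) : Bij F G where
  rel T _ _ w z := w = g T z
  nat φ w z _ _ h := by rw [gnat, h]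
  right w hw := by
    obtain ⟨z, rfl⟩ := hs _ w hw
    exact ⟨z, (hC _ z).mp hw, rfl⟩
  left z hz := ⟨g _ z, (hC _ z).mpr hz, rfl⟩
  injr w z z' _ _ _ h h' := ginj _ _ _ (h.symm.trans h')
  injl w w' z _ _ _ h h' := h.trans h'.symm

/-- the product with a torus -/
def Sp.units {σ : Type} (F : Sp R σ) (τ : Type) : Sp R (σ ⊕ τ) where
  C T _ _ v := F.C T (fun s => v (Sum.inl s)) ∧ ∀ t, IsUnit (v (Sum.inr t))
  nat φ v hv := ⟨F.nat φ _ hv.1, fun t => (hv.2 t).map φ⟩

section good

variable {sep : Prop} {P : Sch R → Prop} (hP : Bnd sep P)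

include hP

lemma good_of_units_fin {σ : Type} {F : Sp R σ} (n : ℕ) (h : Good P (F.units (Fin n))) : Good P F := by
  induction n with
  | zero =>
    refine h.bij (Bij.ofFun (fun T _ _ z => Sum.elim z fun i => i.elim0) ?_ ?_ ?_ ?_)
    · intro T T' _ _ _ _ φ z
      funext s
      rcases s with s | s
      · rfl
      · exact s.elim0
    · intro T _ _ z z' hz
      funext s
      exact congrFun hz (Sum.inl s)
    · intro T _ _ z
      exact ⟨fun h => h.1, fun h => ⟨h, fun i => i.elim0⟩⟩
    · intro T _ _ w hw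
      refine ⟨fun s => w (Sum.inl s), ?_⟩
      funext s
      rcases s with s | s
      · rfl
      · exact s.elim0
  | succ n ih =>
    apply ih
    apply good_of_gm hP
    refine h.bij (Bij.ofFun (fun T _ _ z => Sum.elim (fun s => z (Sum.inl (Sum.inl s)))
      (Fin.cons (z (Sum.inr ())) fun i => z (Sum.inl (Sum.inr i)))) ?_ ?_ ?_ ?_)
    · intro T T' _ _ _ _ φ z
      funext s
      rcases s with s | s
      · rfl
      · refine Fin.cases rfl (fun i => rfl) s
    · intro T _ _ z z' hz
      funext s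
      rcases s with (s | i) | s
      · exact congrFun hz (Sum.inl s)
      · exact congrFun hz (Sum.inr i.succ)
      · exact congrFun hz (Sum.inr 0)
    · intro T _ _ z
      constructor
      · rintro ⟨h1, h2⟩
        exact ⟨⟨h1, fun i => h2 i.succ⟩, h2 0⟩
      · rintro ⟨⟨h1, h2⟩, h3⟩
        refine ⟨h1, fun i => ?_⟩
        refine Fin.cases h3 (fun i => h2 i) i
    · intro T _ _ w hw
      refine ⟨Sum.elim (Sum.elim (fun s => w (Sum.inl s)) fun i => w (Sum.inr i.succ)) fun _ => w (Sum.inr 0), ?_⟩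
      funext s
      rcases s with s | s
      · rfl
      · exact Fin.cases rfl (fun i => rfl) s

lemma good_of_units {σ : Type} {F : Sp R σ} (τ : Type) [Fintype τ] (h : Good P (F.units τ)) : Good P F := by
  let e := Fintype.equivFin τ
  apply good_of_units_fin hP (Fintype.card τ)
  refine h.bij (Bij.ofFun (fun T _ _ z => Sum.elim (fun s => z (Sum.inl s)) fun t => z (Sum.inr (e t))) ?_ ?_ ?_ ?_)
  · intro T T' _ _ _ _ φ z
    funext s
    rcases s with s | s <;> rfl
  · intro T _ _ z z' hz
    funext s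
    rcases s with s | i
    · exact congrFun hz (Sum.inl s)
    · have h1 := congrFun hz (Sum.inr (e.symm i))
      change z (Sum.inr (e (e.symm i))) = z' (Sum.inr (e (e.symm i))) at h1
      rwa [e.apply_symm_apply] at h1
  · intro T _ _ z
    constructor
    · rintro ⟨h1, h2⟩
      refine ⟨h1, fun i => ?_⟩
      have h3 := h2 (e.symm i)
      change IsUnit (z (Sum.inr (e (e.symm i)))) at h3
      rwa [e.apply_symm_apply] at h3
    · rintro ⟨h1, h2⟩
      exact ⟨h1, fun t => h2 (e t)⟩
  · intro T _ _ w hw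
    refine ⟨Sum.elim (fun s => w (Sum.inl s)) fun i => w (Sum.inr (e.symm i)), ?_⟩
    funext s
    rcases s with s | t
    · rfl
    · change w (Sum.inr t) = w (Sum.inr (e.symm (e t)))
      rw [e.symm_apply_apply]

end good

section ext

variable {σ s t : Type} [Fintype s] [DecidableEq s] [Fintype t] [DecidableEq t] (F : Sp R σ)
  (N : s → t → Fn R σ)

/-- the rows of `J` vanish -/
def rowsZero (J : Finset s) : Sp R σ where
  C T _ _ v := F.C T v ∧ ∀ i ∈ J, ∀ j, (N i j).val T v = 0
  nat φ v hv := ⟨F.nat φ v hv.1, fun i hi j => by rw [(N i j).nat, hv.2 i hi j, map_zero]⟩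

/-- the entry of the matrix `N` with the labels of the row and the column -/
def nent (l : Option s) (c : Option t) : Fn R σ where
  val T _ _ v := match l, c with
    | some i, some j => (N i j).val T v
    | _, _ => 0
  nat φ v := by
    rcases l with _ | i
    · exact (map_zero φ).symm
    · rcases c with _ | j
      · exact (map_zero φ).symm
      · exact (N i j).nat φ v

lemma nent_some (i : s) (j : t) (T : Type) [CommRing T] [Algebra R T] (v : σ → T) :
    (nent N (some i) (some j)).val T v = (N i j).val T v := rfl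

lemma nent_none_left (c : Option t) (T : Type) [CommRing T] [Algebra R T] (v : σ → T) :
    (nent N none c).val T v = 0 := rfl

lemma nent_none_right (l : Option s) (T : Type) [CommRing T] [Algebra R T] (v : σ → T) :
    (nent N l none).val T v = 0 := by
  cases l <;> rfl

/-- labels for the rows and the columns, and the places of the new variables -/
structure Lab (s t γ : Type) where
  lab : γ → Option s
  cl : γ → Option t
  Pt : γ → γ → Prop

/-- conditions for the labels: the rows outside `J` and all columns of `N` occur once -/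
structure Lab.Ok {s t γ : Type} (L : Lab s t γ) (J : Finset s) : Prop where
  inj : ∀ ρ ρ' i, L.lab ρ = some i → L.lab ρ' = some i → ρ = ρ'
  cov : ∀ i, i ∉ J → ∃ ρ, L.lab ρ = some i
  notin : ∀ ρ i, L.lab ρ = some i → i ∉ J
  cinj : ∀ κ κ' j, L.cl κ = some j → L.cl κ' = some j → κ = κ'
  ccov : ∀ j, ∃ κ, L.cl κ = some j
  free : ∀ ρ κ, L.Pt ρ κ → L.lab ρ = none ∨ L.cl κ = none

/-- an entry of the extended matrix -/
def eM {γ : Type} (L : Lab s t γ) (ρ κ : γ) : Fn R (σ ⊕ γ × γ) where
  val T _ _ v := (nent N (L.lab ρ) (L.cl κ)).val T (fun s => v (Sum.inl s)) + v (Sum.inr (ρ, κ))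
  nat φ v := by
    rw [map_add]
    congr 1
    exact (nent N (L.lab ρ) (L.cl κ)).nat φ _

/-- the space of the pairs of a point and the new variables -/
def baseSp {γ : Type} (L : Lab s t γ) : Sp R (σ ⊕ γ × γ) where
  C T _ _ v := F.C T (fun s => v (Sum.inl s)) ∧ ∀ ρ κ, ¬ L.Pt ρ κ → v (Sum.inr (ρ, κ)) = 0
  nat φ v hv := ⟨F.nat φ _ hv.1, fun ρ κ h => (congrArg φ (hv.2 ρ κ h)).trans (map_zero φ)⟩

/-- the space of the invertible extended matrices -/
def extSp {γ : Type} [Fintype γ] [DecidableEq γ] (L : Lab s t γ) : Sp R (σ ⊕ γ × γ) :=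
  (baseSp F L).unit (Fn.det (eM N L))

/-- all extensions of `N` are good, outside of the rows of `J`, which are imposed to vanish -/
def ExtGood (P : Sch R → Prop) (J : Finset s) : Prop :=
  ∀ (γ : Type) [Fintype γ] [DecidableEq γ] (L : Lab s t γ), L.Ok J → Good P (extSp (rowsZero F N J) N L)

/-- the new row `i` and a new column, with free entries in the new column if `a`, and a free corner if `b` -/
def Lab.add {γ : Type} (L : Lab s t γ) (i : s) (a b : Prop) : Lab s t (γ ⊕ Unit) where
  lab := Sum.elim L.lab fun _ => some i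
  cl := Sum.elim L.cl fun _ => none
  Pt := Sum.elim (fun ρ => Sum.elim (L.Pt ρ) fun _ => a) fun _ => Sum.elim (fun _ => False) fun _ => b

lemma Lab.Ok.add {γ : Type} {L : Lab s t γ} {J : Finset s} {i : s} (h : L.Ok (insert i J)) (hi : i ∉ J) (a b : Prop) :
    (L.add i a b).Ok J where
  inj := by
    rintro (ρ | ρ) (ρ' | ρ') j h1 h2
    · rw [h.inj ρ ρ' j h1 h2]
    · have h3 := h.notin ρ j h1
      have h4 : i = j := Option.some.inj h2
      exact absurd (by rw [← h4]; exact Finset.mem_insert_self _ _) h3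
    · have h3 := h.notin ρ' j h2
      have h4 : i = j := Option.some.inj h1
      exact absurd (by rw [← h4]; exact Finset.mem_insert_self _ _) h3
    · rfl
  cov j hj := by
    by_cases hji : j = i
    · exact ⟨Sum.inr (), by rw [hji]; rfl⟩
    · obtain ⟨ρ, hρ⟩ := h.cov j (by
        rw [Finset.mem_insert, not_or]
        exact ⟨hji, hj⟩)
      exact ⟨Sum.inl ρ, hρ⟩
  notin := by
    rintro (ρ | ρ) j h1
    · exact fun h2 => h.notin ρ j h1 (Finset.mem_insert_of_mem h2)
    · have h4 : i = j := Option.some.inj h1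
      rw [← h4]
      exact hi
  cinj := by
    rintro (κ | κ) (κ' | κ') j h1 h2
    · rw [h.cinj κ κ' j h1 h2]
    · exact absurd h2 (by simp [Lab.add])
    · exact absurd h1 (by simp [Lab.add])
    · rfl
  ccov j := by
    obtain ⟨κ, hκ⟩ := h.ccov j
    exact ⟨Sum.inl κ, hκ⟩
  free := by
    rintro (ρ | ρ) (κ | κ) h1
    · exact h.free ρ κ h1
    · exact Or.inr rfl
    · exact absurd h1 (by simp [Lab.add])
    · exact Or.inr rfl

/-- coordinates of the extension -/
def glue {γ T : Type} [Zero T] (a : σ ⊕ γ × γ → T) (κ : γ → T) (δ : T) :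
    σ ⊕ (γ ⊕ Unit) × (γ ⊕ Unit) → T :=
  Sum.elim (fun s => a (Sum.inl s)) fun p => match p with
    | (Sum.inl ρ, Sum.inl κ') => a (Sum.inr (ρ, κ'))
    | (Sum.inl ρ, Sum.inr _) => κ ρ
    | (Sum.inr _, Sum.inl _) => 0
    | (Sum.inr _, Sum.inr _) => δ

/-- the new row -/
def newRow {γ : Type} (L : Lab s t γ) (i : s) (κ : γ) : Fn R (σ ⊕ γ × γ) := (nent N (some i) (L.cl κ)).inl

lemma mv_glue {γ : Type} [Fintype γ] [DecidableEq γ] (L : Lab s t γ) (i : s) (p q : Prop) {T : Type} [CommRing T]
    [Algebra R T] (a : σ ⊕ γ × γ → T) (κ : γ → T) (δ : T) :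
    mv (eM N (L.add i p q)) T (glue a κ δ) =
      bd (mv (eM N L) T a) κ (fun j => (newRow N L i j).val T a) δ := by
  ext x y
  rcases x with x | x
  · rcases y with y | y
    · rfl
    · change (nent N (L.lab x) none).val T _ + κ x = κ x
      rw [nent_none_right, zero_add]
  · rcases y with y | y
    · change (nent N (some i) (L.cl y)).val T _ + 0 = _
      rw [add_zero]
      rfl
    · change (nent N (some i) none).val T _ + δ = δ
      rw [nent_none_right, zero_add]

lemma glue_mem {γ : Type} [Fintype γ] [DecidableEq γ] (L : Lab s t γ) (i : s) (p q : Prop) {T : Type} [CommRing T]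
    [Algebra R T] (a : σ ⊕ γ × γ → T) (κ : γ → T) (δ : T) :
    (extSp F N (L.add i p q)).C T (glue a κ δ) ↔ (baseSp F L).C T a ∧ (p ∨ κ = 0) ∧ (q ∨ δ = 0) ∧
      IsUnit (bd (mv (eM N L) T a) κ (fun j => (newRow N L i j).val T a) δ).det := by
  rw [← mv_glue N L i p q]
  constructor
  · rintro ⟨⟨h1, h2⟩, h3⟩
    refine ⟨⟨h1, fun ρ κ' h => h2 (Sum.inl ρ) (Sum.inl κ') h⟩, ?_, ?_, h3⟩
    · by_cases hp : p
      · exact Or.inl hp
      · exact Or.inr (funext fun ρ => h2 (Sum.inl ρ) (Sum.inr ()) hp)
    · by_cases hq : q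
      · exact Or.inl hq
      · exact Or.inr (h2 (Sum.inr ()) (Sum.inr ()) hq)
  · rintro ⟨⟨h1, h2⟩, h3, h4, h5⟩
    refine ⟨⟨h1, ?_⟩, h5⟩
    rintro (ρ | ρ) (κ' | κ') h
    · exact h2 ρ κ' h
    · rcases h3 with h3 | h3
      · exact absurd h3 h
      · rw [h3]
        rfl
    · rfl
    · rcases h4 with h4 | h4
      · exact absurd h4 h
      · exact h4

lemma eq_glue {γ : Type} [Fintype γ] [DecidableEq γ] (L : Lab s t γ) (i : s) (p q : Prop) {T : Type} [CommRing T]
    [Algebra R T] (w : σ ⊕ (γ ⊕ Unit) × (γ ⊕ Unit) → T) (hw : (extSp F N (L.add i p q)).C T w) :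
    w = glue (Sum.elim (fun s => w (Sum.inl s)) fun x => w (Sum.inr (Sum.inl x.1, Sum.inl x.2)))
      (fun ρ => w (Sum.inr (Sum.inl ρ, Sum.inr ()))) (w (Sum.inr (Sum.inr (), Sum.inr ()))) := by
  funext x
  rcases x with x | ⟨ρ | ρ, κ | κ⟩
  · rfl
  · rfl
  · rfl
  · exact hw.1.2 (Sum.inr ρ) (Sum.inl κ) (by simp [Lab.add])
  · rfl

lemma glue_nat {γ : Type} {T T' : Type} [CommRing T] [Algebra R T] [CommRing T'] [Algebra R T'] (φ : T →ₐ[R] T')
    (a : σ ⊕ γ × γ → T) (κ : γ → T) (δ : T) :
    glue (fun x => φ (a x)) (fun x => φ (κ x)) (φ δ) = fun x => φ (glue a κ δ x) := by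
  funext x
  rcases x with x | ⟨ρ | ρ, κ | κ⟩
  · rfl
  · rfl
  · rfl
  · exact (map_zero φ).symm
  · rfl

lemma glue_inj {γ : Type} {T : Type} [CommRing T] {a a' : σ ⊕ γ × γ → T} {κ κ' : γ → T} {δ δ' : T}
    (h : glue a κ δ = glue a' κ' δ') : a = a' ∧ κ = κ' ∧ δ = δ' := by
  refine ⟨?_, ?_, ?_⟩
  · funext x
    rcases x with x | ⟨ρ, κ⟩
    · exact congrFun h (Sum.inl x)
    · exact congrFun h (Sum.inr (Sum.inl ρ, Sum.inl κ))
  · funext ρ
    exact congrFun h (Sum.inr (Sum.inl ρ, Sum.inr ()))
  · exact congrFun h (Sum.inr (Sum.inr (), Sum.inr ()))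

section main

variable {sep : Prop} {P : Sch R → Prop} (hP : Bnd sep P)

include hP

/-- the step: one more row is imposed to vanish -/
lemma extGood_insert {J : Finset s} {i : s} (hi : i ∉ J) (h : ExtGood F N P J) : ExtGood F N P (insert i J) := by
  intro γ _ _ L hL
  have h0 := fun a b => h (γ ⊕ Unit) (L.add i a b) (hL.add hi a b)
  have ha : Good P ((baseSp (rowsZero F N J) L).unit (Fn.det (eM N L))) := by
    apply good_of_gm hP
    refine (h0 False True).bij (Bij.ofFun (fun T _ _ z => glue (fun s => z (Sum.inl s)) 0 (z (Sum.inr ()))) ?_ ?_ ?_ ?_)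
    · intro T T' _ _ _ _ φ z
      rw [← glue_nat]
      congr 1
      funext x
      exact (map_zero φ).symm
    · intro T _ _ z z' hz
      obtain ⟨h1, h2, h3⟩ := glue_inj hz
      funext x
      rcases x with x | x
      · exact congrFun h1 x
      · exact h3
    · intro T _ _ z
      rw [glue_mem]
      have e : (bd (mv (eM N L) T fun s => z (Sum.inl s)) 0
          (fun j => (newRow N L i j).val T fun s => z (Sum.inl s)) (z (Sum.inr ()))).det =
          z (Sum.inr ()) * (mv (eM N L) T fun s => z (Sum.inl s)).det := by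
        rw [det_bd_row, det_bd_sum]
        simp
      rw [e, IsUnit.mul_iff]
      constructor
      · rintro ⟨h1, -, -, h2, h3⟩
        exact ⟨⟨h1, h3⟩, h2⟩
      · rintro ⟨⟨h1, h3⟩, h2⟩
        exact ⟨h1, Or.inr rfl, Or.inl trivial, h2, h3⟩
    · intro T _ _ w hw
      have h1 := eq_glue (rowsZero F N J) N L i False True w hw
      have h2 : (fun ρ => w (Sum.inr (Sum.inl ρ, Sum.inr ()))) = 0 :=
        funext fun ρ => hw.1.2 (Sum.inl ρ) (Sum.inr ()) (by simp [Lab.add])
      rw [h2] at h1
      exact ⟨Sum.elim (Sum.elim (fun s => w (Sum.inl s)) fun x => w (Sum.inr (Sum.inl x.1, Sum.inl x.2)))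
        fun _ => w (Sum.inr (Sum.inr (), Sum.inr ())), h1⟩
  have hb : Good P (((baseSp (rowsZero F N J) L).aff γ).unit (fB (eM N L) (newRow N L i))) := by
    refine (h0 True False).bij (Bij.ofFun (fun T _ _ z => glue (fun s => z (Sum.inl s))
      (fun s => z (Sum.inr s)) 0) ?_ ?_ ?_ ?_)
    · intro T T' _ _ _ _ φ z
      rw [← glue_nat, map_zero]
    · intro T _ _ z z' hz
      obtain ⟨h1, h2, h3⟩ := glue_inj hz
      funext x
      rcases x with x | x
      · exact congrFun h1 x
      · exact congrFun h2 x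
    · intro T _ _ z
      rw [glue_mem]
      constructor
      · rintro ⟨h1, -, -, h2⟩
        exact ⟨h1, h2⟩
      · rintro ⟨h1, h2⟩
        exact ⟨h1, Or.inl trivial, Or.inr rfl, h2⟩
    · intro T _ _ w hw
      have h1 := eq_glue (rowsZero F N J) N L i True False w hw
      have h2 : w (Sum.inr (Sum.inr (), Sum.inr ())) = 0 := hw.1.2 (Sum.inr ()) (Sum.inr ()) (by simp [Lab.add])
      rw [h2] at h1
      exact ⟨Sum.elim (Sum.elim (fun s => w (Sum.inl s)) fun x => w (Sum.inr (Sum.inl x.1, Sum.inl x.2)))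
        fun ρ => w (Sum.inr (Sum.inl ρ, Sum.inr ())), h1⟩
  have hc : Good P ((((baseSp (rowsZero F N J) L).aff γ).aff Unit).unit (fC (eM N L) (newRow N L i))) := by
    refine (h0 True True).bij (Bij.ofFun (fun T _ _ z => glue (fun s => z (Sum.inl (Sum.inl s)))
      (fun s => z (Sum.inl (Sum.inr s))) (z (Sum.inr ()))) ?_ ?_ ?_ ?_)
    · intro T T' _ _ _ _ φ z
      rw [← glue_nat]
    · intro T _ _ z z' hz
      obtain ⟨h1, h2, h3⟩ := glue_inj hz
      funext x
      rcases x with (x | x) | x
      · exact congrFun h1 x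
      · exact congrFun h2 x
      · exact h3
    · intro T _ _ z
      rw [glue_mem]
      constructor
      · rintro ⟨h1, -, -, h2⟩
        exact ⟨h1, h2⟩
      · rintro ⟨h1, h2⟩
        exact ⟨h1, Or.inl trivial, Or.inl trivial, h2⟩
    · intro T _ _ w hw
      have h1 := eq_glue (rowsZero F N J) N L i True True w hw
      exact ⟨Sum.elim (Sum.elim (Sum.elim (fun s => w (Sum.inl s)) fun x => w (Sum.inr (Sum.inl x.1, Sum.inl x.2)))
        fun ρ => w (Sum.inr (Sum.inl ρ, Sum.inr ()))) fun _ => w (Sum.inr (Sum.inr (), Sum.inr ())), h1⟩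
  refine (impose hP (eM N L) (newRow N L i) ha hb hc).congr fun T _ _ v => ?_
  constructor
  · rintro ⟨⟨⟨⟨h1, h2⟩, h3⟩, h4⟩, h5⟩
    refine ⟨⟨⟨h1, fun i' hi' j => ?_⟩, h3⟩, h4⟩
    rcases Finset.mem_insert.mp hi' with rfl | hi'
    · obtain ⟨κ, hκ⟩ := hL.ccov j
      have h6 : (nent N (some i') (L.cl κ)).val T (fun s => v (Sum.inl s)) = 0 := h5 κ
      rw [hκ] at h6
      exact h6
    · exact h2 i' hi' j
  · rintro ⟨⟨⟨h1, h2⟩, h3⟩, h4⟩
    refine ⟨⟨⟨⟨h1, fun i' hi' j => h2 i' (Finset.mem_insert_of_mem hi') j⟩, h3⟩, h4⟩, fun κ => ?_⟩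
    change (nent N (some i) (L.cl κ)).val T _ = 0
    rcases hκ : L.cl κ with _ | j
    · rw [nent_none_right]
    · exact h2 i (Finset.mem_insert_self _ _) j

/-- **If all extensions of `N` are good, so is the space where `N` vanishes.** -/
theorem good_vanish (h : ExtGood F N P ∅) : Good P (rowsZero F N Finset.univ) := by
  have h1 : ∀ J : Finset s, ExtGood F N P J := by
    intro J
    induction J using Finset.induction_on with
    | empty => exact h
    | insert i J hi ih => exact extGood_insert F N hP hi ih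
  let L : Lab s t t := ⟨fun _ => none, fun j => some j, fun i j => i = j⟩
  have hL : L.Ok Finset.univ :=
    { inj := fun ρ ρ' i h => by simp [L] at h
      cov := fun i hi => absurd (Finset.mem_univ i) hi
      notin := fun ρ i h => by simp [L] at h
      cinj := fun κ κ' j h h' => by
        have e1 : κ = j := Option.some.inj h
        have e2 : κ' = j := Option.some.inj h'
        rw [e1, e2]
      ccov := fun j => ⟨j, rfl⟩
      free := fun ρ κ _ => Or.inl rfl }
  have h2 := h1 Finset.univ t L hL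
  apply good_of_units hP t
  refine h2.bij (Bij.ofFun (fun T _ _ z => Sum.elim (fun s => z (Sum.inl s))
    fun x => if x.1 = x.2 then z (Sum.inr x.1) else 0) ?_ ?_ ?_ ?_)
  · intro T T' _ _ _ _ φ z
    funext x
    rcases x with x | x
    · rfl
    · change (if x.1 = x.2 then _ else _) = φ (if x.1 = x.2 then _ else _)
      split_ifs
      · rfl
      · exact (map_zero φ).symm
  · intro T _ _ z z' hz
    funext x
    rcases x with x | x
    · exact congrFun hz (Sum.inl x)
    · have h3 := congrFun hz (Sum.inr (x, x))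
      change (if x = x then _ else _) = (if x = x then _ else _) at h3
      rwa [if_pos rfl, if_pos rfl] at h3
  · intro T _ _ z
    have e : mv (eM N L) T (Sum.elim (fun s => z (Sum.inl s))
        fun x => if x.1 = x.2 then z (Sum.inr x.1) else 0) = Matrix.diagonal fun j => z (Sum.inr j) := by
      ext i j
      change (nent N none (some j)).val T _ + (if i = j then z (Sum.inr i) else 0) = _
      rw [nent_none_left, zero_add, Matrix.diagonal_apply]
    constructor
    · rintro ⟨⟨h3, h4⟩, h5⟩
      refine ⟨h3, ?_⟩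
      change IsUnit (mv (eM N L) T _).det at h5
      rw [e, Matrix.det_diagonal] at h5
      exact fun t => (IsUnit.prod_univ_iff.mp h5) t
    · rintro ⟨h3, h4⟩
      refine ⟨⟨h3, fun ρ κ hκ => ?_⟩, ?_⟩
      · exact if_neg hκ
      · change IsUnit (mv (eM N L) T _).det
        rw [e, Matrix.det_diagonal]
        exact IsUnit.prod_univ_iff.mpr h4
  · intro T _ _ w hw
    refine ⟨Sum.elim (fun s => w (Sum.inl s)) fun j => w (Sum.inr (j, j)), ?_⟩
    funext x
    rcases x with x | ⟨i, j⟩
    · rfl
    · change w (Sum.inr (i, j)) = if i = j then w (Sum.inr (i, i)) else 0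
      split_ifs with hij
      · rw [hij]
      · exact hw.1.2 i j hij

end main

end ext

end Pool.Agent.P8H64.GH
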