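import Pool.Agent.P8H64.GH.Ext

/-!
# Invertible matrices with prescribed zeros, and with ones on a forest
-/

set_option autoImplicit false
set_option linter.unusedVariables false
set_option linter.unusedSectionVars false

open Matrix Pool.Agent.Y116.UV Pool.Agent.Z125.UN

namespace Pool.Agent.P8H64.GH

variable {R : Type} [CommRing R]

/-- a bijection given by a natural map of the coordinates, injective on the points -/
def Bij.ofFun' {σ τ : Type} {F : Sp R σ} {G : Sp R τ}
    (g : ∀ (T : Type) [CommRing T] [Algebra R T], (τ → T) → (σ → T))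
    (gnat : ∀ {T T' : Type} [CommRing T] [Algebra R T] [CommRing T'] [Algebra R T'] (φ : T →ₐ[R] T')
      (z : τ → T), g T' (fun s => φ (z s)) = fun s => φ (g T z s))
    (ginj : ∀ (T : Type) [CommRing T] [Algebra R T] (z z' : τ → T), G.C T z → G.C T z' → g T z = g T z' → z = z')
    (hC : ∀ (T : Type) [CommRing T] [Algebra R T] (z : τ → T), G.C T z → F.C T (g T z))
    (hs : ∀ (T : Type) [CommRing T] [Algebra R T] (w : σ → T), F.C T w → ∃ z, G.C T z ∧ w = g T z) : Bij F G where
  rel T _ _ w z := w = g T z
  nat φ w z _ _ h := by rw [gnat, h]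
  right w hw := hs _ w hw
  left z hz := ⟨g _ z, hC _ z hz, rfl⟩
  injr w z z' _ hz hz' h h' := ginj _ _ _ hz hz' (h.symm.trans h')
  injl w w' z _ _ _ h h' := h.trans h'.symm

section pat

variable {γ : Type} [Fintype γ] [DecidableEq γ]

/-- the matrix of the coordinates -/
def cM (T : Type) (v : γ × γ → T) : Matrix γ γ T := Matrix.of fun i j => v (i, j)

lemma cM_apply (T : Type) (v : γ × γ → T) (i j : γ) : cM T v i j = v (i, j) := rfl

lemma cM_map {T T' : Type} [CommRing T] [CommRing T'] (φ : T →+* T') (v : γ × γ → T) :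
    (cM T' fun x => φ (v x)).det = φ (cM T v).det := by
  rw [RingHom.map_det]
  rfl

/-- the invertible matrices with zeros at the places of `Z` and ones at the places of `E` -/
def patSp (Z : γ → γ → Prop) (E : Finset (γ × γ)) : Sp R (γ × γ) where
  C T _ _ v := (∀ i j, Z i j → v (i, j) = 0) ∧ (∀ x ∈ E, v x = 1) ∧ IsUnit (cM T v).det
  nat {T T'} _ _ _ _ φ v hv := ⟨fun i j h => (congrArg φ (hv.1 i j h)).trans (map_zero φ),
    fun x h => (congrArg φ (hv.2.1 x h)).trans (map_one φ), by
      have h := hv.2.2.map (φ : T →+* T')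
      rw [← cM_map] at h
      exact h⟩

/-- the property is true for the invertible matrices with prescribed zeros -/
def GLGood (P : Sch R → Prop) : Prop :=
  ∀ (γ : Type) [Fintype γ] [DecidableEq γ] (Z : γ → γ → Prop), Good P (patSp (R := R) Z ∅)

/-- sets of places that can be built by adding places in new rows or in new columns (forests) -/
inductive Leafy : Finset (γ × γ) → Prop
  | empty : Leafy ∅
  | row (E : Finset (γ × γ)) (i j : γ) : Leafy E → (∀ k, (i, k) ∉ E) → Leafy (insert (i, j) E)
  | col (E : Finset (γ × γ)) (i j : γ) : Leafy E → (∀ k, (k, j) ∉ E) → Leafy (insert (i, j) E)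

lemma det_scale_row (T : Type) [CommRing T] (x : γ × γ → T) (i : γ) (t : T) :
    (cM T fun p => if p.1 = i then t * x p else x p).det = t * (cM T x).det := by
  have h : (cM T fun p => if p.1 = i then t * x p else x p) =
      Matrix.diagonal (fun a => if a = i then t else 1) * cM T x := by
    ext a b
    rw [Matrix.diagonal_mul, cM_apply, cM_apply]
    by_cases h : a = i
    · simp [h]
    · simp [h]
  rw [h, Matrix.det_mul, Matrix.det_diagonal]
  congr 1
  rw [Finset.prod_ite_eq']
  simp

lemma det_scale_col (T : Type) [CommRing T] (x : γ × γ → T) (j : γ) (t : T) :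
    (cM T fun p => if p.2 = j then t * x p else x p).det = t * (cM T x).det := by
  have h : (cM T fun p => if p.2 = j then t * x p else x p) =
      cM T x * Matrix.diagonal (fun a => if a = j then t else 1) := by
    ext a b
    rw [Matrix.mul_diagonal, cM_apply, cM_apply]
    by_cases h : b = j
    · simp [h, mul_comm]
    · simp [h]
  rw [h, Matrix.det_mul, Matrix.det_diagonal, mul_comm]
  congr 1
  rw [Finset.prod_ite_eq']
  simp

variable {sep : Prop} {P : Sch R → Prop} (hP : Bnd sep P)

include hP

lemma good_one_unit {Z : γ → γ → Prop} {E : Finset (γ × γ)} {i j : γ}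
    (h : ∀ Z' : γ → γ → Prop, (∀ x ∈ E, ¬ Z' x.1 x.2) → Good P (patSp (R := R) Z' E))
    (hE : (i, j) ∉ E) (hZ : ∀ x ∈ insert (i, j) E, ¬ Z x.1 x.2) :
    Good P ((patSp (R := R) Z E).unit (Fn.co (i, j))) := by
  refine good_unit hP _ (h Z fun x hx => hZ x (Finset.mem_insert_of_mem hx)) ?_
  refine (h (fun a b => Z a b ∨ (a, b) = (i, j)) ?_).congr fun T _ _ v => ?_
  · rintro x hx (h1 | h1)
    · exact hZ x (Finset.mem_insert_of_mem hx) h1
    · apply hE
      rw [← h1]
      exact hx
  · constructor
    · rintro ⟨h1, h2, h3⟩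
      exact ⟨⟨fun a b hab => h1 a b (Or.inl hab), h2, h3⟩, h1 i j (Or.inr rfl)⟩
    · rintro ⟨⟨h1, h2, h3⟩, h4⟩
      refine ⟨?_, h2, h3⟩
      rintro a b (hab | hab)
      · exact h1 a b hab
      · rw [hab]
        exact h4

/-- **Ones on a forest.** -/
theorem good_pat (hG : ∀ Z : γ → γ → Prop, Good P (patSp (R := R) Z ∅)) {E : Finset (γ × γ)} (hE : Leafy E) :
    ∀ Z : γ → γ → Prop, (∀ x ∈ E, ¬ Z x.1 x.2) → Good P (patSp (R := R) Z E) := by
  induction hE with
  | empty => exact fun Z _ => hG Z
  | row E i j _ hi ih =>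
    intro Z hZ
    have h1 := good_one_unit hP ih (hi j) hZ
    apply good_of_gm hP
    refine h1.bij (Bij.ofFun' (fun T _ _ z => fun p => if p.1 = i then z (Sum.inr ()) * z (Sum.inl p) else z (Sum.inl p))
      ?_ ?_ ?_ ?_)
    · intro T T' _ _ _ _ φ z
      funext p
      change (if p.1 = i then φ _ * φ _ else φ _) = φ (if p.1 = i then _ else _)
      split_ifs
      · rw [map_mul]
      · rfl
    · rintro T _ _ z z' ⟨hz1, hz2⟩ ⟨hz1', hz2'⟩ hzz
      have e1 : z (Sum.inr ()) = z' (Sum.inr ()) := by
        have h2 := congrFun hzz (i, j)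
        change (if i = i then _ else _) = (if i = i then _ else _) at h2
        rw [if_pos rfl, if_pos rfl] at h2
        have h3 : z (Sum.inl (i, j)) = 1 := hz1.2.1 (i, j) (Finset.mem_insert_self _ _)
        have h4 : z' (Sum.inl (i, j)) = 1 := hz1'.2.1 (i, j) (Finset.mem_insert_self _ _)
        rwa [h3, h4, mul_one, mul_one] at h2
      funext p
      rcases p with p | p
      · have h2 := congrFun hzz p
        change (if p.1 = i then _ else _) = (if p.1 = i then _ else _) at h2
        split_ifs at h2 with hp
        · rw [e1] at h2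
          exact hz2'.mul_left_cancel h2
        · exact h2
      · exact e1
    · rintro T _ _ z ⟨⟨h2, h3, h4⟩, h5⟩
      refine ⟨⟨?_, ?_, ?_⟩, ?_⟩
      · intro a b hab
        have h6 : z (Sum.inl (a, b)) = 0 := h2 a b hab
        change (if a = i then z (Sum.inr ()) * z (Sum.inl (a, b)) else z (Sum.inl (a, b))) = 0
        rw [h6, mul_zero, ite_self]
      · intro x hx
        have h6 : ¬ x.1 = i := by
          rintro rfl
          exact hi x.2 hx
        change (if x.1 = i then z (Sum.inr ()) * z (Sum.inl x) else z (Sum.inl x)) = 1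
        rw [if_neg h6]
        exact h3 x (Finset.mem_insert_of_mem hx)
      · have h6 := det_scale_row T (fun p => z (Sum.inl p)) i (z (Sum.inr ()))
        rw [h6]
        exact h5.mul h4
      · change IsUnit (if i = i then z (Sum.inr ()) * z (Sum.inl (i, j)) else z (Sum.inl (i, j)))
        rw [if_pos rfl, show z (Sum.inl (i, j)) = 1 from h3 (i, j) (Finset.mem_insert_self _ _), mul_one]
        exact h5
    · rintro T _ _ w ⟨⟨h2, h3, h4⟩, h5⟩
      obtain ⟨u, hu⟩ := h5
      have hu' : (u : T) = w (i, j) := hu
      let x : γ × γ → T := fun p => if p.1 = i then ↑u⁻¹ * w p else w p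
      have e1 : w = fun p => if p.1 = i then ↑u * x p else x p := by
        funext p
        by_cases hp : p.1 = i
        · simp [x, hp]
        · simp [x, hp]
      refine ⟨Sum.elim x fun _ => ↑u, ⟨⟨?_, ?_, ?_⟩, u.isUnit⟩, e1⟩
      · intro a b hab
        change (if a = i then ↑u⁻¹ * w (a, b) else w (a, b)) = 0
        rw [h2 a b hab, mul_zero, ite_self]
      · intro p hp
        rcases Finset.mem_insert.mp hp with rfl | hp'
        · change (if i = i then ↑u⁻¹ * w (i, j) else w (i, j)) = 1
          rw [if_pos rfl, ← hu', Units.inv_mul]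
        · have h6 : ¬ p.1 = i := by
            rintro rfl
            exact hi p.2 hp'
          change (if p.1 = i then ↑u⁻¹ * w p else w p) = 1
          rw [if_neg h6]
          exact h3 p hp'
      · change IsUnit (cM T x).det
        rw [e1, det_scale_row] at h4
        exact isUnit_of_mul_isUnit_right h4
  | col E i j _ hj ih =>
    intro Z hZ
    have h1 := good_one_unit hP ih (hj i) hZ
    apply good_of_gm hP
    refine h1.bij (Bij.ofFun' (fun T _ _ z => fun p => if p.2 = j then z (Sum.inr ()) * z (Sum.inl p) else z (Sum.inl p))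
      ?_ ?_ ?_ ?_)
    · intro T T' _ _ _ _ φ z
      funext p
      change (if p.2 = j then φ _ * φ _ else φ _) = φ (if p.2 = j then _ else _)
      split_ifs
      · rw [map_mul]
      · rfl
    · rintro T _ _ z z' ⟨hz1, hz2⟩ ⟨hz1', hz2'⟩ hzz
      have e1 : z (Sum.inr ()) = z' (Sum.inr ()) := by
        have h2 := congrFun hzz (i, j)
        change (if j = j then _ else _) = (if j = j then _ else _) at h2
        rw [if_pos rfl, if_pos rfl] at h2
        have h3 : z (Sum.inl (i, j)) = 1 := hz1.2.1 (i, j) (Finset.mem_insert_self _ _)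
        have h4 : z' (Sum.inl (i, j)) = 1 := hz1'.2.1 (i, j) (Finset.mem_insert_self _ _)
        rwa [h3, h4, mul_one, mul_one] at h2
      funext p
      rcases p with p | p
      · have h2 := congrFun hzz p
        change (if p.2 = j then _ else _) = (if p.2 = j then _ else _) at h2
        split_ifs at h2 with hp
        · rw [e1] at h2
          exact hz2'.mul_left_cancel h2
        · exact h2
      · exact e1
    · rintro T _ _ z ⟨⟨h2, h3, h4⟩, h5⟩
      refine ⟨⟨?_, ?_, ?_⟩, ?_⟩
      · intro a b hab
        have h6 : z (Sum.inl (a, b)) = 0 := h2 a b hab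
        change (if b = j then z (Sum.inr ()) * z (Sum.inl (a, b)) else z (Sum.inl (a, b))) = 0
        rw [h6, mul_zero, ite_self]
      · intro x hx
        have h6 : ¬ x.2 = j := by
          rintro rfl
          exact hj x.1 hx
        change (if x.2 = j then z (Sum.inr ()) * z (Sum.inl x) else z (Sum.inl x)) = 1
        rw [if_neg h6]
        exact h3 x (Finset.mem_insert_of_mem hx)
      · have h6 := det_scale_col T (fun p => z (Sum.inl p)) j (z (Sum.inr ()))
        rw [h6]
        exact h5.mul h4
      · change IsUnit (if j = j then z (Sum.inr ()) * z (Sum.inl (i, j)) else z (Sum.inl (i, j)))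
        rw [if_pos rfl, show z (Sum.inl (i, j)) = 1 from h3 (i, j) (Finset.mem_insert_self _ _), mul_one]
        exact h5
    · rintro T _ _ w ⟨⟨h2, h3, h4⟩, h5⟩
      obtain ⟨u, hu⟩ := h5
      have hu' : (u : T) = w (i, j) := hu
      let x : γ × γ → T := fun p => if p.2 = j then ↑u⁻¹ * w p else w p
      have e1 : w = fun p => if p.2 = j then ↑u * x p else x p := by
        funext p
        by_cases hp : p.2 = j
        · simp [x, hp]
        · simp [x, hp]
      refine ⟨Sum.elim x fun _ => ↑u, ⟨⟨?_, ?_, ?_⟩, u.isUnit⟩, e1⟩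
      · intro a b hab
        change (if b = j then ↑u⁻¹ * w (a, b) else w (a, b)) = 0
        rw [h2 a b hab, mul_zero, ite_self]
      · intro p hp
        rcases Finset.mem_insert.mp hp with rfl | hp'
        · change (if j = j then ↑u⁻¹ * w (i, j) else w (i, j)) = 1
          rw [if_pos rfl, ← hu', Units.inv_mul]
        · have h6 : ¬ p.2 = j := by
            rintro rfl
            exact hj p.1 hp'
          change (if p.2 = j then ↑u⁻¹ * w p else w p) = 1
          rw [if_neg h6]
          exact h3 p hp'
      · change IsUnit (cM T x).det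
        rw [e1, det_scale_col] at h4
        exact isUnit_of_mul_isUnit_right h4

end pat

section leafy

variable {γ : Type} [Fintype γ] [DecidableEq γ]

lemma Leafy.addRows {E : Finset (γ × γ)} (hE : Leafy E) (A : Finset (γ × γ))
    (h1 : ∀ x ∈ A, ∀ y ∈ A, x.1 = y.1 → x = y) (h2 : ∀ x ∈ A, ∀ k, (x.1, k) ∉ E) : Leafy (A ∪ E) := by
  induction A using Finset.induction_on with
  | empty => rwa [Finset.empty_union]
  | insert x A hx ih =>
    rw [Finset.insert_union]
    refine Leafy.row _ x.1 x.2 (ih (fun y hy z hz => h1 y (Finset.mem_insert_of_mem hy) z (Finset.mem_insert_of_mem hz))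
      fun y hy => h2 y (Finset.mem_insert_of_mem hy)) ?_
    intro k hk
    rcases Finset.mem_union.mp hk with hk | hk
    · have := h1 x (Finset.mem_insert_self _ _) _ (Finset.mem_insert_of_mem hk) rfl
      rw [← this] at hk
      exact hx hk
    · exact h2 x (Finset.mem_insert_self _ _) k hk

lemma Leafy.addCols {E : Finset (γ × γ)} (hE : Leafy E) (A : Finset (γ × γ))
    (h1 : ∀ x ∈ A, ∀ y ∈ A, x.2 = y.2 → x = y) (h2 : ∀ x ∈ A, ∀ k, (k, x.2) ∉ E) : Leafy (A ∪ E) := by
  induction A using Finset.induction_on with
  | empty => rwa [Finset.empty_union]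
  | insert x A hx ih =>
    rw [Finset.insert_union]
    refine Leafy.col _ x.1 x.2 (ih (fun y hy z hz => h1 y (Finset.mem_insert_of_mem hy) z (Finset.mem_insert_of_mem hz))
      fun y hy => h2 y (Finset.mem_insert_of_mem hy)) ?_
    intro k hk
    rcases Finset.mem_union.mp hk with hk | hk
    · have := h1 x (Finset.mem_insert_self _ _) _ (Finset.mem_insert_of_mem hk) rfl
      rw [← this] at hk
      exact hx hk
    · exact h2 x (Finset.mem_insert_self _ _) k hk

end leafy

end Pool.Agent.P8H64.GH
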