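import Pool.Agent.P8H64.GH.Split

/-!
# Kirchhoff polynomials of graphs and determinants of sparse matrices
-/

set_option autoImplicit false
set_option linter.unusedVariables false
set_option linter.unusedSectionVars false

open Matrix Pool.Agent.Y116.UV Pool.Agent.Z125.UN

namespace Pool.Agent.P8H64.GH

section defs

/-- the weight of a pair of vertices: the weight of the edge, or zero if there is no edge -/
noncomputable def wt {n : ℕ} {T : Type} [Zero T] (G : SimpleGraph (Fin (n + 1))) (w : G.edgeSet → T)
    (a b : Fin (n + 1)) : T := by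
  classical
  exact if h : G.Adj a b then w ⟨s(a, b), h⟩ else 0

/-- the weighted Laplacian, without the row and the column of the vertex `0` -/
noncomputable def lap {n : ℕ} {T : Type} [AddCommGroup T] (G : SimpleGraph (Fin (n + 1))) (w : G.edgeSet → T) :
    Matrix (Fin n) (Fin n) T :=
  Matrix.of fun i j => if i = j then ∑ b, wt G w i.succ b else - wt G w i.succ j.succ

/-- the matrix with the entries `x_s` for `s` in `S` and zeros elsewhere -/
noncomputable def sparse {n : ℕ} {T : Type} [Zero T] (S : Finset (Fin n × Fin n)) (x : S → T) :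
    Matrix (Fin n) (Fin n) T :=
  Matrix.of fun i j => if h : (i, j) ∈ S then x ⟨(i, j), h⟩ else 0

/-- the Kirchhoff polynomial of a graph -/
noncomputable def kirchhoff (R : Type) [CommRing R] {n : ℕ} (G : SimpleGraph (Fin (n + 1))) :
    MvPolynomial G.edgeSet R := (lap G MvPolynomial.X).det

/-- the determinant of the generic matrix with the entries `x_s` for `s` in `S` and zeros elsewhere -/
noncomputable def sparseDet (R : Type) [CommRing R] {n : ℕ} (S : Finset (Fin n × Fin n)) :
    MvPolynomial S R := (sparse S MvPolynomial.X).det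

/-- `G` is a cone with the apex `0` over a split graph: `0` is adjacent to all other vertices, and these
are divided into a clique and an independent set. -/
def ConeSplit {n : ℕ} (G : SimpleGraph (Fin (n + 1))) : Prop :=
  (∀ i : Fin n, G.Adj 0 i.succ) ∧ ∃ C : Set (Fin n), (∀ i ∈ C, ∀ j ∈ C, i ≠ j → G.Adj i.succ j.succ) ∧
    ∀ i ∉ C, ∀ j ∉ C, ¬ G.Adj i.succ j.succ

end defs

variable {R : Type} [CommRing R]

/-- the affine space -/
def allSp (R : Type) [CommRing R] (σ : Type) : Sp R σ where
  C _ _ _ _ := True
  nat _ _ _ := trivial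

lemma reps_all (σ : Type) : Reps (allSp R σ) (MvPolynomial σ R) MvPolynomial.X := by
  refine ⟨trivial, fun T _ _ v _ => ⟨MvPolynomial.aeval v, fun s => MvPolynomial.aeval_X v s⟩, fun T _ _ φ ψ h => ?_⟩
  exact MvPolynomial.algHom_ext h

lemma wt_map {n : ℕ} {T T' : Type} [CommRing T] [Algebra R T] [CommRing T'] [Algebra R T'] (φ : T →ₐ[R] T')
    (G : SimpleGraph (Fin (n + 1))) (w : G.edgeSet → T) (a b : Fin (n + 1)) :
    wt G (fun s => φ (w s)) a b = φ (wt G w a b) := by
  unfold wt
  split_ifs
  · rfl
  · rw [map_zero]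

lemma lap_apply {n : ℕ} {T : Type} [AddCommGroup T] (G : SimpleGraph (Fin (n + 1))) (w : G.edgeSet → T)
    (i j : Fin n) : lap G w i j = if i = j then ∑ b, wt G w i.succ b else - wt G w i.succ j.succ := rfl

lemma lap_map {n : ℕ} {T T' : Type} [CommRing T] [Algebra R T] [CommRing T'] [Algebra R T'] (φ : T →ₐ[R] T')
    (G : SimpleGraph (Fin (n + 1))) (w : G.edgeSet → T) (i j : Fin n) :
    lap G (fun s => φ (w s)) i j = φ (lap G w i j) := by
  rw [lap_apply, lap_apply]
  split_ifs
  · rw [map_sum]
    exact Finset.sum_congr rfl fun b _ => wt_map φ G w _ b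
  · rw [map_neg, wt_map]

/-- the determinant of the Laplacian, as a function -/
noncomputable def kirFn (R : Type) [CommRing R] {n : ℕ} (G : SimpleGraph (Fin (n + 1))) : Fn R G.edgeSet where
  val T _ _ w := (lap G w).det
  nat {T T'} _ _ _ _ φ w := by
    change _ = (φ : T →+* T') _
    rw [RingHom.map_det]
    congr 1
    ext i j
    exact lap_map φ G w i j

/-- the determinant of the sparse matrix, as a function -/
noncomputable def sparseFn (R : Type) [CommRing R] {n : ℕ} (S : Finset (Fin n × Fin n)) : Fn R S where
  val T _ _ w := (sparse S w).det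
  nat {T T'} _ _ _ _ φ w := by
    change _ = (φ : T →+* T') _
    rw [RingHom.map_det]
    congr 1
    ext i j
    simp only [sparse, Matrix.of_apply, RingHom.mapMatrix_apply, Matrix.map_apply]
    split_ifs
    · rfl
    · exact (map_zero φ).symm

/-- the complement of the graph hypersurface -/
noncomputable def kirSp (R : Type) [CommRing R] {n : ℕ} (G : SimpleGraph (Fin (n + 1))) : Sp R G.edgeSet :=
  (allSp R G.edgeSet).unit (kirFn R G)

/-- the invertible sparse matrices -/
noncomputable def glSp (R : Type) [CommRing R] {n : ℕ} (S : Finset (Fin n × Fin n)) : Sp R S :=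
  (allSp R S).unit (sparseFn R S)

lemma reps_kir {n : ℕ} (G : SimpleGraph (Fin (n + 1))) :
    Reps (kirSp R G) (Localization.Away (kirchhoff R G)) fun s =>
      IsScalarTower.toAlgHom R (MvPolynomial G.edgeSet R) (Localization.Away (kirchhoff R G)) (MvPolynomial.X s) :=
  reps_unit (reps_all G.edgeSet) (kirFn R G)

lemma reps_gl {n : ℕ} (S : Finset (Fin n × Fin n)) :
    Reps (glSp R S) (Localization.Away (sparseDet R S)) fun s =>
      IsScalarTower.toAlgHom R (MvPolynomial S R) (Localization.Away (sparseDet R S)) (MvPolynomial.X s) :=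
  reps_unit (reps_all S) (sparseFn R S)

section gl

variable {γ : Type} [Fintype γ] [DecidableEq γ] {n : ℕ} (e : γ ≃ Fin n) (Z : γ → γ → Prop)

/-- the places of the nonzero entries -/
noncomputable def supp : Finset (Fin n × Fin n) := by
  classical
  exact Finset.univ.filter fun p => ¬ Z (e.symm p.1) (e.symm p.2)

lemma mem_supp (p : Fin n × Fin n) : p ∈ supp e Z ↔ ¬ Z (e.symm p.1) (e.symm p.2) := by
  simp [supp]

lemma det_reindex {T : Type} [CommRing T] (M : Matrix (Fin n) (Fin n) T) :
    (cM T fun p : γ × γ => M (e p.1) (e p.2)).det = M.det :=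
  Matrix.det_submatrix_equiv_self e M

/-- the bijection -/
noncomputable def glBij : Bij (patSp (R := R) Z ∅) (glSp R (supp e Z)) :=
  Bij.ofFun' (fun T _ _ z p => sparse (supp e Z) z (e p.1) (e p.2))
    (by
      intro T T' _ _ _ _ φ z
      funext p
      change sparse (supp e Z) (fun s => φ (z s)) (e p.1) (e p.2) = φ (sparse (supp e Z) z (e p.1) (e p.2))
      simp only [sparse, Matrix.of_apply]
      split_ifs
      · rfl
      · exact (map_zero φ).symm)
    (by
      intro T _ _ z z' _ _ h
      funext s
      have h1 := congrFun h (e.symm s.1.1, e.symm s.1.2)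
      simp only [sparse, Matrix.of_apply, Equiv.apply_symm_apply, Prod.mk.eta, Finset.coe_mem, dite_true,
        Subtype.coe_eta] at h1
      exact h1)
    (by
      rintro T _ _ z ⟨_, hz⟩
      refine ⟨?_, ?_, ?_⟩
      · intro i j h
        have h1 : (e i, e j) ∉ supp e Z := by
          rw [mem_supp, Equiv.symm_apply_apply, Equiv.symm_apply_apply, not_not]
          exact h
        simp only [sparse, Matrix.of_apply]
        rw [dif_neg h1]
      · intro x hx
        exact absurd hx (Finset.notMem_empty _)
      · rw [det_reindex e]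
        exact hz)
    (by
      rintro T _ _ w ⟨h1, _, h3⟩
      have hw : w = fun p => sparse (supp e Z) (fun s => w (e.symm s.1.1, e.symm s.1.2)) (e p.1) (e p.2) := by
        funext p
        simp only [sparse, Matrix.of_apply]
        split_ifs with h
        · rw [Equiv.symm_apply_apply, Equiv.symm_apply_apply]
        · rw [mem_supp, not_not, Equiv.symm_apply_apply, Equiv.symm_apply_apply] at h
          exact h1 _ _ h
      refine ⟨fun s => w (e.symm s.1.1, e.symm s.1.2), ⟨trivial, ?_⟩, hw⟩
      rw [hw, det_reindex e] at h3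
      exact h3)

end gl

section graph

variable {γ κ : Type} [Fintype γ] [DecidableEq γ] [Fintype κ] [DecidableEq κ] {n : ℕ} (e : γ ⊕ κ ≃ Fin n)
  (Z : γ → κ → Prop)

/-- adjacency of the vertices other than the apex -/
def adj0 : γ ⊕ κ → γ ⊕ κ → Prop
  | Sum.inl i, Sum.inl j => i ≠ j
  | Sum.inl i, Sum.inr k => ¬ Z i k
  | Sum.inr k, Sum.inl i => ¬ Z i k
  | Sum.inr _, Sum.inr _ => False

lemma adj0_symm (p q : γ ⊕ κ) (h : adj0 Z p q) : adj0 Z q p := by
  rcases p with i | i <;> rcases q with j | j
  · exact Ne.symm h
  · exact h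
  · exact h
  · exact h

lemma adj0_irrefl (p : γ ⊕ κ) : ¬ adj0 Z p p := by
  rcases p with i | i
  · intro h
    exact h rfl
  · intro h
    exact h

/-- adjacency -/
def adj1 (a b : Fin (n + 1)) : Prop :=
  (a = 0 ∧ b ≠ 0) ∨ (a ≠ 0 ∧ b = 0) ∨ ∃ i j : Fin n, a = i.succ ∧ b = j.succ ∧ adj0 Z (e.symm i) (e.symm j)

/-- the cone over the split graph -/
def cone : SimpleGraph (Fin (n + 1)) where
  Adj := adj1 e Z
  symm := ⟨by
    rintro a b (⟨h1, h2⟩ | ⟨h1, h2⟩ | ⟨i, j, rfl, rfl, h⟩)
    · exact Or.inr (Or.inl ⟨h2, h1⟩)
    · exact Or.inl ⟨h2, h1⟩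
    · exact Or.inr (Or.inr ⟨j, i, rfl, rfl, adj0_symm Z _ _ h⟩)⟩
  loopless := ⟨by
    rintro a (⟨h1, h2⟩ | ⟨h1, h2⟩ | ⟨i, j, h1, h2, h⟩)
    · exact h2 h1
    · exact h1 h2
    · have : i = j := Fin.succ_injective _ (h1.symm.trans h2)
      subst this
      exact adj0_irrefl Z _ h⟩

lemma cone_zero (i : Fin n) : (cone e Z).Adj 0 i.succ := Or.inl ⟨rfl, Fin.succ_ne_zero i⟩

lemma cone_succ (i j : Fin n) : (cone e Z).Adj i.succ j.succ ↔ adj0 Z (e.symm i) (e.symm j) := by
  constructor
  · rintro (⟨h1, h2⟩ | ⟨h1, h2⟩ | ⟨i', j', h1, h2, h⟩)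
    · exact absurd h1 (Fin.succ_ne_zero i)
    · exact absurd h2 (Fin.succ_ne_zero j)
    · rw [Fin.succ_injective _ h1, Fin.succ_injective _ h2]
      exact h
  · intro h
    exact Or.inr (Or.inr ⟨i, j, rfl, rfl, h⟩)

lemma cone_split : ConeSplit (cone e Z) := by
  refine ⟨cone_zero e Z, {i | ∃ a, e.symm i = Sum.inl a}, ?_, ?_⟩
  · rintro i ⟨a, ha⟩ j ⟨b, hb⟩ hij
    rw [cone_succ, ha, hb]
    rintro rfl
    exact hij (e.symm.injective (ha.trans hb.symm))
  · intro i hi j hj h
    rw [cone_succ] at h
    rcases hi' : e.symm i with a | a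
    · exact hi ⟨a, hi'⟩
    · rcases hj' : e.symm j with b | b
      · exact hj ⟨b, hj'⟩
      · rw [hi', hj'] at h
        exact h

/-- the weights of the edges, from the matrix -/
noncomputable def wf {T : Type} [AddCommGroup T] (v : (γ ⊕ κ) × (γ ⊕ κ) → T) : Fin (n + 1) → Fin (n + 1) → T :=
  Fin.cases (Fin.cases 0 fun j => ∑ q, v (e.symm j, q))
    fun i => Fin.cases (∑ q, v (e.symm i, q)) fun j => - v (e.symm i, e.symm j)

lemma wf_symm {T : Type} [AddCommGroup T] (v : (γ ⊕ κ) × (γ ⊕ κ) → T) (hv : ∀ p q, v (p, q) = v (q, p))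
    (a b : Fin (n + 1)) : wf e v a b = wf e v b a := by
  refine Fin.cases ?_ (fun i => ?_) a
  · refine Fin.cases rfl (fun j => ?_) b
    rfl
  · refine Fin.cases rfl (fun j => ?_) b
    change - v (e.symm i, e.symm j) = - v (e.symm j, e.symm i)
    rw [hv]

lemma wt_pos {T : Type} [Zero T] (G : SimpleGraph (Fin (n + 1))) (w : G.edgeSet → T) {a b : Fin (n + 1)}
    (h : G.Adj a b) : wt G w a b = w ⟨s(a, b), h⟩ := dif_pos h

lemma wt_neg {T : Type} [Zero T] (G : SimpleGraph (Fin (n + 1))) (w : G.edgeSet → T) {a b : Fin (n + 1)}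
    (h : ¬ G.Adj a b) : wt G w a b = 0 := dif_neg h

lemma wt_symm {T : Type} [Zero T] (G : SimpleGraph (Fin (n + 1))) (w : G.edgeSet → T) (a b : Fin (n + 1)) :
    wt G w a b = wt G w b a := by
  by_cases h : G.Adj a b
  · rw [wt_pos G w h, wt_pos G w h.symm]
    congr 2
    exact Sym2.eq_swap
  · rw [wt_neg G w h, wt_neg G w fun h' => h h'.symm]

/-- the sum of a row of the Laplacian is the weight of the edge to the apex -/
lemma lap_row {T : Type} [AddCommGroup T] (G : SimpleGraph (Fin (n + 1))) (w : G.edgeSet → T) (i : Fin n) :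
    ∑ j, lap G w i j = wt G w i.succ 0 := by
  rw [← Finset.add_sum_erase Finset.univ _ (Finset.mem_univ i)]
  have h1 : lap G w i i = wt G w i.succ 0 + ∑ j : Fin n, wt G w i.succ j.succ := by
    rw [lap_apply, if_pos rfl, Fin.sum_univ_succ]
  have h2 : ∑ j ∈ Finset.univ.erase i, lap G w i j =
      - ∑ j ∈ Finset.univ.erase i, wt G w i.succ (Fin.succ j) := by
    rw [← Finset.sum_neg_distrib]
    refine Finset.sum_congr rfl fun j hj => ?_
    rw [lap_apply, if_neg (Finset.ne_of_mem_erase hj).symm]
  have h3 : ∑ j : Fin n, wt G w i.succ j.succ = ∑ j ∈ Finset.univ.erase i, wt G w i.succ (Fin.succ j) := by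
    rw [← Finset.add_sum_erase Finset.univ _ (Finset.mem_univ i), wt_neg G w (G.loopless.irrefl _), zero_add]
  rw [h1, h2, h3]
  abel

/-- the bijection -/
noncomputable def graphBij : Bij (splitSp (R := R) Z ∅) (kirSp R (cone e Z)) :=
  Bij.ofFun' (fun T _ _ z p => lap (cone e Z) z (e p.1) (e p.2))
    (by
      intro T T' _ _ _ _ φ z
      funext p
      exact lap_map φ _ z _ _)
    (by
      intro T _ _ z z' _ _ h
      have hl : ∀ i j, lap (cone e Z) z i j = lap (cone e Z) z' i j := by
        intro i j
        have h1 := congrFun h (e.symm i, e.symm j)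
        simp only [Equiv.apply_symm_apply] at h1
        exact h1
      have hw : ∀ a b, wt (cone e Z) z a b = wt (cone e Z) z' a b := by
        intro a b
        have key : ∀ i : Fin n, wt (cone e Z) z i.succ 0 = wt (cone e Z) z' i.succ 0 := by
          intro i
          rw [← lap_row, ← lap_row]
          exact Finset.sum_congr rfl fun j _ => hl i j
        refine Fin.cases ?_ (fun i => ?_) a
        · refine Fin.cases ?_ (fun j => ?_) b
          · rw [wt_neg _ _ ((cone e Z).loopless.irrefl _), wt_neg _ _ ((cone e Z).loopless.irrefl _)]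
          · rw [wt_symm, wt_symm _ z']
            exact key j
        · refine Fin.cases (key i) (fun j => ?_) b
          by_cases hij : i = j
          · subst hij
            rw [wt_neg _ _ ((cone e Z).loopless.irrefl _), wt_neg _ _ ((cone e Z).loopless.irrefl _)]
          · have h1 := hl i j
            rw [lap_apply, lap_apply, if_neg hij, if_neg hij] at h1
            exact neg_injective h1
      funext s
      obtain ⟨s, hs⟩ := s
      induction s using Sym2.ind with
      | _ a b =>
        have h1 := hw a b
        rw [wt_pos _ _ hs, wt_pos _ _ hs] at h1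
        exact h1)
    (by
      rintro T _ _ z ⟨_, hz⟩
      have hs : ∀ i j, lap (cone e Z) z i j = lap (cone e Z) z j i := by
        intro i j
        by_cases h : i = j
        · subst h
          rfl
        · rw [lap_apply, lap_apply, if_neg h, if_neg (Ne.symm h), wt_symm]
      refine ⟨?_, ?_, ?_, ?_, ?_⟩
      · intro p q
        exact hs _ _
      · intro i k h
        change lap (cone e Z) z (e (Sum.inl i)) (e (Sum.inr k)) = 0
        have h1 : e (Sum.inl i) ≠ e (Sum.inr k) := fun h1 => Sum.inl_ne_inr (e.injective h1)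
        rw [lap_apply, if_neg h1, wt_neg, neg_zero]
        rw [cone_succ, Equiv.symm_apply_apply, Equiv.symm_apply_apply]
        exact fun h2 => h2 h
      · intro k k' h
        change lap (cone e Z) z (e (Sum.inr k)) (e (Sum.inr k')) = 0
        have h1 : e (Sum.inr k) ≠ e (Sum.inr k') := fun h1 => h (Sum.inr_injective (e.injective h1))
        rw [lap_apply, if_neg h1, wt_neg, neg_zero]
        rw [cone_succ, Equiv.symm_apply_apply, Equiv.symm_apply_apply]
        exact fun h2 => h2
      · intro k hk
        exact absurd hk (Finset.notMem_empty _)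
      · rw [det_reindex e]
        exact hz)
    (by
      rintro T _ _ v ⟨h1, h2, h3, _, h5⟩
      let w : (cone e Z).edgeSet → T := fun s => Sym2.lift ⟨wf e v, wf_symm e v h1⟩ s.1
      have w1 : ∀ a b, (cone e Z).Adj a b → wt (cone e Z) w a b = wf e v a b := by
        intro a b h
        rw [wt_pos _ _ h]
        rfl
      have w2 : ∀ i j : Fin n, i ≠ j → wt (cone e Z) w i.succ j.succ = - v (e.symm i, e.symm j) := by
        intro i j hij
        by_cases h : (cone e Z).Adj i.succ j.succ
        · rw [w1 _ _ h]
          rfl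
        · rw [wt_neg _ _ h]
          rw [cone_succ] at h
          have hij' : e.symm i ≠ e.symm j := fun h' => hij (e.symm.injective h')
          have : v (e.symm i, e.symm j) = 0 := by
            revert h hij'
            generalize e.symm i = p
            generalize e.symm j = q
            intro h hij'
            rcases p with i | i <;> rcases q with j | j
            · exact absurd (fun hh => hij' (by rw [hh])) h
            · exact h2 i j (not_not.mp h)
            · rw [h1]
              exact h2 j i (not_not.mp h)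
            · exact h3 i j fun hh => hij' (by rw [hh])
          rw [this, neg_zero]
      have w3 : ∀ i : Fin n, wt (cone e Z) w i.succ 0 = ∑ q, v (e.symm i, q) := by
        intro i
        rw [w1 _ _ (cone_zero e Z i).symm]
        rfl
      have w4 : ∀ i j, lap (cone e Z) w i j = v (e.symm i, e.symm j) := by
        intro i j
        by_cases hij : i = j
        · subst hij
          have h6 := lap_row (cone e Z) w i
          rw [← Finset.add_sum_erase Finset.univ _ (Finset.mem_univ i), w3,
            ← Finset.add_sum_erase Finset.univ _ (Finset.mem_univ (e.symm i))] at h6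
          have h7 : ∑ j ∈ Finset.univ.erase i, lap (cone e Z) w i j =
              ∑ q ∈ Finset.univ.erase (e.symm i), v (e.symm i, q) := by
            refine Finset.sum_bij (fun j _ => e.symm j) ?_ ?_ ?_ ?_
            · intro j hj
              exact Finset.mem_erase.mpr ⟨fun h => Finset.ne_of_mem_erase hj (e.symm.injective h), Finset.mem_univ _⟩
            · intro j _ j' _ h
              exact e.symm.injective h
            · intro q hq
              refine ⟨e q, Finset.mem_erase.mpr ⟨fun h => Finset.ne_of_mem_erase hq ?_, Finset.mem_univ _⟩,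
                e.symm_apply_apply q⟩
              rw [← h, Equiv.symm_apply_apply]
            · intro j hj
              have hj' : i ≠ j := (Finset.ne_of_mem_erase hj).symm
              rw [lap_apply, if_neg hj', w2 _ _ hj', neg_neg]
          rw [h7] at h6
          exact add_right_cancel h6
        · rw [lap_apply, if_neg hij, w2 _ _ hij, neg_neg]
      have hv : v = fun p => lap (cone e Z) w (e p.1) (e p.2) := by
        funext p
        rw [w4, Equiv.symm_apply_apply, Equiv.symm_apply_apply]
      refine ⟨w, ⟨trivial, ?_⟩, hv⟩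
      rw [hv, det_reindex e] at h5
      exact h5)

end graph

section main

variable {sep : Prop} {P : Sch R → Prop} (hP : Bnd sep P)

include hP

theorem glgood_of_gl (h : ∀ (n : ℕ) (S : Finset (Fin n × Fin n)), P (aff R (Localization.Away (sparseDet R S)))) :
    GLGood (R := R) P := by
  intro γ _ _ Z
  let e := Fintype.equivFin γ
  have : Algebra.FiniteType R (Localization.Away (sparseDet R (supp e Z))) :=
    Algebra.FiniteType.trans (S := MvPolynomial (supp e Z) R) inferInstance inferInstance
  have h1 : Good P (glSp R (supp e Z)) := ⟨_, _, _, this, _, reps_gl (supp e Z), h _ _⟩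
  exact h1.bij (glBij e Z).symm

theorem glgood_of_cone (h : ∀ (n : ℕ) (G : SimpleGraph (Fin (n + 1))), ConeSplit G →
    P (aff R (Localization.Away (kirchhoff R G)))) : GLGood (R := R) P := by
  refine glgood_of_split hP fun γ _ _ Z => ?_
  let e := Fintype.equivFin (γ ⊕ γ)
  have : Algebra.FiniteType R (Localization.Away (kirchhoff R (cone e Z))) :=
    have : Finite (cone e Z).edgeSet := inferInstance
    Algebra.FiniteType.trans (S := MvPolynomial (cone e Z).edgeSet R) inferInstance inferInstance
  have h1 : Good P (kirSp R (cone e Z)) := ⟨_, _, _, this, _, reps_kir (cone e Z), h _ _ (cone_split e Z)⟩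
  exact h1.bij (graphBij e Z).symm

end main

end Pool.Agent.P8H64.GH
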