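import Pool.Agent.P8H64.GH.Dims
import Pool.Agent.W495.FM.HomFive

/-!
# Motivic and `ℓ`-adic homology of schemes over finite fields
-/

set_option autoImplicit false

open CategoryTheory AlgebraicGeometry MvPolynomial Pool.Agent.Y116.UV Pool.Agent.Z125.UN Pool.Agent.W495.FM

namespace Pool.Agent.P8H64.GH.Jan

section node

variable {Ω : Type} [Field Ω] [CharZero Ω]

/-- `A` is a direct summand of `B`. -/
def IsSummand (A B : Node Ω) : Prop :=
  ∃ (a : Arrow A B) (b : Arrow B A), (∀ x, b.f (a.f x) = x) ∧ ∀ x, b.g (a.g x) = x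

/-- exactness, for the motivic and for the `ℓ`-adic groups -/
def IsExact {A B C : Node Ω} (a : Arrow A B) (b : Arrow B C) : Prop :=
  Function.Exact a.f b.f ∧ Function.Exact a.g b.g

/-- The linear extension of the regulator `ρ : M → E` is an isomorphism onto the space of the invariants of
Frobenius `φ` (these are the linear combinations of the values of `ρ`, and linearly independent elements of
`M` have linearly independent values), and the eigenvalue one of Frobenius is semisimple. -/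
def IsTB (A : Node Ω) : Prop :=
  (∀ e, A.φ e = e ↔ e ∈ Submodule.span Ω (Set.range A.ρ)) ∧
    (∀ (r : ℕ) (x : Fin r → A.M), LinearIndependent ℚ x → LinearIndependent Ω fun k => A.ρ (x k)) ∧
    ∀ e, A.φ (A.φ e - e) = A.φ e - e → A.φ e = e

lemma IsTB.iff (A : Node Ω) : IsTB A ↔ A.Good := A.good_iff.symm

/-- The homology groups of `Z`, `X`, `U` form a long exact sequence. -/
def LocSeq (Z X U : ℤ → Node Ω) : Prop :=
  ∃ (a : ∀ i, Arrow (Z i) (X i)) (b : ∀ i, Arrow (X i) (U i)) (d : ∀ i, Arrow (U (i + 1)) (Z i)),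
    ∀ i, IsExact (a i) (b i) ∧ IsExact (b (i + 1)) (d i) ∧ IsExact (d i) (a i)

lemma tb_summand {A B : Node Ω} (h : IsSummand A B) (hB : IsTB B) : IsTB A := by
  obtain ⟨a, b, h1, h2⟩ := h
  rw [IsTB.iff] at hB ⊢
  exact good_retract a b h1 h2 hB

variable {Z X U : ℤ → Node Ω}

lemma tb_closed (h : LocSeq Z X U) (hX : ∀ i, IsTB (X i)) (hU : ∀ i, IsTB (U i)) (i : ℤ) : IsTB (Z i) := by
  simp only [IsTB.iff] at hX hU ⊢
  obtain ⟨a, b, d, h⟩ := h
  exact five (b (i + 1)) (d i) (a i) (b i)
    (h i).2.1.1 (h i).2.2.1 (h i).1.1 (h i).2.1.2 (h i).2.2.2 (h i).1.2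
    (hX (i + 1)) (hU (i + 1)) (hX i) (hU i)

lemma tb_total (h : LocSeq Z X U) (hZ : ∀ i, IsTB (Z i)) (hU : ∀ i, IsTB (U i)) (i : ℤ) : IsTB (X i) := by
  simp only [IsTB.iff] at hZ hU ⊢
  obtain ⟨i, rfl⟩ : ∃ k, i = k + 1 := ⟨i - 1, by ring⟩
  obtain ⟨a, b, d, h⟩ := h
  exact five (d (i + 1)) (a (i + 1)) (b (i + 1)) (d i)
    (h (i + 1)).2.2.1 (h (i + 1)).1.1 (h i).2.1.1 (h (i + 1)).2.2.2 (h (i + 1)).1.2
    (h i).2.1.2
    (hU (i + 1 + 1)) (hZ (i + 1)) (hU (i + 1)) (hZ i)

lemma tb_opened (h : LocSeq Z X U) (hZ : ∀ i, IsTB (Z i)) (hX : ∀ i, IsTB (X i)) (i : ℤ) : IsTB (U i) := by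
  simp only [IsTB.iff] at hZ hX ⊢
  obtain ⟨i, rfl⟩ : ∃ k, i = k + 1 := ⟨i - 1, by ring⟩
  obtain ⟨a, b, d, h⟩ := h
  exact five (a (i + 1)) (b (i + 1)) (d i) (a i)
    (h (i + 1)).1.1 (h i).2.1.1 (h i).2.2.1 (h (i + 1)).1.2 (h i).2.1.2 (h i).2.2.2
    (hZ (i + 1)) (hX (i + 1)) (hZ i) (hX i)

end node

/-- Motivic and `ℓ`-adic Borel-Moore homology of the separated schemes `X` of finite type over the finite field
`k`: the node `H X i j` consists of the motivic homology `M = H_i^M(X, ℚ(j)) = CH_j(X, i - 2 j) ⊗ ℚ` (so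
`M = CH_j(X) ⊗ ℚ` for `i = 2 j`), of the homology `E = H_i(X̄, ℚ_ℓ(j)) ⊗ Ω` over the algebraic closure, with the
action `φ` of the Frobenius, and of the cycle class map (regulator) `ρ : M → E`. For smooth `X` of dimension
`d` these are `H^{2d-i}(X, ℚ(d - j)) = CH^{d-j}(X, i - 2 j) ⊗ ℚ` and `H^{2d-i}(X̄, ℚ_ℓ(d - j)) ⊗ Ω`. The properties
which are used: localization sequences, homotopy invariance for the affine bundles of Jouanolou, a direct
summand of the homology of `X × 𝔾_m`, and the conjecture for the schemes of dimension at most one. -/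
structure HThy (k : Type) [Field k] (Ω : Type) [Field Ω] [CharZero Ω] where
  /-- the groups -/
  H : Sch k → ℤ → ℤ → Node Ω
  /-- isomorphic schemes have isomorphic homology -/
  iso : ∀ X Y : Sch k, Nonempty (X ≅ Y) → ∀ i j, IsSummand (H Y i j) (H X i j)
  /-- the localization sequence of a closed subscheme `Z` of `X` with the complement `U` -/
  localization : ∀ {Z X U : Sch k} (i : Z ⟶ X) (j : U ⟶ X), FT True X → IsTriple i j →
    ∀ n, LocSeq (fun k => H Z k n) (fun k => H X k n) fun k => H U k n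
  /-- `U` is the complement of `f = 0` in `Spec A`, and `Spec A[w] / (∑ f_l w_l - 1)` is an affine bundle of
  relative dimension `m - 1` over `U` (Jouanolou) -/
  bundle : ∀ (A : Type) [CommRing A] [Algebra k A] [Algebra.FiniteType k A] (m : ℕ)
    (f : Fin m → A) (U : Sch k) (j : U ⟶ aff k A), IsOpenImmersion j.left →
    Set.range j.left = {x : PrimeSpectrum A | ∃ l, f l ∉ x.asIdeal} → ∀ i n : ℤ,
      IsSummand (H U i n) (H (aff k (Jou f)) (i + 2 * (m - 1)) (n + (m - 1))) ∧
      IsSummand (H (aff k (Jou f)) (i + 2 * (m - 1)) (n + (m - 1))) (H U i n)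
  /-- the homology of `X` is a direct summand of the homology of `X × 𝔾_m`, with a twist -/
  torus : ∀ (A : Type) [CommRing A] [Algebra k A] [Algebra.FiniteType k A] (i n : ℤ),
    IsSummand (H (aff k A) i n) (H (aff k (LaurentPolynomial A)) (i + 2) (n + 1))
  /-- the case of dimension at most one (Weil, Quillen, Harder) -/
  curves : ∀ X : Sch k, FT True X → topologicalKrullDim X.left ≤ 1 → ∀ i n, IsTB (H X i n)

variable {k : Type} [Field k] {Ω : Type} [Field Ω] [CharZero Ω]

/-- The generalised conjecture of Tate and Beilinson (Jannsen) for `X`, in all bidegrees. -/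
def HThy.Holds (T : HThy k Ω) (X : Sch k) : Prop := ∀ i n : ℤ, IsTB (T.H X i n)

/-- The cycle class map of `X` for the cycles of dimension `n`, extended linearly, is a bijection of `CH_n(X)`
onto the invariants of Frobenius in `H_{2n}(X̄, ℚ_ℓ(n))`: the invariants are the linear combinations of classes of
cycles, and linearly independent elements of `CH_n(X) ⊗ ℚ` have linearly independent classes. -/
def HThy.IsIso (T : HThy k Ω) (X : Sch k) (n : ℤ) : Prop :=
  (∀ e, (T.H X (2 * n) n).φ e = e ↔ e ∈ Submodule.span Ω (Set.range (T.H X (2 * n) n).ρ)) ∧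
    ∀ (r : ℕ) (x : Fin r → (T.H X (2 * n) n).M), LinearIndependent ℚ x →
      LinearIndependent Ω fun k => (T.H X (2 * n) n).ρ (x k)

theorem HThy.Holds.isIso {T : HThy k Ω} {X : Sch k} (h : T.Holds X) (n : ℤ) : T.IsIso X n :=
  ⟨(h (2 * n) n).1, (h (2 * n) n).2.1⟩

theorem dim_point : topologicalKrullDim (aff k k).left ≤ 1 := by
  rw [topDim_aff, ringKrullDim_eq_zero_of_field]
  exact zero_le_one

theorem bnd (T : HThy k Ω) : Bnd True T.Holds := by
  refine bnd_mk ?_ ?_ ?_ ?_ ?_ ?_ ?_
  · intro X Y _ h hX i n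
    exact tb_summand (T.iso X Y h i n) (hX i n)
  · intro Z X U i j hX h hZ hU k n
    exact tb_total (T.localization i j hX h n) (fun k => hZ k n) (fun k => hU k n) k
  · intro Z X U i j hX h hZ hX' k n
    exact tb_opened (T.localization i j hX h n) (fun k => hZ k n) (fun k => hX' k n) k
  · intro Z X U i j hX h hX' hU k n
    exact tb_closed (T.localization i j hX h n) (fun k => hX' k n) (fun k => hU k n) k
  · exact T.curves _ (ft_aff True) dim_point
  · intro A _ _ _ m f U j h1 h2
    constructor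
    · intro h i n
      have h3 := (T.bundle A m f U j h1 h2 (i - 2 * (m - 1)) (n - (m - 1))).2
      rw [sub_add_cancel, sub_add_cancel] at h3
      exact tb_summand h3 (h _ _)
    · intro h i n
      exact tb_summand (T.bundle A m f U j h1 h2 i n).1 (h _ _)
  · intro A _ _ _ h i n
    exact tb_summand (T.torus A i n) (h _ _)

theorem main {p : ℕ} [Fact p.Prime] (T : HThy (ZMod p) Ω) :
    List.TFAE [ForAll (ZMod p) True T.Holds, ForSmooth (ZMod p) True T.Holds, ForSparse (ZMod p) T.Holds,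
      ForCompl (ZMod p) T.Holds, ForConeCompl (ZMod p) T.Holds, ForHyp (ZMod p) T.Holds,
      ForConeHyp (ZMod p) T.Holds] :=
  tfae_for (bnd T) (presents_zmod p)

theorem dims [Finite k] (T : HThy k Ω) (d : ℕ) :
    List.TFAE [DimAll k True T.Holds d, DimSmooth k True T.Holds d, ForTri k T.Holds (d + 2),
      ForBlock k T.Holds (d + 2)] ∧ (DimAll k True T.Holds d → ForBil k T.Holds (d + 2)) :=
  tfae_dim (bnd T) d

theorem dim_one (T : HThy k Ω) : DimAll k True T.Holds 1 := fun X hX hd =>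
  T.curves X hX (by exact_mod_cast hd)

end Pool.Agent.P8H64.GH.Jan
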