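import Pool.Agent.P8H64.GH.Main
import Pool.Agent.R904.TR.Res

/-!
# Graph hypersurfaces and finite generation of the groups `K'_n`
-/

set_option autoImplicit false

open CategoryTheory AlgebraicGeometry MvPolynomial Pool.Agent.Y116.UV Pool.Agent.Z125.UN
open Pool.Agent.R904.CU Pool.Agent.R904.TR

namespace Pool.Agent.P8H64.GH

section defs

variable (K : KThy) (R : Type) [CommRing R]

/-- Bass's conjecture over `R`: the groups `K'_n(X)` are finitely generated for every regular scheme `X` of
finite type over `R`. -/
def BassOver : Prop := ∀ (X : Scheme.{0}) (f : X ⟶ Spec (.of R)), FinType R X f → IsRegularScheme X → K.Fin X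

/-- The groups of the schemes of invertible matrices over `R` with zeros outside of `S` are finitely
generated, for all finite sets `S` of places. -/
def SparseFin : Prop := ∀ (n : ℕ) (S : Finset (Fin n × Fin n)), K.Fin (sp (GLRing R S))

/-- The groups of the complements of the graph hypersurfaces over `R` are finitely generated, for all graphs. -/
def ComplFin : Prop := ∀ (n : ℕ) (G : SimpleGraph (Fin (n + 1))), K.Fin (sp (CRing R G))

/-- The same for the cones over split graphs. -/
def ConeComplFin : Prop := ∀ (n : ℕ) (G : SimpleGraph (Fin (n + 1))), ConeSplit G → K.Fin (sp (CRing R G))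

/-- The groups of the graph hypersurfaces over `R` are finitely generated, for all graphs. -/
def HypFin : Prop := ∀ (n : ℕ) (G : SimpleGraph (Fin (n + 1))), K.Fin (sp (HRing R G))

/-- The same for the cones over split graphs. -/
def ConeHypFin : Prop := ∀ (n : ℕ) (G : SimpleGraph (Fin (n + 1))), ConeSplit G → K.Fin (sp (HRing R G))

/-- The groups of all schemes of finite type over `R`, regular or not, are finitely generated. -/
def AllFin : Prop := ∀ (X : Scheme.{0}) (f : X ⟶ Spec (.of R)), FinType R X f → K.Fin X

end defs

variable (K : KThy)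

theorem regular_away {A : Type} [CommRing A] [IsRegularRing A] (f : A) :
    IsRegularScheme (sp (Localization.Away f)) :=
  have := isRegularRing_localization A (Submonoid.powers f) (Localization.Away f)
  isRegularScheme_spec _

theorem finType_aff (R A : Type) [CommRing R] [CommRing A] [Algebra R A] [Algebra.FiniteType R A] :
    FinType R (sp A) (aff R A).hom :=
  ⟨(ft_aff (R := R) (A := A) False).locallyOfFiniteType, (ft_aff (R := R) (A := A) False).quasiCompact⟩

theorem tfae (R : Type) [CommRing R] [IsRegularRing R] [hR : Algebra.FiniteType ℤ R]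
    (h1 : ringKrullDim R ≤ 1) (hs : Function.Surjective (Int.cast : ℤ → R)) :
    List.TFAE [BassOver K R, SparseFin K R, ComplFin K R, ConeComplFin K R, HypFin K R, ConeHypFin K R,
      AllFin K R] := by
  have hB := bnd K False (fin_dim_one K R h1)
  have hp : Presents ({0, 1} : Set R) := presents_zero_one hs
  have hall : ∀ P' : Prop, (P' → ∀ X : Sch R, FT False X → K.Fin X.left) → P' → AllFin K R := by
    intro P' h hP' X f hf
    exact h hP' (Over.mk f) ⟨hf.1, hf.2, fun h => h.elim⟩
  have m1 : ∀ {σ : Type} [Finite σ], IsRegularRing (MvPolynomial σ R) := fun {σ} _ => inferInstance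
  tfae_have 1 → 2 := fun h n S => h _ _ (finType_aff R (GLRing R S)) (regular_away _)
  tfae_have 1 → 3 := fun h n G => h _ _ (finType_aff R (CRing R G)) (regular_away _)
  tfae_have 3 → 4 := fun h n G _ => h n G
  tfae_have 5 → 6 := fun h n G _ => h n G
  tfae_have 7 → 1 := fun h X f hf _ => h X f hf
  tfae_have 7 → 5 := fun h n G => h _ _ (finType_aff R (HRing R G))
  tfae_have 2 → 7 := hall _ fun h => univ_gl hB hp h
  tfae_have 4 → 7 := hall _ fun h => univ_cone hB hp h
  tfae_have 6 → 7 := hall _ fun h => univ_cone_hyp hB hp h
  tfae_finish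

theorem tfae_surj (R : Type) [CommRing R] [IsRegularRing R] (hs : Function.Surjective (Int.cast : ℤ → R)) :
    List.TFAE [BassOver K R, SparseFin K R, ComplFin K R, ConeComplFin K R, HypFin K R, ConeHypFin K R,
      AllFin K R] := by
  have h1 : Function.Surjective (algebraMap ℤ R) := fun x => by
    obtain ⟨m, hm⟩ := hs x
    exact ⟨m, by simpa using hm⟩
  have h2 : Algebra.FiniteType ℤ R := Algebra.FiniteType.of_surjective (Algebra.ofId ℤ R) h1
  exact tfae K R ((ringKrullDim_le_of_surjective _ h1).trans dim_int) hs

end Pool.Agent.P8H64.GH
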