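import Pool.Agent.P8H64.GH.Bil
import Pool.Agent.P8H64.GH.Graph
import Pool.Agent.Q282.UK.Bil
import Pool.Agent.Y116.UV.Pres

/-!
# Graph hypersurfaces decide every property closed under closed-open decompositions
-/

set_option autoImplicit false

open CategoryTheory AlgebraicGeometry MvPolynomial Pool.Agent.Y116.UV Pool.Agent.Z125.UN

namespace Pool.Agent.P8H64.GH

variable (R : Type) [CommRing R] {n : ℕ}

/-- the ring of the invertible matrices with the entries `x_s` for `s` in `S` and zeros elsewhere -/
abbrev GLRing (S : Finset (Fin n × Fin n)) : Type := Localization.Away (sparseDet R S)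

/-- the ring of the complement of the graph hypersurface -/
abbrev CRing (G : SimpleGraph (Fin (n + 1))) : Type := Localization.Away (kirchhoff R G)

/-- the ring of the graph hypersurface -/
abbrev HRing (G : SimpleGraph (Fin (n + 1))) : Type := MvPolynomial G.edgeSet R ⧸ Ideal.span {kirchhoff R G}

instance ft_gl (S : Finset (Fin n × Fin n)) : Algebra.FiniteType R (GLRing R S) :=
  Algebra.FiniteType.trans (S := MvPolynomial S R) inferInstance inferInstance

instance ft_c (G : SimpleGraph (Fin (n + 1))) : Algebra.FiniteType R (CRing R G) :=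
  have : Finite G.edgeSet := inferInstance
  Algebra.FiniteType.trans (S := MvPolynomial G.edgeSet R) inferInstance inferInstance

variable {R} {sep : Prop} {P : Sch R → Prop} (hP : Bnd sep P)

include hP

lemma clo_of_bnd : Pool.Agent.Q282.UK.Clo sep P where
  iso := hP.iso
  total := hP.total
  opened := hP.opened
  torus := hP.torus

lemma p_mv (σ : Type) [Finite σ] : P (aff R (MvPolynomial σ R)) := by
  have := Fintype.ofFinite σ
  exact iso_alg hP.toUni (renameEquiv R (Fintype.equivFin σ).symm) (hP.space _)

theorem univ_of_glgood (hS : Presents ({0, 1} : Set R)) (hG : GLGood P) (X : Sch R) (hX : FT sep X) : P X :=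
  Pool.Agent.Q282.UK.clo_universal (S := {0, 1}) (clo_of_bnd hP) (Or.inl rfl) (Or.inr rfl)
    (fun _ _ _ T hT => good_bil hP hG T hT) hS X hX

theorem univ_gl (hS : Presents ({0, 1} : Set R))
    (h : ∀ (n : ℕ) (S : Finset (Fin n × Fin n)), P (aff R (GLRing R S))) (X : Sch R) (hX : FT sep X) : P X :=
  univ_of_glgood hP hS (glgood_of_gl hP h) X hX

theorem univ_cone (hS : Presents ({0, 1} : Set R))
    (h : ∀ (n : ℕ) (G : SimpleGraph (Fin (n + 1))), ConeSplit G → P (aff R (CRing R G)))
    (X : Sch R) (hX : FT sep X) : P X :=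
  univ_of_glgood hP hS (glgood_of_cone hP h) X hX

theorem univ_cone_hyp (hS : Presents ({0, 1} : Set R))
    (h : ∀ (n : ℕ) (G : SimpleGraph (Fin (n + 1))), ConeSplit G → P (aff R (HRing R G)))
    (X : Sch R) (hX : FT sep X) : P X := by
  refine univ_cone hP hS (fun n G hG => ?_) X hX
  exact hP.opened _ _ (ft_aff sep) (triple_away (kirchhoff R G)) (h n G hG) (p_mv hP _)

end Pool.Agent.P8H64.GH
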