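import Pool.Agent.P8H64.GH.Main
import Pool.Agent.R904.TR.Main

/-!
# A criterion for the closure properties
-/

set_option autoImplicit false

open CategoryTheory AlgebraicGeometry MvPolynomial Pool.Agent.Y116.UV Pool.Agent.Z125.UN

namespace Pool.Agent.P8H64.GH

variable {R : Type} [CommRing R] {sep : Prop} {P : Sch R → Prop}

theorem bnd_mk (iso : ∀ {X Y : Sch R}, FT sep X → Nonempty (X ≅ Y) → P X → P Y)
    (total : ∀ {Z X U : Sch R} (i : Z ⟶ X) (j : U ⟶ X), FT sep X → IsTriple i j → P Z → P U → P X)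
    (opened : ∀ {Z X U : Sch R} (i : Z ⟶ X) (j : U ⟶ X), FT sep X → IsTriple i j → P Z → P X → P U)
    (closed : ∀ {Z X U : Sch R} (i : Z ⟶ X) (j : U ⟶ X), FT sep X → IsTriple i j → P X → P U → P Z)
    (point : P (aff R R))
    (bundle : ∀ (A : Type) [CommRing A] [Algebra R A] [Algebra.FiniteType R A] (m : ℕ)
      (f : Fin m → A) (U : Sch R) (j : U ⟶ aff R A), IsOpenImmersion j.left →
      Set.range j.left = {x : PrimeSpectrum A | ∃ l, f l ∉ x.asIdeal} → (P U ↔ P (aff R (Jou f))))
    (torus : ∀ (A : Type) [CommRing A] [Algebra R A] [Algebra.FiniteType R A],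
      P (aff R (LaurentPolynomial A)) → P (aff R A)) : Bnd sep P where
  iso := iso
  total := total
  opened := opened
  closed := closed
  space n := by
    have h1 : IsOpenImmersion (𝟙 (aff R R) : aff R R ⟶ aff R R).left :=
      inferInstanceAs (IsOpenImmersion (𝟙 (aff R R).left))
    have h2 : Set.range (𝟙 (aff R R) : aff R R ⟶ aff R R).left =
        {x : PrimeSpectrum R | ∃ l, f1 R n l ∉ x.asIdeal} := by
      have h1 : Set.range (𝟙 (aff R R) : aff R R ⟶ aff R R).left = Set.univ := Set.range_id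
      have h2 : {x : PrimeSpectrum R | ∃ l, f1 R n l ∉ x.asIdeal} = Set.univ := by
        rw [Set.eq_univ_iff_forall]
        intro x
        exact ⟨0, fun h => x.isPrime.ne_top ((Ideal.eq_top_iff_one _).mpr h)⟩
      exact h1.trans h2.symm
    have h3 := (bundle R (n + 1) (f1 R n) (aff R R) (𝟙 _) h1 h2).1 point
    exact iso (ft_aff sep) ⟨(affIso (jouOne R n)).symm⟩ h3
  jouanolou A _ _ _ m f U j h1 h2 h3 := (bundle A m f U j h1 h2).2 h3
  torus := torus
  bundle A _ _ _ m f U j h1 h2 h3 := (bundle A m f U j h1 h2).1 h3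

end Pool.Agent.P8H64.GH
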