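import Pool.Agent.P8H64.GH.Sp

/-!
# Products of spaces with affine spaces and tori; linear functions
-/

set_option autoImplicit false
set_option linter.unusedVariables false

open CategoryTheory AlgebraicGeometry MvPolynomial Pool.Agent.Y116.UV Pool.Agent.Z125.UN

namespace Pool.Agent.P8H64.GH

variable {R : Type} [CommRing R] {σ τ : Type}

/-- the product with an affine space -/
def Sp.aff (F : Sp R σ) (τ : Type) : Sp R (σ ⊕ τ) where
  C T _ _ v := F.C T fun s => v (Sum.inl s)
  nat φ v hv := F.nat φ _ hv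

/-- the product with the multiplicative group -/
def Sp.gm (F : Sp R σ) : Sp R (σ ⊕ Unit) where
  C T _ _ v := F.C T (fun s => v (Sum.inl s)) ∧ IsUnit (v (Sum.inr ()))
  nat φ v hv := ⟨F.nat φ _ hv.1, hv.2.map φ⟩

/-- a coordinate -/
def Fn.co (s : σ) : Fn R σ where
  val T _ _ v := v s
  nat φ v := rfl

/-- `(v, y)` with `∑ c_t(v) y_t` invertible -/
def Sp.lin (F : Sp R σ) [Fintype τ] (c : τ → Fn R σ) : Sp R (σ ⊕ τ) where
  C T _ _ v := F.C T (fun s => v (Sum.inl s)) ∧
    IsUnit (∑ t, (c t).val T (fun s => v (Sum.inl s)) * v (Sum.inr t))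
  nat φ v hv := ⟨F.nat φ _ hv.1, by
    have h := hv.2.map φ
    rw [map_sum] at h
    convert h using 2
    rw [map_mul, (c _).nat]⟩

/-- `(v, y)` with `∑ c_t(v) y_t = 1` -/
def Sp.lin1 (F : Sp R σ) [Fintype τ] (c : τ → Fn R σ) : Sp R (σ ⊕ τ) where
  C T _ _ v := F.C T (fun s => v (Sum.inl s)) ∧
    ∑ t, (c t).val T (fun s => v (Sum.inl s)) * v (Sum.inr t) = 1
  nat φ v hv := ⟨F.nat φ _ hv.1, by
    have h := congrArg φ hv.2
    rw [map_sum, map_one] at h
    rw [← h]
    refine Finset.sum_congr rfl fun t _ => ?_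
    rw [map_mul, (c _).nat]⟩

section reps

variable {F : Sp R σ} {A : Type} [CommRing A] [Algebra R A] {u : σ → A} (hA : Reps F A u)

include hA

lemma reps_aff (τ : Type) : Reps (F.aff τ) (MvPolynomial τ A) (Sum.elim (fun s => C (u s)) X) := by
  refine ⟨F.nat (IsScalarTower.toAlgHom R A (MvPolynomial τ A)) u hA.mem, ?_, ?_⟩
  · intro T _ _ v hv
    obtain ⟨φ, hφ⟩ := hA.ex T _ hv
    refine ⟨aevalTower φ fun t => v (Sum.inr t), ?_⟩
    rintro (s | t)
    · exact (aevalTower_C φ _ _).trans (hφ s)
    · exact aevalTower_X φ _ _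
  · intro T _ _ φ ψ h
    apply MvPolynomial.algHom_ext'
    · exact hA.uniq T _ _ fun s => h (Sum.inl s)
    · exact fun t => h (Sum.inr t)

lemma reps_lin1 {m : ℕ} (c : Fin m → Fn R σ) :
    Reps (F.lin1 c) (Jou fun i => (c i).val A u)
      (Sum.elim (fun s => IsScalarTower.toAlgHom R A (Jou fun i => (c i).val A u) (u s))
        (fun i => Ideal.Quotient.mk _ (X i))) := by
  refine ⟨⟨F.nat (IsScalarTower.toAlgHom R A (Jou fun i => (c i).val A u)) u hA.mem, ?_⟩, ?_, ?_⟩
  · have h1 : (∑ l, C ((c l).val A u) * X l - 1 : MvPolynomial (Fin m) A) ∈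
        Ideal.span {∑ l, C ((c l).val A u) * X l - 1} := Ideal.mem_span_singleton_self _
    have h2 := Ideal.Quotient.eq_zero_iff_mem.mpr h1
    rw [map_sub, map_one, sub_eq_zero, map_sum] at h2
    rw [← h2]
    refine Finset.sum_congr rfl fun i _ => ?_
    rw [map_mul]
    congr 1
    change (c i).val _ (fun s => IsScalarTower.toAlgHom R A (Jou fun i => (c i).val A u) (u s)) = _
    rw [(c i).nat]
    rfl
  · intro T _ _ v hv
    obtain ⟨φ, hφ⟩ := hA.ex T _ hv.1
    refine ⟨Ideal.Quotient.liftₐ (Ideal.span {∑ l, C ((c l).val A u) * X l - 1} :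
      Ideal (MvPolynomial (Fin m) A)) (aevalTower φ fun t => v (Sum.inr t)) (fun a ha => ?_), ?_⟩
    · have h1 : Ideal.span {∑ l, C ((c l).val A u) * X l - 1} ≤
          RingHom.ker (aevalTower φ fun t => v (Sum.inr t) : MvPolynomial (Fin m) A →ₐ[R] T) := by
        rw [Ideal.span_le, Set.singleton_subset_iff]
        change aevalTower φ _ _ = 0
        rw [map_sub, map_one, sub_eq_zero, map_sum, ← hv.2]
        refine Finset.sum_congr rfl fun i _ => ?_
        rw [map_mul, aevalTower_X, aevalTower_C, (c i).apply φ hφ]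
      exact h1 ha
    · rintro (s | t)
      · change aevalTower φ _ (algebraMap A _ (u s)) = _
        exact (aevalTower_C φ _ _).trans (hφ s)
      · exact aevalTower_X φ _ _
  · intro T _ _ φ ψ h
    apply Ideal.Quotient.algHom_ext
    apply MvPolynomial.algHom_ext'
    · exact hA.uniq T _ _ fun s => h (Sum.inl s)
    · exact fun t => h (Sum.inr t)

lemma reps_gm : Reps F.gm (LaurentPolynomial A)
    (Sum.elim (fun s => LaurentPolynomial.C (u s)) fun _ => LaurentPolynomial.T 1) := by
  refine ⟨⟨F.nat (IsScalarTower.toAlgHom R A (LaurentPolynomial A)) u hA.mem, ?_⟩, ?_, ?_⟩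
  · exact LaurentPolynomial.isUnit_T 1
  · intro T _ _ v hv
    obtain ⟨φ, hφ⟩ := hA.ex T _ hv.1
    obtain ⟨t, ht⟩ := hv.2
    let _ : Algebra A T := φ.toRingHom.toAlgebra
    have ha : ∀ a : A, algebraMap A T a = φ a := fun _ => rfl
    have hs : IsScalarTower R A T := IsScalarTower.of_algebraMap_eq fun r => (φ.commutes r).symm
    let g : LaurentPolynomial A →ₐ[A] T :=
      AddMonoidAlgebra.lift A T ℤ ((Units.coeHom T).comp (zpowersHom Tˣ t))
    refine ⟨g.restrictScalars R, ?_⟩
    rintro (s | t')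
    · change g (algebraMap A _ (u s)) = _
      rw [g.commutes, ha]
      exact hφ s
    · change g (LaurentPolynomial.T 1) = _
      change AddMonoidAlgebra.lift A T ℤ _ (AddMonoidAlgebra.single 1 1) = _
      rw [AddMonoidAlgebra.lift_single, one_smul]
      rw [← ht]
      simp
  · intro T _ _ φ ψ h
    have h1 : ∀ a : A, φ (LaurentPolynomial.C a) = ψ (LaurentPolynomial.C a) := by
      have h2 := hA.uniq T (φ.comp (IsScalarTower.toAlgHom R A (LaurentPolynomial A)))
        (ψ.comp (IsScalarTower.toAlgHom R A (LaurentPolynomial A))) fun s => h (Sum.inl s)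
      exact fun a => congrArg (fun f : A →ₐ[R] T => f a) h2
    have hT : φ (LaurentPolynomial.T 1) = ψ (LaurentPolynomial.T 1) := h (Sum.inr ())
    have hTn : ∀ n : ℕ, φ (LaurentPolynomial.T n) = ψ (LaurentPolynomial.T n) := by
      intro n
      have : (LaurentPolynomial.T n : LaurentPolynomial A) = LaurentPolynomial.T 1 ^ n := by
        rw [LaurentPolynomial.T_pow, mul_one]
      rw [this, map_pow, map_pow, hT]
    have hTz : ∀ n : ℤ, φ (LaurentPolynomial.T n) = ψ (LaurentPolynomial.T n) := by
      intro n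
      obtain ⟨m, rfl | rfl⟩ := n.eq_nat_or_neg
      · exact hTn m
      · have e1 : φ (LaurentPolynomial.T (-(m : ℤ))) * φ (LaurentPolynomial.T (m : ℤ)) = 1 := by
          rw [← map_mul, ← LaurentPolynomial.T_add, neg_add_cancel, LaurentPolynomial.T_zero, map_one]
        have e2 : ψ (LaurentPolynomial.T (m : ℤ)) * ψ (LaurentPolynomial.T (-(m : ℤ))) = 1 := by
          rw [← map_mul, ← LaurentPolynomial.T_add, add_neg_cancel, LaurentPolynomial.T_zero, map_one]
        rw [hTn m] at e1
        calc φ (LaurentPolynomial.T (-(m : ℤ))) =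
            φ (LaurentPolynomial.T (-(m : ℤ))) * (ψ (LaurentPolynomial.T (m : ℤ)) * ψ (LaurentPolynomial.T (-(m : ℤ)))) := by
              rw [e2, mul_one]
          _ = _ := by rw [← mul_assoc, e1, one_mul]
    apply AlgHom.ext
    intro p
    refine LaurentPolynomial.induction_on' (motive := fun p => φ p = ψ p) p ?_ ?_
    · intro p q hp hq
      rw [map_add, map_add, hp, hq]
    · intro n a
      rw [map_mul, map_mul, h1, hTz]

end reps

section good

variable {sep : Prop} {P : Sch R → Prop} (hP : Bnd sep P) {F : Sp R σ}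

include hP

lemma good_aff (τ : Type) [Fintype τ] (hF : Good P F) : Good P (F.aff τ) := by
  obtain ⟨A, _, _, _, u, hA, hPA⟩ := hF
  have : Algebra.FiniteType R (MvPolynomial τ A) :=
    Algebra.FiniteType.trans (S := A) inferInstance inferInstance
  exact ⟨_, _, _, this, _, reps_aff hA τ, p_poly hP τ hPA⟩

lemma good_gm (hF : Good P F) : Good P F.gm := by
  have h1 : Good P ((F.aff Unit).unit (Fn.co (Sum.inr ()))) := by
    refine good_unit hP _ (good_aff hP Unit hF) (hF.bij ?_)
    exact
      { rel := fun T _ _ v w => (∀ s, w (Sum.inl s) = v s)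
        nat := fun φ v w _ _ h s => congrArg φ (h s)
        right := fun v hv => ⟨Sum.elim v fun _ => 0, ⟨hv, rfl⟩, fun _ => rfl⟩
        left := fun w hw => ⟨fun s => w (Sum.inl s), hw.1, fun _ => rfl⟩
        injr := fun v w w' _ hw hw' h h' => by
          funext s
          rcases s with s | s
          · rw [h s, h' s]
          · exact (show w (Sum.inr s) = 0 from hw.2).trans (show w' (Sum.inr s) = 0 from hw'.2).symm
        injl := fun v v' w _ _ _ h h' => funext fun s => (h s).symm.trans (h' s) }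
  exact h1.congr fun T _ _ v => Iff.rfl

/-- from the product with the multiplicative group -/
lemma good_of_gm (h : Good P F.gm) : Good P F := by
  obtain ⟨B, _, _, hB, w, hw, hPB⟩ := h
  let hf : Fn R (σ ⊕ Unit) :=
    { val := fun T _ _ v => v (Sum.inr ()) - 1
      nat := fun φ v => by rw [map_sub, map_one] }
  have e : Bij (F.gm.zero hf) F :=
    { rel := fun T _ _ w v => (∀ s, w (Sum.inl s) = v s)
      nat := fun φ v w _ _ h s => congrArg φ (h s)
      right := fun v hv => ⟨fun s => v (Sum.inl s), hv.1.1, fun _ => rfl⟩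
      left := fun v hv => ⟨Sum.elim v fun _ => 1, ⟨⟨hv, isUnit_one⟩, sub_self _⟩, fun _ => rfl⟩
      injr := fun v v' w _ _ _ h h' => funext fun s => (h s).symm.trans (h' s)
      injl := fun w w' v hw hw' _ h h' => by
        funext s
        rcases s with s | s
        · rw [h s, h' s]
        · exact (sub_eq_zero.mp hw.2).trans (sub_eq_zero.mp hw'.2).symm }
  obtain ⟨u, hA⟩ := (reps_zero hw hf).bij e
  have h1 := reps_gm hA
  obtain ⟨e⟩ := hw.equiv h1
  refine ⟨_, _, _, inferInstance, u, hA, hP.torus _ ?_⟩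
  exact iso_alg hP.toUni e hPB

omit σ F in
lemma p_of_mv {A : Type} [CommRing A] [Algebra R A] [Algebra.FiniteType R A] (τ : Type) [Fintype τ]
    (h2 : P (Pool.Agent.Y116.UV.aff R (MvPolynomial τ A))) : P (Pool.Agent.Y116.UV.aff R A) := by
  have h3 : Algebra.FiniteType R (MvPolynomial τ A) :=
    Algebra.FiniteType.trans (S := A) inferInstance inferInstance
  have h4 : Algebra.FiniteType R (MvPolynomial (Fin (Fintype.card τ)) A) :=
    Algebra.FiniteType.trans (S := A) inferInstance inferInstance
  have h5 : P (Pool.Agent.Y116.UV.aff R (MvPolynomial (Fin (Fintype.card τ)) A)) :=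
    iso_alg hP.toUni ((renameEquiv A (Fintype.equivFin τ)).restrictScalars R) h2
  have h6 : P (Pool.Agent.Y116.UV.aff R (Jou (f1 A (Fintype.card τ)))) :=
    iso_alg hP.toUni ((jouOne A (Fintype.card τ)).symm.restrictScalars R) h5
  refine hP.jouanolou A _ (f1 A (Fintype.card τ)) (Pool.Agent.Y116.UV.aff R A) (𝟙 _) ?_ ?_ h6
  · exact inferInstanceAs (IsOpenImmersion (𝟙 (Pool.Agent.Y116.UV.aff R A).left))
  · have h1 : Set.range (𝟙 (Pool.Agent.Y116.UV.aff R A) : _ ⟶ _).left = Set.univ := Set.range_id
    have h2 : {x : PrimeSpectrum A | ∃ l, f1 A (Fintype.card τ) l ∉ x.asIdeal} = Set.univ := by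
      rw [Set.eq_univ_iff_forall]
      intro x
      exact ⟨0, fun h => x.isPrime.ne_top ((Ideal.eq_top_iff_one _).mpr h)⟩
    exact h1.trans h2.symm

/-- from the product with an affine space -/
lemma good_of_aff (τ : Type) [Fintype τ] (h : Good P (F.aff τ)) : Good P F := by
  obtain ⟨B, _, _, hB, w, hw, hPB⟩ := h
  have e : Bij ((F.aff τ).zeros fun t : τ => Fn.co (Sum.inr t)) F :=
    { rel := fun T _ _ w v => (∀ s, w (Sum.inl s) = v s)
      nat := fun φ v w _ _ h s => congrArg φ (h s)
      right := fun v hv => ⟨fun s => v (Sum.inl s), hv.1, fun _ => rfl⟩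
      left := fun v hv => ⟨Sum.elim v fun _ => 0, ⟨hv, fun _ => rfl⟩, fun _ => rfl⟩
      injr := fun v v' w _ _ _ h h' => funext fun s => (h s).symm.trans (h' s)
      injl := fun w w' v hw hw' _ h h' => by
        funext s
        rcases s with s | s
        · rw [h s, h' s]
        · exact (show w (Sum.inr s) = 0 from hw.2 s).trans (show w' (Sum.inr s) = 0 from hw'.2 s).symm }
  obtain ⟨u, hA⟩ := (reps_zeros hw _).bij e
  have h1 := reps_aff hA τ
  obtain ⟨e⟩ := hw.equiv h1
  exact ⟨_, _, _, inferInstance, u, hA, p_of_mv hP τ (iso_alg hP.toUni e hPB)⟩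

omit hP in
lemma lin_bij [Fintype τ] (c : τ → Fn R σ) : Nonempty (Bij (F.lin c) (F.lin1 c).gm) :=
  ⟨{ rel := fun T _ _ v w => (∀ s, w (Sum.inl (Sum.inl s)) = v (Sum.inl s)) ∧
        (∀ t, v (Sum.inr t) = w (Sum.inr ()) * w (Sum.inl (Sum.inr t)))
     nat := fun φ v w _ _ h => ⟨fun s => congrArg φ (h.1 s),
       fun t => (congrArg φ (h.2 t)).trans (map_mul φ _ _)⟩
     right := fun {T} _ _ v hv => by
       obtain ⟨h1, s, hs⟩ := hv
       have h0 : (↑s⁻¹ : T) * ↑s = 1 := by simp
       refine ⟨Sum.elim (Sum.elim (fun i => v (Sum.inl i)) fun t => ↑s⁻¹ * v (Sum.inr t)) fun _ => ↑s,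
         ⟨⟨h1, ?_⟩, s.isUnit⟩, fun _ => rfl, fun t => ?_⟩
       · change ∑ t, (c t).val T (fun i => v (Sum.inl i)) * (↑s⁻¹ * v (Sum.inr t)) = 1
         rw [← h0, hs, Finset.mul_sum]
         exact Finset.sum_congr rfl fun t _ => by ring
       · change v (Sum.inr t) = ↑s * (↑s⁻¹ * v (Sum.inr t))
         rw [← mul_assoc, Units.mul_inv, one_mul]
     left := fun {T} _ _ w hw => by
       obtain ⟨⟨h1, h2⟩, h3⟩ := hw
       refine ⟨Sum.elim (fun s => w (Sum.inl (Sum.inl s))) fun t => w (Sum.inr ()) * w (Sum.inl (Sum.inr t)),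
         ⟨h1, ?_⟩, fun _ => rfl, fun _ => rfl⟩
       change ∑ t, (c t).val T (fun s => w (Sum.inl (Sum.inl s))) * w (Sum.inl (Sum.inr t)) = 1 at h2
       have h4 : ∑ t, (c t).val T (fun s => w (Sum.inl (Sum.inl s))) * (w (Sum.inr ()) * w (Sum.inl (Sum.inr t))) =
           w (Sum.inr ()) := by
         calc _ = w (Sum.inr ()) * ∑ t, (c t).val T (fun s => w (Sum.inl (Sum.inl s))) * w (Sum.inl (Sum.inr t)) := by
               rw [Finset.mul_sum]
               exact Finset.sum_congr rfl fun t _ => by ring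
           _ = _ := by rw [h2, mul_one]
       change IsUnit (∑ t, (c t).val T (fun s => w (Sum.inl (Sum.inl s))) * (w (Sum.inr ()) * w (Sum.inl (Sum.inr t))))
       rw [h4]
       exact h3
     injr := fun {T} _ _ v w w' hv hw hw' h h' => by
       have key : ∀ x : (σ ⊕ τ) ⊕ Unit → T, (F.lin1 c).gm.C T x → (∀ s, x (Sum.inl (Sum.inl s)) = v (Sum.inl s)) →
           (∀ t, v (Sum.inr t) = x (Sum.inr ()) * x (Sum.inl (Sum.inr t))) →
           x (Sum.inr ()) = ∑ t, (c t).val T (fun s => v (Sum.inl s)) * v (Sum.inr t) := by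
         intro x hx h1 h2
         have h3 := hx.1.2
         have h4 : (fun s => x (Sum.inl (Sum.inl s))) = fun s => v (Sum.inl s) := funext h1
         change ∑ t, (c t).val T (fun s => x (Sum.inl (Sum.inl s))) * x (Sum.inl (Sum.inr t)) = 1 at h3
         rw [h4] at h3
         calc x (Sum.inr ()) = x (Sum.inr ()) * 1 := (mul_one _).symm
           _ = _ := by
             rw [← h3, Finset.mul_sum]
             refine Finset.sum_congr rfl fun t _ => ?_
             rw [h2 t]
             ring
       have e1 := key w hw h.1 h.2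
       have e2 := key w' hw' h'.1 h'.2
       have e3 : w (Sum.inr ()) = w' (Sum.inr ()) := e1.trans e2.symm
       funext s
       rcases s with (s | t) | _
       · rw [h.1 s, h'.1 s]
       · have h5 := (h.2 t).symm.trans (h'.2 t)
         rw [e3] at h5
         exact hw'.2.mul_left_cancel h5
       · exact e3
     injl := fun v v' w _ _ _ h h' => by
       funext s
       rcases s with s | t
       · rw [← h.1 s, ← h'.1 s]
       · rw [h.2 t, h'.2 t] }⟩

/-- **Linear functions**: if `F` and the space of the `(v, y)` with `∑ c_t(v) y_t` invertible are good, so is the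
part of `F` where all `c_t` vanish. -/
lemma good_lin [Fintype τ] (c : τ → Fn R σ) (hF : Good P F) (hl : Good P (F.lin c)) : Good P (F.zeros c) := by
  have h1 : Good P (F.lin1 c) := by
    obtain ⟨e⟩ := lin_bij (F := F) c
    exact good_of_gm hP (hl.bij e)
  obtain ⟨A, _, _, _, u, hA, hPA⟩ := hF
  let en := Fintype.equivFin τ
  let c' : Fin (Fintype.card τ) → Fn R σ := fun i => c (en.symm i)
  have h2 : Good P (F.lin1 c') := h1.bij
    { rel := fun T _ _ v w => (∀ s, w (Sum.inl s) = v (Sum.inl s)) ∧ ∀ t, w (Sum.inr (en t)) = v (Sum.inr t)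
      nat := fun φ v w _ _ h => ⟨fun s => congrArg φ (h.1 s), fun s => congrArg φ (h.2 s)⟩
      right := fun {T} _ _ v hv => by
        refine ⟨Sum.elim (fun s => v (Sum.inl s)) fun i => v (Sum.inr (en.symm i)), ⟨hv.1, ?_⟩, fun _ => rfl,
          fun t => ?_⟩
        · rw [← hv.2]
          exact en.symm.sum_comp fun t => (c t).val T (fun s => v (Sum.inl s)) * v (Sum.inr t)
        · change v (Sum.inr (en.symm (en t))) = _
          rw [en.symm_apply_apply]
      left := fun {T} _ _ w hw => by
        refine ⟨Sum.elim (fun s => w (Sum.inl s)) fun i => w (Sum.inr (en i)), ⟨hw.1, ?_⟩, fun _ => rfl,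
          fun t => rfl⟩
        rw [← hw.2]
        rw [← en.sum_comp]
        refine Finset.sum_congr rfl fun t _ => ?_
        change _ = (c (en.symm (en t))).val T _ * _
        rw [en.symm_apply_apply]
        rfl
      injr := fun v w w' _ _ _ h h' => by
        funext s
        rcases s with s | i
        · rw [h.1 s, h'.1 s]
        · have e1 := (h.2 (en.symm i)).trans (h'.2 (en.symm i)).symm
          rwa [en.apply_symm_apply] at e1
      injl := fun v v' w _ _ _ h h' => by
        funext s
        rcases s with s | t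
        · rw [← h.1 s, ← h'.1 s]
        · rw [← h.2 t, ← h'.2 t] }
  have h3 : Good P (F.zeros c') := by
    have h4 := reps_lin1 hA c'
    have : Algebra.FiniteType R (Jou fun i => (c' i).val A u) :=
      Algebra.FiniteType.trans (S := A) inferInstance inferInstance
    exact ⟨_, _, _, inferInstance, _, reps_zeros hA c', of_jou hP.toUni _ hPA (h4.good hP h2)⟩
  refine h3.congr fun T _ _ v => ⟨fun h => ⟨h.1, fun t => ?_⟩, fun h => ⟨h.1, fun i => h.2 _⟩⟩
  have h5 := h.2 (en t)
  change (c (en.symm (en t))).val T v = 0 at h5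
  rwa [en.symm_apply_apply] at h5

end good

end Pool.Agent.P8H64.GH
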