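import Pool.Agent.P8H64.GH.Forest

/-!
# Pairs of sparse matrices with a sparse product
-/

set_option autoImplicit false
set_option linter.unusedVariables false
set_option linter.unusedSectionVars false

open Matrix Pool.Agent.Y116.UV Pool.Agent.Z125.UN

namespace Pool.Agent.P8H64.GH

variable {R : Type} [CommRing R]

/-- places of zeros and ones for the matrices `V`, `W`, and of the zeros of the product -/
structure VW (s K t : Type) where
  ZV : s → K → Prop
  EV : s → K → Prop
  ZW : K → t → Prop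
  EW : K → t → Prop
  ZD : s → t → Prop

/-- the ones of `V`: one full row `ε` and at most one entry in every other row; the ones of `W`: at most one in every
column -/
structure VW.Ok {s K t : Type} (Q : VW s K t) (ε : s) : Prop where
  vz : ∀ i k, Q.EV i k → ¬ Q.ZV i k
  wz : ∀ k j, Q.EW k j → ¬ Q.ZW k j
  star : ∀ k, Q.EV ε k
  row : ∀ i k k', i ≠ ε → Q.EV i k → Q.EV i k' → k = k'
  col : ∀ j k k', Q.EW k j → Q.EW k' j → k = k'

/-- the coordinates: `V`, `W`, `D` -/
abbrev VWc (s K t : Type) : Type := (s × K) ⊕ ((K × t) ⊕ (s × t))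

section vw

variable {s t K : Type} [Fintype s] [DecidableEq s] [Fintype t] [DecidableEq t] [Fintype K] [DecidableEq K]

/-- the space of the matrices `V`, `W`, `D` with the prescribed zeros and ones -/
def vwSp (Q : VW s K t) : Sp R (VWc s K t) where
  C T _ _ v := ((∀ i k, Q.ZV i k → v (Sum.inl (i, k)) = 0) ∧ (∀ i k, Q.EV i k → v (Sum.inl (i, k)) = 1)) ∧
    ((∀ k j, Q.ZW k j → v (Sum.inr (Sum.inl (k, j))) = 0) ∧ (∀ k j, Q.EW k j → v (Sum.inr (Sum.inl (k, j))) = 1)) ∧
    ∀ i j, Q.ZD i j → v (Sum.inr (Sum.inr (i, j))) = 0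
  nat φ v hv := ⟨⟨fun i k h => (congrArg φ (hv.1.1 i k h)).trans (map_zero φ),
      fun i k h => (congrArg φ (hv.1.2 i k h)).trans (map_one φ)⟩,
    ⟨fun i k h => (congrArg φ (hv.2.1.1 i k h)).trans (map_zero φ),
      fun i k h => (congrArg φ (hv.2.1.2 i k h)).trans (map_one φ)⟩,
    fun i k h => (congrArg φ (hv.2.2 i k h)).trans (map_zero φ)⟩

/-- the entries of `D - V W` -/
def vwN (i : s) (j : t) : Fn R (VWc s K t) where
  val T _ _ v := v (Sum.inr (Sum.inr (i, j))) - ∑ k, v (Sum.inl (i, k)) * v (Sum.inr (Sum.inl (k, j)))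
  nat φ v := by
    rw [map_sub, map_sum]
    congr 1
    exact Finset.sum_congr rfl fun k _ => (map_mul φ _ _).symm

variable {γ : Type} [Fintype γ] [DecidableEq γ]

/-- the zeros of the big matrix -/
def bigZ (Q : VW s K t) (L : Lab s t γ) : K ⊕ γ → K ⊕ γ → Prop
  | Sum.inl k, Sum.inl k' => k ≠ k'
  | Sum.inl k, Sum.inr κ => ∀ j, L.cl κ = some j → Q.ZW k j
  | Sum.inr ρ, Sum.inl k => ∀ i, L.lab ρ = some i → Q.ZV i k
  | Sum.inr ρ, Sum.inr κ => (∀ i j, L.lab ρ = some i → L.cl κ = some j → Q.ZD i j) ∧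
      (L.lab ρ = none ∨ L.cl κ = none → ¬ L.Pt ρ κ)

/-- the ones of the big matrix -/
def bigP (Q : VW s K t) (L : Lab s t γ) : K ⊕ γ → K ⊕ γ → Prop
  | Sum.inl k, Sum.inl k' => k = k'
  | Sum.inl k, Sum.inr κ => ∃ j, L.cl κ = some j ∧ Q.EW k j
  | Sum.inr ρ, Sum.inl k => ∃ i, L.lab ρ = some i ∧ Q.EV i k
  | Sum.inr _, Sum.inr _ => False

open Classical in
/-- the ones of the big matrix -/
noncomputable def bigE (Q : VW s K t) (L : Lab s t γ) : Finset ((K ⊕ γ) × (K ⊕ γ)) :=
  Finset.univ.filter fun x => bigP Q L x.1 x.2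

lemma mem_bigE (Q : VW s K t) (L : Lab s t γ) (x y : K ⊕ γ) : (x, y) ∈ bigE Q L ↔ bigP Q L x y := by
  simp [bigE]

/-- the big matrix `[[1, W], [V, D + x]]` -/
def bigg {T : Type} [CommRing T] (L : Lab s t γ) (z : VWc s K t ⊕ γ × γ → T) (x : (K ⊕ γ) × (K ⊕ γ)) : T :=
  match x with
  | (Sum.inl k, Sum.inl k') => if k = k' then 1 else 0
  | (Sum.inl k, Sum.inr κ) => (L.cl κ).elim 0 fun j => z (Sum.inl (Sum.inr (Sum.inl (k, j))))
  | (Sum.inr ρ, Sum.inl k) => (L.lab ρ).elim 0 fun i => z (Sum.inl (Sum.inl (i, k)))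
  | (Sum.inr ρ, Sum.inr κ) => ((L.lab ρ).elim 0 fun i => (L.cl κ).elim 0 fun j =>
      z (Sum.inl (Sum.inr (Sum.inr (i, j))))) + z (Sum.inr (ρ, κ))

lemma det_bigg {T : Type} [CommRing T] [Algebra R T] (L : Lab s t γ) (z : VWc s K t ⊕ γ × γ → T) :
    (cM T (bigg L z)).det = (mv (eM (R := R) vwN L) T z).det := by
  have h : cM T (bigg L z) = fromBlocks 1
      (Matrix.of fun k κ => (L.cl κ).elim 0 fun j => z (Sum.inl (Sum.inr (Sum.inl (k, j)))))
      (Matrix.of fun ρ k => (L.lab ρ).elim 0 fun i => z (Sum.inl (Sum.inl (i, k))))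
      (Matrix.of fun ρ κ => ((L.lab ρ).elim 0 fun i => (L.cl κ).elim 0 fun j =>
        z (Sum.inl (Sum.inr (Sum.inr (i, j))))) + z (Sum.inr (ρ, κ))) := by
    ext x y
    rcases x with x | x <;> rcases y with y | y
    · change (if x = y then 1 else 0) = (1 : Matrix K K T) x y
      rw [Matrix.one_apply]
    · rfl
    · rfl
    · rfl
  rw [h, det_fromBlocks_one₁₁]
  congr 1
  ext ρ κ
  rw [Matrix.sub_apply, Matrix.mul_apply]
  change _ - ∑ k, ((L.lab ρ).elim 0 fun i => z (Sum.inl (Sum.inl (i, k)))) *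
    ((L.cl κ).elim 0 fun j => z (Sum.inl (Sum.inr (Sum.inl (k, j))))) =
    (nent vwN (L.lab ρ) (L.cl κ)).val T (fun s => z (Sum.inl s)) + z (Sum.inr (ρ, κ))
  rw [Matrix.of_apply]
  rcases h1 : L.lab ρ with _ | i
  · simp [nent_none_left]
  · rcases h2 : L.cl κ with _ | j
    · simp [nent_none_right]
    · rw [nent_some]
      simp only [Option.elim_some, vwN]
      ring

lemma bigE_leafy {Q : VW s K t} {ε : s} (hQ : Q.Ok ε) {L : Lab s t γ} (hL : L.Ok ∅) : Leafy (bigE Q L) := by
  classical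
  obtain ⟨ρε, hρ⟩ := hL.cov ε (Finset.notMem_empty ε)
  let A1 : Finset ((K ⊕ γ) × (K ⊕ γ)) := Finset.univ.image fun k => (Sum.inr ρε, Sum.inl k)
  let A2 : Finset ((K ⊕ γ) × (K ⊕ γ)) := Finset.univ.image fun k => (Sum.inl k, Sum.inl k)
  let A3 : Finset ((K ⊕ γ) × (K ⊕ γ)) := Finset.univ.filter fun x =>
    ∃ ρ k i, x = (Sum.inr ρ, Sum.inl k) ∧ i ≠ ε ∧ L.lab ρ = some i ∧ Q.EV i k
  let A4 : Finset ((K ⊕ γ) × (K ⊕ γ)) := Finset.univ.filter fun x =>
    ∃ k κ j, x = (Sum.inl k, Sum.inr κ) ∧ L.cl κ = some j ∧ Q.EW k j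
  have m1 : ∀ x, x ∈ A1 → ∃ k, x = (Sum.inr ρε, Sum.inl k) := by
    intro x hx
    obtain ⟨k, -, rfl⟩ := Finset.mem_image.mp hx
    exact ⟨k, rfl⟩
  have m2 : ∀ x, x ∈ A2 → ∃ k, x = (Sum.inl k, Sum.inl k) := by
    intro x hx
    obtain ⟨k, -, rfl⟩ := Finset.mem_image.mp hx
    exact ⟨k, rfl⟩
  have m3 : ∀ x, x ∈ A3 → ∃ ρ k i, x = (Sum.inr ρ, Sum.inl k) ∧ i ≠ ε ∧ L.lab ρ = some i ∧ Q.EV i k := by
    intro x hx
    exact (Finset.mem_filter.mp hx).2
  have m4 : ∀ x, x ∈ A4 → ∃ k κ j, x = (Sum.inl k, Sum.inr κ) ∧ L.cl κ = some j ∧ Q.EW k j := by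
    intro x hx
    exact (Finset.mem_filter.mp hx).2
  have l1 : Leafy (A1 ∪ ∅) := Leafy.empty.addCols A1 (by
    intro x hx y hy hxy
    obtain ⟨k, rfl⟩ := m1 x hx
    obtain ⟨k', rfl⟩ := m1 y hy
    change (Sum.inl k : K ⊕ γ) = Sum.inl k' at hxy
    rw [hxy]) fun _ _ _ => Finset.notMem_empty _
  have l2 : Leafy (A2 ∪ (A1 ∪ ∅)) := l1.addRows A2 (by
    intro x hx y hy hxy
    obtain ⟨k, rfl⟩ := m2 x hx
    obtain ⟨k', rfl⟩ := m2 y hy
    change (Sum.inl k : K ⊕ γ) = Sum.inl k' at hxy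
    rw [hxy]) (by
    intro x hx y hy
    obtain ⟨k, rfl⟩ := m2 x hx
    rw [Finset.union_empty] at hy
    obtain ⟨k', hk'⟩ := m1 _ hy
    exact absurd (congrArg Prod.fst hk') (by simp))
  have l3 : Leafy (A3 ∪ (A2 ∪ (A1 ∪ ∅))) := l2.addRows A3 (by
    intro x hx y hy hxy
    obtain ⟨ρ, k, i, rfl, h1, h2, h3⟩ := m3 x hx
    obtain ⟨ρ', k', i', rfl, h1', h2', h3'⟩ := m3 y hy
    have e1 : ρ = ρ' := Sum.inr_injective hxy
    subst e1
    have e2 : i = i' := Option.some.inj (h2.symm.trans h2')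
    subst e2
    rw [hQ.row i k k' h1 h3 h3']) (by
    intro x hx y hy
    obtain ⟨ρ, k, i, rfl, h1, h2, h3⟩ := m3 x hx
    rw [Finset.union_empty] at hy
    rcases Finset.mem_union.mp hy with hy | hy
    · obtain ⟨k', hk'⟩ := m2 _ hy
      exact absurd (congrArg Prod.fst hk') (by simp)
    · obtain ⟨k', hk'⟩ := m1 _ hy
      have e1 : ρ = ρε := Sum.inr_injective (congrArg Prod.fst hk')
      rw [e1, hρ] at h2
      exact h1 (Option.some.inj h2).symm)
  have l4 : Leafy (A4 ∪ (A3 ∪ (A2 ∪ (A1 ∪ ∅)))) := l3.addCols A4 (by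
    intro x hx y hy hxy
    obtain ⟨k, κ, j, rfl, h2, h3⟩ := m4 x hx
    obtain ⟨k', κ', j', rfl, h2', h3'⟩ := m4 y hy
    have e1 : κ = κ' := Sum.inr_injective hxy
    subst e1
    have e2 : j = j' := Option.some.inj (h2.symm.trans h2')
    subst e2
    rw [hQ.col j k k' h3 h3']) (by
    intro x hx y hy
    obtain ⟨k, κ, j, rfl, h2, h3⟩ := m4 x hx
    rw [Finset.union_empty] at hy
    rcases Finset.mem_union.mp hy with hy | hy
    · obtain ⟨ρ', k', i', hk', -⟩ := m3 _ hy
      exact absurd (congrArg Prod.snd hk') (by simp)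
    rcases Finset.mem_union.mp hy with hy | hy
    · obtain ⟨k', hk'⟩ := m2 _ hy
      exact absurd (congrArg Prod.snd hk') (by simp)
    · obtain ⟨k', hk'⟩ := m1 _ hy
      exact absurd (congrArg Prod.snd hk') (by simp))
  have e : bigE Q L = A4 ∪ (A3 ∪ (A2 ∪ (A1 ∪ ∅))) := by
    ext ⟨x, y⟩
    rw [mem_bigE]
    simp only [Finset.mem_union, Finset.notMem_empty, or_false]
    constructor
    · intro h
      rcases x with x | x <;> rcases y with y | y
      · have : x = y := h
        subst this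
        exact Or.inr (Or.inr (Or.inl (Finset.mem_image.mpr ⟨x, Finset.mem_univ _, rfl⟩)))
      · obtain ⟨j, h1, h2⟩ := h
        exact Or.inl (Finset.mem_filter.mpr ⟨Finset.mem_univ _, x, y, j, rfl, h1, h2⟩)
      · obtain ⟨i, h1, h2⟩ := h
        by_cases hi : i = ε
        · have : x = ρε := hL.inj x ρε i h1 (hi ▸ hρ)
          subst this
          exact Or.inr (Or.inr (Or.inr (Finset.mem_image.mpr ⟨y, Finset.mem_univ _, rfl⟩)))
        · exact Or.inr (Or.inl (Finset.mem_filter.mpr ⟨Finset.mem_univ _, x, y, i, rfl, hi, h1, h2⟩))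
      · exact h.elim
    · rintro (h | h | h | h)
      · obtain ⟨k, κ, j, h1, h2, h3⟩ := m4 _ h
        obtain ⟨rfl, rfl⟩ := Prod.mk.inj h1
        exact ⟨j, h2, h3⟩
      · obtain ⟨ρ, k, i, h1, -, h2, h3⟩ := m3 _ h
        obtain ⟨rfl, rfl⟩ := Prod.mk.inj h1
        exact ⟨i, h2, h3⟩
      · obtain ⟨k, h1⟩ := m2 _ h
        obtain ⟨rfl, rfl⟩ := Prod.mk.inj h1
        rfl
      · obtain ⟨k, h1⟩ := m1 _ h
        obtain ⟨rfl, rfl⟩ := Prod.mk.inj h1
        exact ⟨ε, hρ, hQ.star k⟩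
  rw [e]
  exact l4

variable {sep : Prop} {P : Sch R → Prop} (hP : Bnd sep P)

include hP

lemma vw_ext (hG : GLGood P) {Q : VW s K t} {ε : s} (hQ : Q.Ok ε) : ExtGood (vwSp (R := R) Q) vwN P ∅ := by
  intro γ _ _ L hL
  have hE : ∀ x ∈ bigE Q L, ¬ bigZ Q L x.1 x.2 := by
    rintro ⟨x, y⟩ hx h
    rw [mem_bigE] at hx
    rcases x with x | x <;> rcases y with y | y
    · exact h hx
    · obtain ⟨j, h1, h2⟩ := hx
      exact hQ.wz x j h2 (h j h1)
    · obtain ⟨j, h1, h2⟩ := hx
      exact hQ.vz j y h2 (h j h1)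
    · exact hx
  have h1 : Good P (patSp (R := R) (bigZ Q L) (bigE Q L)) := good_pat hP (fun Z => hG _ Z) (bigE_leafy hQ hL) _ hE
  choose a ha using fun i => hL.cov i (Finset.notMem_empty i)
  choose b hb using hL.ccov
  refine h1.bij (Bij.ofFun' (fun T _ _ z => bigg L z) ?_ ?_ ?_ ?_)
  · intro T T' _ _ _ _ φ z
    funext x
    rcases x with ⟨x | x, y | y⟩
    · change (if x = y then 1 else 0) = φ (if x = y then 1 else 0)
      split_ifs
      · exact (map_one φ).symm
      · exact (map_zero φ).symm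
    · change (L.cl y).elim 0 _ = φ ((L.cl y).elim 0 _)
      rcases L.cl y with _ | j
      · exact (map_zero φ).symm
      · rfl
    · change (L.lab x).elim 0 _ = φ ((L.lab x).elim 0 _)
      rcases L.lab x with _ | j
      · exact (map_zero φ).symm
      · rfl
    · change ((L.lab x).elim 0 fun i => (L.cl y).elim 0 _) + φ _ =
        φ (((L.lab x).elim 0 fun i => (L.cl y).elim 0 _) + _)
      rw [map_add]
      congr 1
      rcases L.lab x with _ | i
      · exact (map_zero φ).symm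
      · rcases L.cl y with _ | j
        · exact (map_zero φ).symm
        · rfl
  · rintro T _ _ z z' ⟨⟨-, hz⟩, -⟩ ⟨⟨-, hz'⟩, -⟩ hzz
    have hV : ∀ i k, z (Sum.inl (Sum.inl (i, k))) = z' (Sum.inl (Sum.inl (i, k))) := by
      intro i k
      have h2 := congrFun hzz (Sum.inr (a i), Sum.inl k)
      change (L.lab (a i)).elim 0 _ = (L.lab (a i)).elim 0 _ at h2
      rw [ha i] at h2
      exact h2
    have hW : ∀ k j, z (Sum.inl (Sum.inr (Sum.inl (k, j)))) = z' (Sum.inl (Sum.inr (Sum.inl (k, j)))) := by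
      intro k j
      have h2 := congrFun hzz (Sum.inl k, Sum.inr (b j))
      change (L.cl (b j)).elim 0 _ = (L.cl (b j)).elim 0 _ at h2
      rw [hb j] at h2
      exact h2
    have hx0 : ∀ ρ κ i j, L.lab ρ = some i → L.cl κ = some j → z (Sum.inr (ρ, κ)) = 0 ∧ z' (Sum.inr (ρ, κ)) = 0 := by
      intro ρ κ i j h3 h4
      have h5 : ¬ L.Pt ρ κ := by
        intro h6
        rcases hL.free ρ κ h6 with h7 | h7
        · rw [h3] at h7
          exact absurd h7 (by simp)
        · rw [h4] at h7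
          exact absurd h7 (by simp)
      exact ⟨hz ρ κ h5, hz' ρ κ h5⟩
    funext x
    rcases x with (⟨i, k⟩ | ⟨k, j⟩ | ⟨i, j⟩) | ⟨ρ, κ⟩
    · exact hV i k
    · exact hW k j
    · have h2 := congrFun hzz (Sum.inr (a i), Sum.inr (b j))
      change ((L.lab (a i)).elim 0 fun i => (L.cl (b j)).elim 0 _) + _ =
        ((L.lab (a i)).elim 0 fun i => (L.cl (b j)).elim 0 _) + _ at h2
      obtain ⟨h3, h4⟩ := hx0 (a i) (b j) i j (ha i) (hb j)
      rw [ha i, hb j, h3, h4, add_zero, add_zero] at h2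
      exact h2
    · rcases hl : L.lab ρ with _ | i
      · have h2 := congrFun hzz (Sum.inr ρ, Sum.inr κ)
        change ((L.lab ρ).elim 0 fun i => (L.cl κ).elim 0 _) + _ =
          ((L.lab ρ).elim 0 fun i => (L.cl κ).elim 0 _) + _ at h2
        rw [hl] at h2
        simpa using h2
      · rcases hc : L.cl κ with _ | j
        · have h2 := congrFun hzz (Sum.inr ρ, Sum.inr κ)
          change ((L.lab ρ).elim 0 fun i => (L.cl κ).elim 0 _) + _ =
            ((L.lab ρ).elim 0 fun i => (L.cl κ).elim 0 _) + _ at h2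
          rw [hl, hc] at h2
          simpa using h2
        · obtain ⟨h3, h4⟩ := hx0 ρ κ i j hl hc
          rw [h3, h4]
  · rintro T _ _ z ⟨⟨⟨⟨⟨v1, v2⟩, ⟨w1, w2⟩, d1⟩, -⟩, hz⟩, hdet⟩
    refine ⟨?_, ?_, ?_⟩
    · intro x y hxy
      rcases x with x | x <;> rcases y with y | y
      · exact if_neg hxy
      · change (L.cl y).elim 0 _ = 0
        rcases hc : L.cl y with _ | j
        · rfl
        · exact w1 x j (hxy j hc)
      · change (L.lab x).elim 0 _ = 0
        rcases hc : L.lab x with _ | j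
        · rfl
        · exact v1 j y (hxy j hc)
      · change ((L.lab x).elim 0 fun i => (L.cl y).elim 0 _) + z (Sum.inr (x, y)) = 0
        obtain ⟨h3, h4⟩ := hxy
        rcases hl : L.lab x with _ | i
        · simpa using hz x y (h4 (Or.inl hl))
        · rcases hc : L.cl y with _ | j
          · simpa using hz x y (h4 (Or.inr hc))
          · have h5 : ¬ L.Pt x y := by
              intro h6
              rcases hL.free x y h6 with h7 | h7
              · rw [hl] at h7
                exact absurd h7 (by simp)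
              · rw [hc] at h7
                exact absurd h7 (by simp)
            have h6 : z (Sum.inl (Sum.inr (Sum.inr (i, j)))) = 0 := d1 i j (h3 i j hl hc)
            simp only [Option.elim_some]
            rw [h6, hz x y h5, add_zero]
    · rintro ⟨x, y⟩ hxy
      rw [mem_bigE] at hxy
      rcases x with x | x <;> rcases y with y | y
      · exact if_pos hxy
      · obtain ⟨j, h3, h4⟩ := hxy
        change (L.cl y).elim 0 _ = 1
        rw [h3]
        exact w2 x j h4
      · obtain ⟨j, h3, h4⟩ := hxy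
        change (L.lab x).elim 0 _ = 1
        rw [h3]
        exact v2 j y h4
      · exact hxy.elim
    · rw [det_bigg (R := R)]
      exact hdet
  · rintro T _ _ w ⟨w0, w1, wdet⟩
    have w1' : ∀ x y, bigP Q L x y → w (x, y) = 1 := fun x y h => w1 _ ((mem_bigE Q L x y).mpr h)
    classical
    let z : VWc s K t ⊕ γ × γ → T := Sum.elim (Sum.elim (fun x => w (Sum.inr (a x.1), Sum.inl x.2))
      (Sum.elim (fun x => w (Sum.inl x.1, Sum.inr (b x.2))) fun x => w (Sum.inr (a x.1), Sum.inr (b x.2))))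
      fun x => if L.lab x.1 = none ∨ L.cl x.2 = none then w (Sum.inr x.1, Sum.inr x.2) else 0
    have e : w = bigg L z := by
      funext x
      rcases x with ⟨x | x, y | y⟩
      · change _ = if x = y then 1 else 0
        split_ifs with h
        · exact w1' _ _ h
        · exact w0 _ _ h
      · change _ = (L.cl y).elim 0 fun j => w (Sum.inl x, Sum.inr (b j))
        rcases hc : L.cl y with _ | j
        · exact w0 _ _ fun j h => absurd (hc.symm.trans h) (by simp)
        · rw [hL.cinj y (b j) j hc (hb j)]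
          rfl
      · change _ = (L.lab x).elim 0 fun j => w (Sum.inr (a j), Sum.inl y)
        rcases hc : L.lab x with _ | j
        · exact w0 _ _ fun j h => absurd (hc.symm.trans h) (by simp)
        · rw [hL.inj x (a j) j hc (ha j)]
          rfl
      · change _ = ((L.lab x).elim 0 fun i => (L.cl y).elim 0 fun j => w (Sum.inr (a i), Sum.inr (b j))) +
          if L.lab x = none ∨ L.cl y = none then w (Sum.inr x, Sum.inr y) else 0
        rcases hl : L.lab x with _ | i
        · simp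
        · rcases hc : L.cl y with _ | j
          · simp
          · rw [hL.inj x (a i) i hl (ha i), hL.cinj y (b j) j hc (hb j)]
            simp
    refine ⟨z, ⟨⟨⟨⟨⟨?_, ?_⟩, ⟨?_, ?_⟩, ?_⟩, ?_⟩, ?_⟩, ?_⟩, e⟩
    · intro i k h
      refine w0 (Sum.inr (a i)) (Sum.inl k) fun i' h' => ?_
      rw [← Option.some.inj ((ha i).symm.trans h')]
      exact h
    · intro i k h
      exact w1' (Sum.inr (a i)) (Sum.inl k) ⟨i, ha i, h⟩
    · intro k j h
      refine w0 (Sum.inl k) (Sum.inr (b j)) fun j' h' => ?_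
      rw [← Option.some.inj ((hb j).symm.trans h')]
      exact h
    · intro k j h
      exact w1' (Sum.inl k) (Sum.inr (b j)) ⟨j, hb j, h⟩
    · intro i j h
      refine w0 (Sum.inr (a i)) (Sum.inr (b j)) ⟨fun i' j' h' h'' => ?_, ?_⟩
      · rw [← Option.some.inj ((ha i).symm.trans h'), ← Option.some.inj ((hb j).symm.trans h'')]
        exact h
      · rintro (h' | h')
        · rw [ha i] at h'
          exact absurd h' (by simp)
        · rw [hb j] at h'
          exact absurd h' (by simp)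
    · intro i hi
      exact absurd hi (Finset.notMem_empty i)
    · intro ρ κ h
      change (if L.lab ρ = none ∨ L.cl κ = none then w (Sum.inr ρ, Sum.inr κ) else 0) = 0
      split_ifs with h3
      · refine w0 (Sum.inr ρ) (Sum.inr κ) ⟨fun i j h4 h5 => ?_, fun _ => h⟩
        rcases h3 with h3 | h3
        · rw [h3] at h4
          exact absurd h4 (by simp)
        · rw [h3] at h5
          exact absurd h5 (by simp)
      · rfl
    · rw [e, det_bigg (R := R)] at wdet
      exact wdet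

/-- **The pairs of sparse matrices `V`, `W` with a sparse product are good**: here `D = V W`. -/
theorem good_vw (hG : GLGood P) {Q : VW s K t} {ε : s} (hQ : Q.Ok ε) :
    Good P (rowsZero (vwSp (R := R) Q) vwN Finset.univ) :=
  good_vanish _ _ hP (vw_ext hP hG hQ)

end vw

end Pool.Agent.P8H64.GH
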