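import Pool.Agent.Z125.UN.Bnd

/-!
# Subfunctors of affine spaces and properties closed under closed-open decompositions

A space is a subfunctor of an affine space on the algebras over `R`. `Good P F` says that `F` is represented by an
algebra of finite type with the property `P`.
-/

set_option autoImplicit false

open CategoryTheory AlgebraicGeometry MvPolynomial Pool.Agent.Y116.UV Pool.Agent.Z125.UN

namespace Pool.Agent.P8H64.GH

/-- a subfunctor of the affine space with the coordinates `σ` -/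
structure Sp (R : Type) [CommRing R] (σ : Type) where
  /-- the points over an algebra -/
  C : ∀ (T : Type) [CommRing T] [Algebra R T], (σ → T) → Prop
  nat : ∀ {T T' : Type} [CommRing T] [Algebra R T] [CommRing T'] [Algebra R T'] (φ : T →ₐ[R] T')
    (v : σ → T), C T v → C T' (fun s => φ (v s))

/-- a function on the affine space with the coordinates `σ` -/
structure Fn (R : Type) [CommRing R] (σ : Type) where
  /-- the value of the function at a point -/
  val : ∀ (T : Type) [CommRing T] [Algebra R T], (σ → T) → T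
  nat : ∀ {T T' : Type} [CommRing T] [Algebra R T] [CommRing T'] [Algebra R T'] (φ : T →ₐ[R] T')
    (v : σ → T), val T' (fun s => φ (v s)) = φ (val T v)

variable {R : Type} [CommRing R] {σ τ : Type}

/-- `A` represents `F`, with the universal point `u` -/
structure Reps (F : Sp R σ) (A : Type) [CommRing A] [Algebra R A] (u : σ → A) : Prop where
  mem : F.C A u
  ex : ∀ (T : Type) [CommRing T] [Algebra R T] (v : σ → T), F.C T v → ∃ φ : A →ₐ[R] T, ∀ s, φ (u s) = v s
  uniq : ∀ (T : Type) [CommRing T] [Algebra R T] (φ ψ : A →ₐ[R] T), (∀ s, φ (u s) = ψ (u s)) → φ = ψ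

lemma Reps.equiv {F : Sp R σ} {A B : Type} [CommRing A] [Algebra R A] [CommRing B] [Algebra R B]
    {u : σ → A} {w : σ → B} (hA : Reps F A u) (hB : Reps F B w) : Nonempty (A ≃ₐ[R] B) := by
  obtain ⟨φ, hφ⟩ := hA.ex B w hB.mem
  obtain ⟨ψ, hψ⟩ := hB.ex A u hA.mem
  refine ⟨AlgEquiv.ofAlgHom φ ψ ?_ ?_⟩
  · exact hB.uniq B _ _ fun s => by simp [hψ, hφ]
  · exact hA.uniq A _ _ fun s => by simp [hψ, hφ]

/-- `F` is represented by an algebra of finite type with the property `P`. -/
def Good (P : Sch R → Prop) (F : Sp R σ) : Prop :=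
  ∃ (A : Type) (_ : CommRing A) (_ : Algebra R A) (_ : Algebra.FiniteType R A) (u : σ → A),
    Reps F A u ∧ P (aff R A)

/-- Two spaces in bijection by a natural relation. -/
structure Bij (F : Sp R σ) (G : Sp R τ) where
  /-- the relation -/
  rel : ∀ (T : Type) [CommRing T] [Algebra R T], (σ → T) → (τ → T) → Prop
  nat : ∀ {T T' : Type} [CommRing T] [Algebra R T] [CommRing T'] [Algebra R T'] (φ : T →ₐ[R] T')
    (v : σ → T) (w : τ → T), F.C T v → G.C T w → rel T v w →
      rel T' (fun s => φ (v s)) (fun s => φ (w s))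
  right : ∀ {T : Type} [CommRing T] [Algebra R T] (v : σ → T), F.C T v → ∃ w, G.C T w ∧ rel T v w
  left : ∀ {T : Type} [CommRing T] [Algebra R T] (w : τ → T), G.C T w → ∃ v, F.C T v ∧ rel T v w
  injr : ∀ {T : Type} [CommRing T] [Algebra R T] (v : σ → T) (w w' : τ → T), F.C T v → G.C T w →
    G.C T w' → rel T v w → rel T v w' → w = w'
  injl : ∀ {T : Type} [CommRing T] [Algebra R T] (v v' : σ → T) (w : τ → T), F.C T v → F.C T v' →
    G.C T w → rel T v w → rel T v' w → v = v'

lemma Reps.bij {F : Sp R σ} {G : Sp R τ} (e : Bij F G) {A : Type} [CommRing A] [Algebra R A]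
    {u : σ → A} (hA : Reps F A u) : ∃ w : τ → A, Reps G A w := by
  obtain ⟨w, hw, hr⟩ := e.right u hA.mem
  refine ⟨w, hw, ?_, ?_⟩
  · intro T _ _ x hx
    obtain ⟨v, hv, hvx⟩ := e.left x hx
    obtain ⟨φ, hφ⟩ := hA.ex T v hv
    refine ⟨φ, ?_⟩
    have h1 := e.nat φ u w hA.mem hw hr
    have h2 : (fun s => φ (u s)) = v := funext hφ
    rw [h2] at h1
    exact fun s => congrFun (e.injr v _ x hv (G.nat φ w hw) hx h1 hvx) s
  · intro T _ _ φ ψ h
    have h1 := e.nat φ u w hA.mem hw hr
    have h2 := e.nat ψ u w hA.mem hw hr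
    have h3 : (fun s => φ (w s)) = fun s => ψ (w s) := funext h
    rw [← h3] at h2
    have h4 := e.injl _ _ _ (F.nat φ u hA.mem) (F.nat ψ u hA.mem) (G.nat φ w hw) h1 h2
    exact hA.uniq T φ ψ fun s => congrFun h4 s

lemma Good.bij {P : Sch R → Prop} {F : Sp R σ} {G : Sp R τ} (e : Bij F G) (h : Good P F) : Good P G := by
  obtain ⟨A, _, _, _, u, hu, hP⟩ := h
  obtain ⟨w, hw⟩ := hu.bij e
  exact ⟨A, _, _, ‹_›, w, hw, hP⟩

/-- Equal spaces -/
def Bij.ofIff (F G : Sp R σ) (h : ∀ (T : Type) [CommRing T] [Algebra R T] (v : σ → T), F.C T v ↔ G.C T v) :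
    Bij F G where
  rel T _ _ v w := v = w
  nat φ v w _ _ h := by rw [h]
  right v hv := ⟨v, (h _ v).mp hv, rfl⟩
  left v hv := ⟨v, (h _ v).mpr hv, rfl⟩
  injr v w w' _ _ _ h1 h2 := h1.symm.trans h2
  injl v v' w _ _ _ h1 h2 := h1.trans h2.symm

lemma Good.congr {P : Sch R → Prop} {F G : Sp R σ} (hF : Good P F)
    (h : ∀ (T : Type) [CommRing T] [Algebra R T] (v : σ → T), F.C T v ↔ G.C T v) : Good P G :=
  hF.bij (Bij.ofIff F G h)

/-- the part where `h` vanishes -/
def Sp.zero (F : Sp R σ) (h : Fn R σ) : Sp R σ where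
  C T _ _ v := F.C T v ∧ h.val T v = 0
  nat φ v hv := ⟨F.nat φ v hv.1, by rw [h.nat, hv.2, map_zero]⟩

/-- the part where `h` is a unit -/
def Sp.unit (F : Sp R σ) (h : Fn R σ) : Sp R σ where
  C T _ _ v := F.C T v ∧ IsUnit (h.val T v)
  nat φ v hv := ⟨F.nat φ v hv.1, by rw [h.nat]; exact hv.2.map φ⟩

/-- the part where all `h i` vanish -/
def Sp.zeros (F : Sp R σ) {ι : Type} (h : ι → Fn R σ) : Sp R σ where
  C T _ _ v := F.C T v ∧ ∀ i, (h i).val T v = 0
  nat φ v hv := ⟨F.nat φ v hv.1, fun i => by rw [(h i).nat, hv.2 i, map_zero]⟩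

lemma Fn.apply (h : Fn R σ) {T T' : Type} [CommRing T] [Algebra R T] [CommRing T'] [Algebra R T']
    (φ : T →ₐ[R] T') {v : σ → T} {w : σ → T'} (hw : ∀ s, φ (v s) = w s) : φ (h.val T v) = h.val T' w := by
  rw [← h.nat]
  congr 1
  exact funext hw

lemma reps_zeros {F : Sp R σ} {A : Type} [CommRing A] [Algebra R A] {u : σ → A} (hA : Reps F A u)
    {ι : Type} (h : ι → Fn R σ) :
    Reps (F.zeros h) (A ⧸ Ideal.span (Set.range fun i => (h i).val A u))
      (fun s => Ideal.Quotient.mkₐ R _ (u s)) := by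
  refine ⟨⟨F.nat _ u hA.mem, fun i => ?_⟩, ?_, ?_⟩
  · rw [(h i).nat]
    exact Ideal.Quotient.eq_zero_iff_mem.mpr (Ideal.subset_span ⟨i, rfl⟩)
  · intro T _ _ v hv
    obtain ⟨φ, hφ⟩ := hA.ex T v hv.1
    refine ⟨Ideal.Quotient.liftₐ _ φ (fun a ha => ?_), fun s => hφ s⟩
    have h1 : Ideal.span (Set.range fun i => (h i).val A u) ≤ RingHom.ker φ := by
      rw [Ideal.span_le]
      rintro _ ⟨i, rfl⟩
      change φ ((h i).val A u) = 0
      rw [(h i).apply φ hφ, hv.2 i]
    exact h1 ha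
  · intro T _ _ φ ψ h1
    apply Ideal.Quotient.algHom_ext
    exact hA.uniq T _ _ h1

lemma reps_zero {F : Sp R σ} {A : Type} [CommRing A] [Algebra R A] {u : σ → A} (hA : Reps F A u)
    (h : Fn R σ) :
    Reps (F.zero h) (A ⧸ Ideal.span {h.val A u}) (fun s => Ideal.Quotient.mkₐ R _ (u s)) := by
  refine ⟨⟨F.nat _ u hA.mem, ?_⟩, ?_, ?_⟩
  · rw [h.nat]
    exact Ideal.Quotient.eq_zero_iff_mem.mpr (Ideal.mem_span_singleton_self _)
  · intro T _ _ v hv
    obtain ⟨φ, hφ⟩ := hA.ex T v hv.1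
    refine ⟨Ideal.Quotient.liftₐ _ φ (fun a ha => ?_), fun s => hφ s⟩
    have h1 : Ideal.span {h.val A u} ≤ RingHom.ker φ := by
      rw [Ideal.span_le]
      rintro _ rfl
      change φ (h.val A u) = 0
      rw [h.apply φ hφ, hv.2]
    exact h1 ha
  · intro T _ _ φ ψ h1
    apply Ideal.Quotient.algHom_ext
    exact hA.uniq T _ _ h1

lemma reps_unit {F : Sp R σ} {A : Type} [CommRing A] [Algebra R A] {u : σ → A} (hA : Reps F A u)
    (h : Fn R σ) :
    Reps (F.unit h) (Localization.Away (h.val A u))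
      (fun s => IsScalarTower.toAlgHom R A (Localization.Away (h.val A u)) (u s)) := by
  refine ⟨⟨F.nat _ u hA.mem, ?_⟩, ?_, ?_⟩
  · rw [h.nat]
    exact IsLocalization.Away.algebraMap_isUnit (h.val A u)
  · intro T _ _ v hv
    obtain ⟨φ, hφ⟩ := hA.ex T v hv.1
    have h1 : IsUnit (φ (h.val A u)) := by
      rw [h.apply φ hφ]
      exact hv.2
    have h2 : ∀ y : Submonoid.powers (h.val A u), IsUnit (φ y) := by
      rintro ⟨_, n, rfl⟩
      rw [map_pow]
      exact h1.pow n
    refine ⟨IsLocalization.liftAlgHom (M := Submonoid.powers (h.val A u)) (f := φ) h2, fun s => ?_⟩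
    rw [← hφ s]
    exact IsLocalization.lift_eq _ _
  · intro T _ _ φ ψ h1
    have h2 : φ.comp (IsScalarTower.toAlgHom R A (Localization.Away (h.val A u))) =
        ψ.comp (IsScalarTower.toAlgHom R A (Localization.Away (h.val A u))) := hA.uniq T _ _ h1
    apply AlgHom.coe_ringHom_injective
    apply IsLocalization.ringHom_ext (Submonoid.powers (h.val A u))
    exact congrArg AlgHom.toRingHom h2

section good

variable {sep : Prop} {P : Sch R → Prop} (hP : Bnd sep P) {F : Sp R σ}

include hP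

lemma Reps.good {A : Type} [CommRing A] [Algebra R A] [Algebra.FiniteType R A] {u : σ → A}
    (hA : Reps F A u) (h : Good P F) : P (aff R A) := by
  obtain ⟨B, _, _, _, w, hw, hB⟩ := h
  obtain ⟨e⟩ := hw.equiv hA
  exact iso_alg hP.toUni e hB

lemma good_zero (h : Fn R σ) (hF : Good P F) (hu : Good P (F.unit h)) : Good P (F.zero h) := by
  obtain ⟨A, _, _, _, u, hA, hPA⟩ := hF
  refine ⟨_, _, _, inferInstance, _, reps_zero hA h, ?_⟩
  have : Algebra.FiniteType R (Localization.Away (h.val A u)) :=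
    Algebra.FiniteType.trans (S := A) inferInstance inferInstance
  exact hP.closed _ _ (ft_aff sep) (triple_away (h.val A u)) hPA ((reps_unit hA h).good hP hu)

lemma good_unit (h : Fn R σ) (hF : Good P F) (hz : Good P (F.zero h)) : Good P (F.unit h) := by
  obtain ⟨A, _, _, _, u, hA, hPA⟩ := hF
  have : Algebra.FiniteType R (Localization.Away (h.val A u)) :=
    Algebra.FiniteType.trans (S := A) inferInstance inferInstance
  refine ⟨_, _, _, this, _, reps_unit hA h, ?_⟩
  exact hP.opened _ _ (ft_aff sep) (triple_away (h.val A u)) ((reps_zero hA h).good hP hz) hPA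

end good

end Pool.Agent.P8H64.GH
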