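import Pool.Agent.P8H64.GH.Forest

/-!
# From symmetric matrices with free diagonals (split graphs) to invertible matrices with prescribed zeros
-/

set_option autoImplicit false
set_option linter.unusedVariables false
set_option linter.unusedSectionVars false

open Matrix Pool.Agent.Y116.UV Pool.Agent.Z125.UN

namespace Pool.Agent.P8H64.GH

variable {R : Type} [CommRing R]

/-- the inverse bijection -/
def Bij.symm {σ τ : Type} {F : Sp R σ} {G : Sp R τ} (e : Bij F G) : Bij G F where
  rel T _ _ w v := e.rel T v w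
  nat φ w v hw hv h := e.nat φ v w hv hw h
  right w hw := e.left w hw
  left v hv := e.right v hv
  injr w v v' hw hv hv' h h' := e.injl v v' w hv hv' hw h h'
  injl w w' v hw hw' hv h h' := e.injr v w w' hv hw hw' h h'

section split

variable {γ κ : Type} [Fintype γ] [DecidableEq γ] [Fintype κ] [DecidableEq κ]

/-- symmetric matrices `[[A, X], [Xᵗ, Δ]]` with `A` arbitrary, `X` zero at the places of `Z`, and `Δ` diagonal,
with zeros at the places of `J` -/
def splitSp (Z : γ → κ → Prop) (J : Finset κ) : Sp R ((γ ⊕ κ) × (γ ⊕ κ)) where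
  C T _ _ v := (∀ p q, v (p, q) = v (q, p)) ∧ (∀ i k, Z i k → v (Sum.inl i, Sum.inr k) = 0) ∧
    (∀ k k', k ≠ k' → v (Sum.inr k, Sum.inr k') = 0) ∧ (∀ k ∈ J, v (Sum.inr k, Sum.inr k) = 0) ∧
    IsUnit (cM T v).det
  nat {T T'} _ _ _ _ φ v hv := ⟨fun p q => congrArg φ (hv.1 p q),
    fun i k h => (congrArg φ (hv.2.1 i k h)).trans (map_zero φ),
    fun i k h => (congrArg φ (hv.2.2.1 i k h)).trans (map_zero φ),
    fun k h => (congrArg φ (hv.2.2.2.1 k h)).trans (map_zero φ), by
      have h := hv.2.2.2.2.map (φ : T →+* T')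
      rw [← cM_map] at h
      exact h⟩

/-- the new column -/
noncomputable def xi {T : Type} [Zero T] (Z : γ → κ → Prop) (k : κ) (y : {i : γ // ¬ Z i k} → T) : γ ⊕ κ → T := by
  classical
  exact Sum.elim (fun i => if h : Z i k then 0 else y ⟨i, h⟩) fun _ => 0

/-- the unit vector -/
def eta {T : Type} [CommRing T] (k : κ) : γ ⊕ κ → T := fun p => if p = Sum.inr k then 1 else 0

lemma xi_inr {T : Type} [Zero T] (Z : γ → κ → Prop) (k : κ) (y : {i : γ // ¬ Z i k} → T) (k' : κ) :
    xi Z k y (Sum.inr k') = 0 := rfl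

lemma xi_pos {T : Type} [Zero T] (Z : γ → κ → Prop) (k : κ) (y : {i : γ // ¬ Z i k} → T) (i : γ) (h : Z i k) :
    xi Z k y (Sum.inl i) = 0 := dif_pos h

lemma xi_neg {T : Type} [Zero T] (Z : γ → κ → Prop) (k : κ) (y : {i : γ // ¬ Z i k} → T) (i : γ) (h : ¬ Z i k) :
    xi Z k y (Sum.inl i) = y ⟨i, h⟩ := dif_neg h

lemma eta_inl {T : Type} [CommRing T] (k : κ) (i : γ) : (eta k : γ ⊕ κ → T) (Sum.inl i) = 0 := by simp [eta]

lemma eta_self {T : Type} [CommRing T] (k : κ) : (eta k : γ ⊕ κ → T) (Sum.inr k) = 1 := by simp [eta]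

lemma eta_ne {T : Type} [CommRing T] {k k' : κ} (h : k' ≠ k) : (eta k : γ ⊕ κ → T) (Sum.inr k') = 0 := by
  simp [eta, h]

/-- the determinant is not changed -/
lemma det_split {T : Type} [CommRing T] (Z : γ → κ → Prop) (k : κ) (y : {i : γ // ¬ Z i k} → T)
    (w : (γ ⊕ κ) × (γ ⊕ κ) → T) (δ d : T) (hd : δ * d = 1) (hs : ∀ p q, w (p, q) = w (q, p))
    (hrow : ∀ q, w (Sum.inr k, q) = δ * eta k q) :
    (cM T fun pq => w pq + (xi Z k y pq.1 * eta k pq.2 + eta k pq.1 * xi Z k y pq.2) +
      d * (xi Z k y pq.1 * xi Z k y pq.2)).det = (cM T w).det := by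
  let L : Matrix (γ ⊕ κ) (γ ⊕ κ) T := 1 + replicateCol Unit (xi Z k y) * replicateRow Unit (fun q => d * eta k q)
  have hL : L.det = 1 := by
    rw [det_one_add_replicateCol_mul_replicateRow]
    have : (fun q => d * eta k q) ⬝ᵥ xi Z k y = 0 := by
      rw [dotProduct]
      apply Finset.sum_eq_zero
      rintro (q | q) _
      · change d * eta k (Sum.inl q) * _ = 0
        rw [eta_inl, mul_zero, zero_mul]
      · rw [xi_inr, mul_zero]
    rw [this, add_zero]
  have hLa : ∀ p q, L p q = (if p = q then 1 else 0) + xi Z k y p * (d * eta k q) := by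
    intro p q
    simp [L, Matrix.add_apply, Matrix.one_apply, Matrix.mul_apply]
  have e1 : ∀ p q, (L * cM T w) p q = w (p, q) + xi Z k y p * eta k q := by
    intro p q
    rw [Matrix.mul_apply]
    simp only [hLa, add_mul, Finset.sum_add_distrib, ite_mul, one_mul, zero_mul, Finset.sum_ite_eq, Finset.mem_univ,
      if_true, cM_apply]
    congr 1
    rw [Finset.sum_eq_single (Sum.inr k)]
    · rw [eta_self, hrow]
      linear_combination (xi Z k y p * eta k q) * hd
    · intro r _ hr
      have : (eta k r : T) = 0 := by simp [eta, hr]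
      rw [this]
      ring
    · intro h
      exact absurd (Finset.mem_univ _) h
  have e2 : (cM T fun pq => w pq + (xi Z k y pq.1 * eta k pq.2 + eta k pq.1 * xi Z k y pq.2) +
      d * (xi Z k y pq.1 * xi Z k y pq.2)) = L * cM T w * Lᵀ := by
    ext p q
    rw [Matrix.mul_apply]
    simp only [Matrix.transpose_apply, hLa, e1, mul_add, Finset.sum_add_distrib, mul_ite, mul_one, mul_zero,
      Finset.sum_ite_eq, Finset.mem_univ, if_true, cM_apply]
    rw [Finset.sum_eq_single (Sum.inr k)]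
    · rw [eta_self, hs p (Sum.inr k), hrow]
      linear_combination -(xi Z k y q * eta k p) * hd
    · intro r _ hr
      have : (eta k r : T) = 0 := by simp [eta, hr]
      rw [this]
      ring
    · intro h
      exact absurd (Finset.mem_univ _) h
  rw [e2, det_mul, det_mul, det_transpose, hL, one_mul, mul_one]

/-- the new matrix -/
noncomputable def spl {T : Type} [CommRing T] (Z : γ → κ → Prop) (k : κ) (y : {i : γ // ¬ Z i k} → T) (d : T)
    (w : (γ ⊕ κ) × (γ ⊕ κ) → T) : (γ ⊕ κ) × (γ ⊕ κ) → T :=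
  fun pq => w pq + (xi Z k y pq.1 * eta k pq.2 + eta k pq.1 * xi Z k y pq.2) + d * (xi Z k y pq.1 * xi Z k y pq.2)

lemma spl_rr {T : Type} [CommRing T] (Z : γ → κ → Prop) (k : κ) (y : {i : γ // ¬ Z i k} → T) (d : T)
    (w : (γ ⊕ κ) × (γ ⊕ κ) → T) (a b : κ) : spl Z k y d w (Sum.inr a, Sum.inr b) = w (Sum.inr a, Sum.inr b) := by
  change w (Sum.inr a, Sum.inr b) + (xi Z k y (Sum.inr a) * eta k (Sum.inr b) +
    eta k (Sum.inr a) * xi Z k y (Sum.inr b)) + d * (xi Z k y (Sum.inr a) * xi Z k y (Sum.inr b)) = _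
  rw [xi_inr, xi_inr]
  ring

lemma spl_lr {T : Type} [CommRing T] (Z : γ → κ → Prop) (k : κ) (y : {i : γ // ¬ Z i k} → T) (d : T)
    (w : (γ ⊕ κ) × (γ ⊕ κ) → T) (i : γ) (b : κ) :
    spl Z k y d w (Sum.inl i, Sum.inr b) =
      w (Sum.inl i, Sum.inr b) + xi Z k y (Sum.inl i) * eta k (Sum.inr b : γ ⊕ κ) := by
  change w (Sum.inl i, Sum.inr b) + (xi Z k y (Sum.inl i) * eta k (Sum.inr b) +
    eta k (Sum.inl i) * xi Z k y (Sum.inr b)) + d * (xi Z k y (Sum.inl i) * xi Z k y (Sum.inr b)) = _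
  rw [xi_inr]
  ring

lemma spl_lrk {T : Type} [CommRing T] (Z : γ → κ → Prop) (k : κ) (y : {i : γ // ¬ Z i k} → T) (d : T)
    (w : (γ ⊕ κ) × (γ ⊕ κ) → T) (i : γ) :
    spl Z k y d w (Sum.inl i, Sum.inr k) = w (Sum.inl i, Sum.inr k) + xi Z k y (Sum.inl i) := by
  rw [spl_lr, eta_self, mul_one]

lemma spl_lr_ne {T : Type} [CommRing T] (Z : γ → κ → Prop) (k : κ) (y : {i : γ // ¬ Z i k} → T) (d : T)
    (w : (γ ⊕ κ) × (γ ⊕ κ) → T) (i : γ) {b : κ} (hb : b ≠ k) :
    spl Z k y d w (Sum.inl i, Sum.inr b) = w (Sum.inl i, Sum.inr b) := by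
  rw [spl_lr, eta_ne hb, mul_zero, add_zero]

lemma spl_symm {T : Type} [CommRing T] (Z : γ → κ → Prop) (k : κ) (y : {i : γ // ¬ Z i k} → T) (d : T)
    (w : (γ ⊕ κ) × (γ ⊕ κ) → T) (hw : ∀ p q, w (p, q) = w (q, p)) (p q : γ ⊕ κ) :
    spl Z k y d w (p, q) = spl Z k y d w (q, p) := by
  change w (p, q) + (xi Z k y p * eta k q + eta k p * xi Z k y q) + d * (xi Z k y p * xi Z k y q) =
    w (q, p) + (xi Z k y q * eta k p + eta k q * xi Z k y p) + d * (xi Z k y q * xi Z k y p)
  rw [hw p q]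
  ring

lemma unit_of_row {T : Type} [CommRing T] {ι : Type} [Fintype ι] [DecidableEq ι] (M : Matrix ι ι T) (i : ι)
    (hM : IsUnit M.det) (h : ∀ j, j ≠ i → M i j = 0) : IsUnit (M i i) := by
  have h1 := congrFun (congrFun (Matrix.mul_nonsing_inv M hM) i) i
  rw [Matrix.mul_apply, Matrix.one_apply_eq, Finset.sum_eq_single i] at h1
  · exact IsUnit.of_mul_eq_one _ h1
  · intro j _ hj
    rw [h j hj, zero_mul]
  · intro hn
    exact absurd (Finset.mem_univ _) hn

/-- the zeros of the new space -/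
def zcol (Z : γ → κ → Prop) (k : κ) : γ → κ → Prop := fun i k' => Z i k' ∨ k' = k

lemma spl_mem {T : Type} [CommRing T] [Algebra R T] (Z : γ → κ → Prop) (J : Finset κ) (k : κ)
    (y : {i : γ // ¬ Z i k} → T) (δ d : T) (w : (γ ⊕ κ) × (γ ⊕ κ) → T) (hd : δ * d = 1)
    (hw : (splitSp (R := R) (zcol Z k) J).C T w) (hδ : w (Sum.inr k, Sum.inr k) = δ) :
    (splitSp (R := R) Z J).C T (spl Z k y d w) := by
  obtain ⟨h1, h2, h3, h4, h5⟩ := hw
  refine ⟨spl_symm Z k y d w h1, ?_, ?_, ?_, ?_⟩
  · intro i a ha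
    by_cases hak : a = k
    · subst hak
      rw [spl_lrk, h2 i a (Or.inl ha), xi_pos _ _ _ _ ha, add_zero]
    · rw [spl_lr_ne _ _ _ _ _ _ hak]
      exact h2 i a (Or.inl ha)
  · intro a b hab
    rw [spl_rr]
    exact h3 a b hab
  · intro a ha
    rw [spl_rr]
    exact h4 a ha
  · have h6 := det_split Z k y w δ d hd h1 ?_
    · rw [← h6] at h5
      exact h5
    · rintro (i | b)
      · rw [eta_inl, mul_zero, h1]
        exact h2 i k (Or.inr rfl)
      · by_cases hb : b = k
        · subst hb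
          rw [eta_self, mul_one]
          exact hδ
        · rw [eta_ne hb, mul_zero]
          exact h3 k b (Ne.symm hb)

lemma xi_map {T T' : Type} [CommRing T] [CommRing T'] [Algebra R T] [Algebra R T'] (φ : T →ₐ[R] T') (Z : γ → κ → Prop)
    (k : κ) (y : {i : γ // ¬ Z i k} → T) (p : γ ⊕ κ) : xi Z k (fun s => φ (y s)) p = φ (xi Z k y p) := by
  rcases p with i | b
  · by_cases h : Z i k
    · rw [xi_pos _ _ _ _ h, xi_pos _ _ _ _ h, map_zero]
    · rw [xi_neg _ _ _ _ h, xi_neg _ _ _ _ h]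
  · rw [xi_inr, xi_inr, map_zero]

lemma eta_map {T T' : Type} [CommRing T] [CommRing T'] [Algebra R T] [Algebra R T'] (φ : T →ₐ[R] T')
    (k : κ) (p : γ ⊕ κ) : (eta k p : T') = φ (eta k p) := by
  unfold eta
  split_ifs
  · rw [map_one]
  · rw [map_zero]

/-- the bijection -/
def splBij (Z : γ → κ → Prop) (J : Finset κ) (k : κ) (hk : k ∉ J) :
    Bij ((splitSp (R := R) (zcol Z k) J).aff {i : γ // ¬ Z i k}) ((splitSp (R := R) Z J).unit (Fn.co (Sum.inr k, Sum.inr k))) where
  rel T _ _ z w := ∃ d, z (Sum.inl (Sum.inr k, Sum.inr k)) * d = 1 ∧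
    w = spl Z k (fun i => z (Sum.inr i)) d fun pq => z (Sum.inl pq)
  nat φ z w hz hw h := by
    obtain ⟨d, h1, h2⟩ := h
    refine ⟨φ d, by rw [← map_mul, h1, map_one], ?_⟩
    subst h2
    funext pq
    change φ (spl Z k (fun i => z (Sum.inr i)) d (fun pq => z (Sum.inl pq)) pq) = _
    unfold spl
    simp only [map_add, map_mul]
    rw [xi_map φ, xi_map φ, ← eta_map φ, ← eta_map φ]
  right {T} _ _ z hz := by
    have h1 : IsUnit (z (Sum.inl (Sum.inr k, Sum.inr k))) := by
      refine unit_of_row (cM T fun pq => z (Sum.inl pq)) (Sum.inr k) hz.2.2.2.2 ?_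
      rintro (i | b) hb
      · exact (hz.1 (Sum.inr k) (Sum.inl i)).trans (hz.2.1 i k (Or.inr rfl))
      · exact hz.2.2.1 k b fun h => hb (by rw [h])
    obtain ⟨u, hu⟩ := h1
    have hd : (u : T) * ↑u⁻¹ = 1 := u.mul_inv
    refine ⟨spl Z k (fun i => z (Sum.inr i)) ↑u⁻¹ fun pq => z (Sum.inl pq), ⟨?_, ?_⟩, ↑u⁻¹, by rw [← hu]; exact hd, rfl⟩
    · exact spl_mem Z J k _ (u : T) (↑u⁻¹ : T) _ hd hz hu.symm
    · change IsUnit (spl Z k (fun i => z (Sum.inr i)) (↑u⁻¹ : T) (fun pq => z (Sum.inl pq)) (Sum.inr k, Sum.inr k))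
      rw [spl_rr, ← hu]
      exact u.isUnit
  left {T} _ _ w hw := by
    obtain ⟨⟨h1, h2, h3, h4, h5⟩, u, hu⟩ := hw
    have hu' : (u : T) = w (Sum.inr k, Sum.inr k) := hu
    have hd : (u : T) * ↑u⁻¹ = 1 := u.mul_inv
    let y : {i : γ // ¬ Z i k} → T := fun i => w (Sum.inl i.1, Sum.inr k)
    let x : (γ ⊕ κ) × (γ ⊕ κ) → T := fun pq => w pq - (xi Z k y pq.1 * eta k pq.2 + eta k pq.1 * xi Z k y pq.2) -
      ↑u⁻¹ * (xi Z k y pq.1 * xi Z k y pq.2)
    have hx : w = spl Z k y ↑u⁻¹ x := by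
      funext pq
      simp only [spl, x]
      ring
    have x1 : ∀ p q, x (p, q) = x (q, p) := by
      intro p q
      simp only [x]
      rw [h1 p q]
      ring
    have x2 : ∀ i, x (Sum.inl i, Sum.inr k) = 0 := by
      intro i
      simp only [x]
      rw [xi_inr, eta_self]
      by_cases h : Z i k
      · rw [xi_pos _ _ _ _ h, h2 i k h]
        ring
      · rw [xi_neg _ _ _ _ h]
        simp only [y]
        ring
    have x3 : ∀ i b, b ≠ k → x (Sum.inl i, Sum.inr b) = w (Sum.inl i, Sum.inr b) := by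
      intro i b hb
      simp only [x]
      rw [xi_inr, eta_ne hb]
      ring
    have x4 : ∀ a b, x (Sum.inr a, Sum.inr b) = w (Sum.inr a, Sum.inr b) := by
      intro a b
      simp only [x]
      rw [xi_inr, xi_inr]
      ring
    refine ⟨Sum.elim x y, ⟨x1, ?_, ?_, ?_, ?_⟩, ↑u⁻¹, ?_, hx⟩
    · intro i b hb
      by_cases hbk : b = k
      · subst hbk
        exact x2 i
      · change x (Sum.inl i, Sum.inr b) = 0
        rw [x3 i b hbk]
        rcases hb with hb | hb
        · exact h2 i b hb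
        · exact absurd hb hbk
    · intro a b hab
      exact (x4 a b).trans (h3 a b hab)
    · intro a ha
      exact (x4 a a).trans (h4 a ha)
    · have h6 := det_split Z k y x u ↑u⁻¹ hd x1 ?_
      · change IsUnit (cM T x).det
        rw [← h6]
        rw [hx] at h5
        exact h5
      · rintro (i | b)
        · rw [eta_inl, mul_zero, x1]
          exact x2 i
        · by_cases hb : b = k
          · subst hb
            rw [eta_self, mul_one, x4]
            exact hu'.symm
          · rw [eta_ne hb, mul_zero, x4]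
            exact h3 k b (Ne.symm hb)
    · change x (Sum.inr k, Sum.inr k) * _ = 1
      rw [x4, ← hu']
      exact hd
  injr z w w' hz _ _ h h' := by
    obtain ⟨d, h1, rfl⟩ := h
    obtain ⟨d', h1', rfl⟩ := h'
    have : d = d' := by
      calc d = (z (Sum.inl (Sum.inr k, Sum.inr k)) * d') * d := by rw [h1', one_mul]
        _ = (z (Sum.inl (Sum.inr k, Sum.inr k)) * d) * d' := by ring
        _ = d' := by rw [h1, one_mul]
    rw [this]
  injl {T} _ _ z z' w hz hz' _ h h' := by
    obtain ⟨d, h1, h2⟩ := h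
    obtain ⟨d', h1', h2'⟩ := h'
    have e0 : z (Sum.inl (Sum.inr k, Sum.inr k)) = z' (Sum.inl (Sum.inr k, Sum.inr k)) := by
      have e1 := congrFun (h2.symm.trans h2') (Sum.inr k, Sum.inr k)
      rwa [spl_rr, spl_rr] at e1
    have e1 : d = d' := by
      rw [← e0] at h1'
      calc d = (z (Sum.inl (Sum.inr k, Sum.inr k)) * d') * d := by rw [h1', one_mul]
        _ = (z (Sum.inl (Sum.inr k, Sum.inr k)) * d) * d' := by ring
        _ = d' := by rw [h1, one_mul]
    have e2 : (fun i => z (Sum.inr i)) = fun i => z' (Sum.inr i) := by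
      funext i
      have e3 := congrFun (h2.symm.trans h2') (Sum.inl i.1, Sum.inr k)
      rw [spl_lrk, spl_lrk, xi_neg _ _ _ _ i.2, xi_neg _ _ _ _ i.2] at e3
      have e4 : z (Sum.inl (Sum.inl i.1, Sum.inr k)) = 0 := hz.2.1 i.1 k (Or.inr rfl)
      have e5 : z' (Sum.inl (Sum.inl i.1, Sum.inr k)) = 0 := hz'.2.1 i.1 k (Or.inr rfl)
      rw [e4, e5, zero_add, zero_add] at e3
      exact e3
    funext s
    rcases s with pq | i
    · have e3 := congrFun (h2.symm.trans h2') pq
      rw [← e1, ← e2] at e3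
      unfold spl at e3
      linear_combination e3
    · exact congrFun e2 i

variable {sep : Prop} {P : Sch R → Prop} (hP : Bnd sep P)

include hP

theorem good_split (h : ∀ Z : γ → κ → Prop, Good P (splitSp (R := R) Z ∅)) (J : Finset κ) :
    ∀ Z : γ → κ → Prop, Good P (splitSp (R := R) Z J) := by
  induction J using Finset.induction_on with
  | empty => exact h
  | insert k J hk ih =>
    intro Z
    classical
    have h1 : Good P ((splitSp (R := R) Z J).unit (Fn.co (Sum.inr k, Sum.inr k))) :=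
      (good_aff hP _ (ih (zcol Z k))).bij (splBij Z J k hk)
    refine (good_zero hP _ (ih Z) h1).congr fun T _ _ v => ?_
    constructor
    · rintro ⟨⟨a1, a2, a3, a4, a5⟩, a6⟩
      refine ⟨a1, a2, a3, ?_, a5⟩
      intro b hb
      rcases Finset.mem_insert.mp hb with rfl | hb
      · exact a6
      · exact a4 b hb
    · rintro ⟨a1, a2, a3, a4, a5⟩
      exact ⟨⟨a1, a2, a3, fun b hb => a4 b (Finset.mem_insert_of_mem hb), a5⟩, a4 k (Finset.mem_insert_self _ _)⟩

end split

section last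

variable {γ : Type} [Fintype γ] [DecidableEq γ]

/-- the block matrix -/
def blk {T : Type} [Zero T] (z : γ × γ ⊕ Sym2 γ → T) : (γ ⊕ γ) × (γ ⊕ γ) → T
  | (Sum.inl i, Sum.inl j) => z (Sum.inr s(i, j))
  | (Sum.inl i, Sum.inr j) => z (Sum.inl (i, j))
  | (Sum.inr i, Sum.inl j) => z (Sum.inl (j, i))
  | (Sum.inr _, Sum.inr _) => 0

lemma det_blk {T : Type} [CommRing T] (z : γ × γ ⊕ Sym2 γ → T) :
    IsUnit (cM T (blk z)).det ↔ IsUnit (cM T fun p => z (Sum.inl p)).det := by
  let A : Matrix γ γ T := Matrix.of fun i j => z (Sum.inr s(i, j))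
  let X : Matrix γ γ T := cM T fun p => z (Sum.inl p)
  let S : Matrix (γ ⊕ γ) (γ ⊕ γ) T := Matrix.fromBlocks 0 1 1 0
  have e1 : cM T (blk z) = Matrix.fromBlocks A X Xᵀ 0 := by
    ext (i | i) (j | j) <;> rfl
  have e2 : S * S = 1 := by
    simp [S, Matrix.fromBlocks_multiply, Matrix.fromBlocks_one]
  have e3 : cM T (blk z) * S = Matrix.fromBlocks X A 0 Xᵀ := by
    rw [e1]
    simp [S, Matrix.fromBlocks_multiply]
  have e4 : S.det * S.det = 1 := by rw [← det_mul, e2, det_one]
  have e5 : (cM T (blk z)).det * S.det = X.det * X.det := by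
    rw [← det_mul, e3, Matrix.det_fromBlocks_zero₂₁, det_transpose]
  have hS : IsUnit S.det := IsUnit.of_mul_eq_one _ e4
  constructor
  · intro h
    have h1 : IsUnit (X.det * X.det) := by
      rw [← e5]
      exact h.mul hS
    exact isUnit_of_mul_isUnit_left h1
  · intro h
    have h1 : IsUnit ((cM T (blk z)).det * S.det) := by
      rw [e5]
      exact IsUnit.mul h h
    exact isUnit_of_mul_isUnit_left h1

/-- the bijection -/
def blkBij (Z : γ → γ → Prop) :
    Bij (splitSp (R := R) Z Finset.univ) ((patSp (R := R) Z ∅).aff (Sym2 γ)) :=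
  Bij.ofFun' (fun T _ _ z => blk z)
    (by
      intro T T' _ _ _ _ φ z
      funext ⟨p, q⟩
      rcases p with i | i <;> rcases q with j | j
      · rfl
      · rfl
      · rfl
      · exact (map_zero φ).symm)
    (by
      intro T _ _ z z' hz hz' h
      funext s
      rcases s with ⟨i, j⟩ | s
      · exact congrFun h (Sum.inl i, Sum.inr j)
      · induction s using Sym2.ind with
        | _ i j => exact congrFun h (Sum.inl i, Sum.inl j))
    (by
      rintro T _ _ z ⟨h1, _, h3⟩
      refine ⟨?_, ?_, ?_, ?_, ?_⟩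
      · intro p q
        rcases p with i | i <;> rcases q with j | j
        · change z (Sum.inr s(i, j)) = z (Sum.inr s(j, i))
          rw [Sym2.eq_swap]
        · rfl
        · rfl
        · rfl
      · intro i k h
        exact h1 i k h
      · intro _ _ _
        rfl
      · intro _ _
        rfl
      · exact (det_blk z).mpr h3)
    (by
      rintro T _ _ w ⟨h1, h2, h3, h4, h5⟩
      let x : γ × γ ⊕ Sym2 γ → T := Sum.elim (fun p => w (Sum.inl p.1, Sum.inr p.2))
        (Sym2.lift ⟨fun i j => w (Sum.inl i, Sum.inl j), fun i j => h1 _ _⟩)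
      have hx : w = blk x := by
        funext ⟨p, q⟩
        rcases p with i | i <;> rcases q with j | j
        · rfl
        · rfl
        · exact h1 _ _
        · by_cases hij : i = j
          · subst hij
            exact h4 i (Finset.mem_univ _)
          · exact h3 i j hij
      refine ⟨x, ⟨?_, ?_, ?_⟩, hx⟩
      · intro i j h
        exact h2 i j h
      · intro p hp
        exact absurd hp (Finset.notMem_empty _)
      · rw [hx] at h5
        exact (det_blk x).mp h5)

variable {sep : Prop} {P : Sch R → Prop} (hP : Bnd sep P)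

include hP

/-- **From split graphs to invertible matrices with prescribed zeros.** -/
theorem glgood_of_split (h : ∀ (γ : Type) [Fintype γ] [DecidableEq γ] (Z : γ → γ → Prop),
    Good P (splitSp (R := R) Z ∅)) : GLGood (R := R) P := fun γ _ _ Z =>
  good_of_aff hP _ ((good_split hP (h γ) Finset.univ Z).bij (blkBij Z))

end last

end Pool.Agent.P8H64.GH
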