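import Pool.Agent.P8H64.GH.Dims

/-!
# Weil-étale motivic homology of schemes over finite fields
-/

set_option autoImplicit false

open CategoryTheory AlgebraicGeometry MvPolynomial Pool.Agent.Y116.UV Pool.Agent.Z125.UN

namespace Pool.Agent.P8H64.GH.Wet

/-- an abelian group with an action of `Λ` -/
structure Mod (Λ : Type) [CommRing Λ] where
  /-- the group -/
  M : Type
  [grp : AddCommGroup M]
  [mod : Module Λ M]

attribute [instance] Mod.grp Mod.mod

variable {Λ : Type} [CommRing Λ]

/-- `A` and `B` are isomorphic. -/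
def IsEquiv (A B : Mod Λ) : Prop := Nonempty (A.M ≃ₗ[Λ] B.M)

/-- There is a surjective homomorphism from `A` to `B`. -/
def IsQuotient (A B : Mod Λ) : Prop := ∃ r : A.M →ₗ[Λ] B.M, Function.Surjective r

/-- The modules `Z i`, `X i`, `U i` form a long exact sequence. -/
def LocSeq (Z X U : ℤ → Mod Λ) : Prop :=
  ∃ (a : ∀ i, (Z i).M →ₗ[Λ] (X i).M) (b : ∀ i, (X i).M →ₗ[Λ] (U i).M) (d : ∀ i, (U (i + 1)).M →ₗ[Λ] (Z i).M),
    ∀ i, Function.Exact (a i) (b i) ∧ Function.Exact (b (i + 1)) (d i) ∧ Function.Exact (d i) (a i)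

/-- `U` is the complement of `f = 0` in `Spec A`. -/
def IsComplement {k A : Type} [CommRing k] [CommRing A] [Algebra k A] {m : ℕ} (f : Fin m → A) (U : Sch k) : Prop :=
  ∃ j : U ⟶ aff k A, IsOpenImmersion j.left ∧ Set.range j.left = {x : PrimeSpectrum A | ∃ l, f l ∉ x.asIdeal}

section seq

variable [IsNoetherianRing Λ] {A B C : Type} [AddCommGroup A] [Module Λ A] [AddCommGroup B] [Module Λ B]
  [AddCommGroup C] [Module Λ C]

lemma fin_exact (a : A →ₗ[Λ] B) (b : B →ₗ[Λ] C) (h : Function.Exact a b) (hA : Module.Finite Λ A)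
    (hC : Module.Finite Λ C) : Module.Finite Λ B := by
  have h1 : IsNoetherian Λ A := isNoetherian_of_isNoetherianRing_of_finite Λ A
  have h2 : IsNoetherian Λ C := isNoetherian_of_isNoetherianRing_of_finite Λ C
  have h3 : IsNoetherian Λ B := isNoetherian_of_range_eq_ker a b h.linearMap_ker_eq.symm
  exact Module.IsNoetherian.finite Λ B

end seq

/-- Weil-étale motivic Borel-Moore homology of the separated schemes `f : X → Spec k` of finite type over the
finite field `k` of characteristic `p`, with coefficients in `Λ = ℤ[1/p]`: `G X i j = H_i^W(X, ℤ[1/p](j))` is the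
homology in degree `i` of the fibre of `1 - φ` on the étale motivic Borel-Moore homology with the twist `j` of
`X̄` with coefficients in `ℤ[1/p]` (of the étale motive `f^! ℤ[1/p]`). For `X` smooth of pure dimension `d` and
`j ≤ d` this is the group `H_W^{2d-i}(X, ℤ(d - j)) ⊗ ℤ[1/p]`. The properties which are used: localization
sequences, homotopy invariance for the affine bundles of Jouanolou, a direct summand of the homology of
`X × 𝔾_m`, and finite generation in dimension at most one (Lichtenbaum, Quillen, Harder, Geisser). -/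
structure WThy (k : Type) [Field k] (Λ : Type) [CommRing Λ] where
  /-- the groups -/
  G : Sch k → ℤ → ℤ → Mod Λ
  /-- isomorphic schemes have isomorphic homology -/
  iso : ∀ X Y : Sch k, Nonempty (X ≅ Y) → ∀ i j, IsEquiv (G X i j) (G Y i j)
  /-- the localization sequence of a closed subscheme `Z` of `X` with the complement `U` -/
  localization : ∀ {Z X U : Sch k} (i : Z ⟶ X) (j : U ⟶ X), FT True X → IsTriple i j →
    ∀ n, LocSeq (fun k => G Z k n) (fun k => G X k n) fun k => G U k n
  /-- `U` is the complement of `f = 0` in `Spec A`, and `Spec A[w] / (∑ f_l w_l - 1)` is an affine bundle of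
  relative dimension `m - 1` over `U` (Jouanolou) -/
  bundle : ∀ (A : Type) [CommRing A] [Algebra k A] [Algebra.FiniteType k A] (m : ℕ) (f : Fin m → A) (U : Sch k),
    IsComplement f U → ∀ i n : ℤ, IsEquiv (G U i n) (G (aff k (Jou f)) (i + 2 * (m - 1)) (n + (m - 1)))
  /-- the homology of `X` is a direct summand of the homology of `X × 𝔾_m`, with a twist -/
  torus : ∀ (A : Type) [CommRing A] [Algebra k A] [Algebra.FiniteType k A] (i n : ℤ),
    IsQuotient (G (aff k (LaurentPolynomial A)) (i + 2) (n + 1)) (G (aff k A) i n)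
  /-- the case of dimension at most one -/
  curves : ∀ X : Sch k, FT True X → topologicalKrullDim X.left ≤ 1 → ∀ i n, Module.Finite Λ (G X i n).M

variable {k : Type} [Field k]

/-- All groups of `X` are finitely generated. -/
def WThy.Fin (T : WThy k Λ) (X : Sch k) : Prop := ∀ i n : ℤ, Module.Finite Λ (T.G X i n).M

theorem dim_point : topologicalKrullDim (aff k k).left ≤ 1 := by
  rw [topDim_aff, ringKrullDim_eq_zero_of_field]
  exact zero_le_one

theorem bnd [IsNoetherianRing Λ] (T : WThy k Λ) : Bnd True T.Fin := by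
  refine bnd_mk ?_ ?_ ?_ ?_ ?_ ?_ ?_
  · intro X Y _ h hX i n
    obtain ⟨e⟩ := T.iso X Y h i n
    have := hX i n
    exact Module.Finite.equiv e
  · intro Z X U i j hX h hZ hU l n
    obtain ⟨a, b, d, h⟩ := T.localization i j hX h n
    exact fin_exact (a l) (b l) (h l).1 (hZ l n) (hU l n)
  · intro Z X U i j hX h hZ hX' l n
    obtain ⟨l, rfl⟩ : ∃ m, l = m + 1 := ⟨l - 1, by ring⟩
    obtain ⟨a, b, d, h⟩ := T.localization i j hX h n
    exact fin_exact (b (l + 1)) (d l) (h l).2.1 (hX' (l + 1) n) (hZ l n)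
  · intro Z X U i j hX h hX' hU l n
    obtain ⟨a, b, d, h⟩ := T.localization i j hX h n
    exact fin_exact (d l) (a l) (h l).2.2 (hU (l + 1) n) (hX' l n)
  · exact T.curves _ (ft_aff True) dim_point
  · intro A _ _ _ m f U j h1 h2
    constructor
    · intro h i n
      have h3 := T.bundle A m f U ⟨j, h1, h2⟩ (i - 2 * (m - 1)) (n - (m - 1))
      rw [sub_add_cancel, sub_add_cancel] at h3
      obtain ⟨e⟩ := h3
      have := h (i - 2 * (m - 1)) (n - (m - 1))
      exact Module.Finite.equiv e
    · intro h i n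
      obtain ⟨e⟩ := T.bundle A m f U ⟨j, h1, h2⟩ i n
      have := h (i + 2 * (m - 1)) (n + (m - 1))
      exact Module.Finite.equiv e.symm
  · intro A _ _ _ h i n
    obtain ⟨r, hr⟩ := T.torus A i n
    have := h (i + 2) (n + 1)
    exact Module.Finite.of_surjective r hr

theorem main {p : ℕ} [Fact p.Prime] [IsNoetherianRing Λ] (T : WThy (ZMod p) Λ) :
    List.TFAE [ForAll (ZMod p) True T.Fin, ForSmooth (ZMod p) True T.Fin, ForSparse (ZMod p) T.Fin,
      ForCompl (ZMod p) T.Fin, ForConeCompl (ZMod p) T.Fin, ForHyp (ZMod p) T.Fin, ForConeHyp (ZMod p) T.Fin] :=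
  tfae_for (bnd T) (presents_zmod p)

theorem dims [PerfectField k] [IsNoetherianRing Λ] (T : WThy k Λ) (d : ℕ) :
    List.TFAE [DimAll k True T.Fin d, DimSmooth k True T.Fin d, ForTri k T.Fin (d + 2),
      ForBlock k T.Fin (d + 2)] ∧ (DimAll k True T.Fin d → ForBil k T.Fin (d + 2)) :=
  tfae_dim (bnd T) d

theorem dim_one (T : WThy k Λ) : DimAll k True T.Fin 1 := fun X hX hd =>
  T.curves X hX (by exact_mod_cast hd)

end Pool.Agent.P8H64.GH.Wet
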